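import Pool.Agent.Lib.MP_ef2672_gt_Chain.Order

/-!
Commuting isometries of a lattice.
-/

namespace Pool.Agent.Lib.MP_ef2672_gt_Chain

open Pool.Agent.Lib.MP_ef2672_gt_Tauber Pool.Agent.Lib.MP_ef2672_gt_Sym

/-- A commuting family has a common eigenvector. -/
lemma exists_common_eigenvector {ι V : Type*} [AddCommGroup V] [Module ℂ V]
    [FiniteDimensional ℂ V] (f : ι → (V →ₗ[ℂ] V)) (hf : ∀ i j x, f i (f j x) = f j (f i x)) :
    ∀ (m : ℕ) (W : Submodule ℂ V), Module.finrank ℂ W = m → W ≠ ⊥ →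
      (∀ i, ∀ x ∈ W, f i x ∈ W) → ∃ w ∈ W, w ≠ 0 ∧ ∀ i, ∃ c : ℂ, f i w = c • w := by
  intro m
  induction m using Nat.strong_induction_on with
  | _ m ih =>
  intro W hm hW hs
  by_cases h : ∀ i, ∃ c : ℂ, ∀ x ∈ W, f i x = c • x
  · obtain ⟨w, hw, hw0⟩ := (Submodule.ne_bot_iff W).1 hW
    refine ⟨w, hw, hw0, fun i => ?_⟩
    obtain ⟨c, hc⟩ := h i
    exact ⟨c, hc w hw⟩
  · push Not at h
    obtain ⟨i, hi⟩ := h
    have : Nontrivial W := Submodule.nontrivial_iff_ne_bot.2 hW
    obtain ⟨μ, hμ⟩ := Module.End.exists_eigenvalue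
      ((f i).restrict (fun x hx => hs i x hx) : Module.End ℂ W)
    obtain ⟨v, hv⟩ := hμ.exists_hasEigenvector
    have hEmem : ∀ x, x ∈ W ⊓ Module.End.eigenspace (f i) μ ↔ x ∈ W ∧ f i x = μ • x := by
      intro x
      rw [Submodule.mem_inf, Module.End.mem_eigenspace_iff]
    have hvE : (v : V) ∈ W ⊓ Module.End.eigenspace (f i) μ := by
      rw [hEmem]
      refine ⟨v.2, ?_⟩
      have := congrArg (Subtype.val) hv.apply_eq_smul
      simpa using this
    have hv0 : (v : V) ≠ 0 := fun h0 => hv.2 (Subtype.ext h0)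
    have hE : W ⊓ Module.End.eigenspace (f i) μ ≠ ⊥ := by
      intro h0
      rw [h0, Submodule.mem_bot] at hvE
      exact hv0 hvE
    have hlt : Module.finrank ℂ (W ⊓ Module.End.eigenspace (f i) μ : Submodule ℂ V) <
        Module.finrank ℂ W := by
      apply Submodule.finrank_lt_finrank_of_lt
      refine lt_of_le_of_ne inf_le_left ?_
      intro h0
      obtain ⟨x, hx, hne⟩ := hi μ
      have : x ∈ W ⊓ Module.End.eigenspace (f i) μ := by
        rw [h0]
        exact hx
      exact hne ((hEmem x).1 this).2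
    have hEs : ∀ j, ∀ x ∈ W ⊓ Module.End.eigenspace (f i) μ,
        f j x ∈ W ⊓ Module.End.eigenspace (f i) μ := by
      intro j x hx
      rw [hEmem] at hx ⊢
      refine ⟨hs j x hx.1, ?_⟩
      rw [hf i j, hx.2, map_smul]
    obtain ⟨w, hw, hw0, hc⟩ := ih _ (hm ▸ hlt) _ rfl hE hEs
    exact ⟨w, ((hEmem w).1 hw).1, hw0, hc⟩

lemma totient_sq (m : ℕ) : 0 < m →
    (Odd m → m ≤ m.totient ^ 2) ∧ m ≤ 2 * m.totient ^ 2 := by
  induction m using Nat.recOnPosPrimePosCoprime with
  | zero => intro h; omega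
  | one => intro _; simp
  | prime_pow p k hp hk =>
    intro _
    obtain ⟨j, rfl⟩ := Nat.exists_eq_succ_of_ne_zero hk.ne'
    rw [Nat.totient_prime_pow hp hk]
    simp only [Nat.succ_eq_add_one, Nat.add_sub_cancel]
    have hpj : 1 ≤ p ^ j := Nat.one_le_pow _ _ hp.pos
    have hodd : 3 ≤ p → p ^ (j + 1) ≤ (p ^ j * (p - 1)) ^ 2 := by
      intro hp3
      obtain ⟨q, rfl⟩ : ∃ q, p = q + 3 := ⟨p - 3, by omega⟩
      have h1 : q + 3 ≤ (q + 3 - 1) ^ 2 := by
        have : q + 3 - 1 = q + 2 := by omega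
        rw [this]
        nlinarith
      calc (q + 3) ^ (j + 1) = (q + 3) ^ j * 1 * (q + 3) := by rw [pow_succ, mul_one]
        _ ≤ (q + 3) ^ j * (q + 3) ^ j * (q + 3 - 1) ^ 2 := by gcongr
        _ = _ := by ring
    constructor
    · intro ho
      apply hodd
      have h2 := hp.two_le
      rcases h2.eq_or_lt with h3 | h3
      · exfalso
        rw [← h3] at ho
        have h4 : Even (2 ^ (j + 1)) := by
          rw [pow_succ]
          exact even_two.mul_left _
        exact (Nat.not_even_iff_odd.2 ho) h4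
      · exact h3
    · have h2 := hp.two_le
      rcases h2.eq_or_lt with h3 | h3
      · rw [← h3]
        have h4 : 1 ≤ 2 ^ j := Nat.one_le_two_pow
        have h5 : 2 ^ j * (2 - 1) = 2 ^ j := by omega
        rw [h5, pow_succ]
        nlinarith
      · have := hodd h3
        omega
  | coprime a b ha hb hab iha ihb =>
    intro _
    obtain ⟨a1, a2⟩ := iha (by omega)
    obtain ⟨b1, b2⟩ := ihb (by omega)
    rw [Nat.totient_mul hab, mul_pow]
    constructor
    · intro ho
      rw [Nat.odd_mul] at ho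
      exact Nat.mul_le_mul (a1 ho.1) (b1 ho.2)
    · rcases Nat.even_or_odd a with hae | hao
      · have hbo : Odd b := by
          rw [← Nat.not_even_iff_odd]
          intro hbe
          have : 2 ∣ Nat.gcd a b := Nat.dvd_gcd hae.two_dvd hbe.two_dvd
          rw [hab] at this
          omega
        calc a * b ≤ (2 * a.totient ^ 2) * b.totient ^ 2 := Nat.mul_le_mul a2 (b1 hbo)
          _ = _ := by ring
      · calc a * b ≤ a.totient ^ 2 * (2 * b.totient ^ 2) := Nat.mul_le_mul (a1 hao) b2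
          _ = _ := by ring

lemma aeval_mulVec {n : ℕ} {R : Matrix (Fin n) (Fin n) ℤ} {w : Fin n → ℂ} {z : ℂ}
    (h : (R.map (Int.castRingHom ℂ)).mulVec w = z • w) (q : Polynomial ℤ) :
    ((Polynomial.aeval R q).map (Int.castRingHom ℂ)).mulVec w = (Polynomial.aeval z q) • w := by
  have hpow : ∀ k : ℕ, ((R ^ k).map (Int.castRingHom ℂ)).mulVec w = z ^ k • w := by
    intro k
    induction k with
    | zero =>
      rw [pow_zero, pow_zero, one_smul, Matrix.map_one _ (map_zero _) (map_one _),
        Matrix.one_mulVec]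
    | succ k ih =>
      rw [pow_succ, Matrix.map_mul, ← Matrix.mulVec_mulVec, h, Matrix.mulVec_smul, ih, smul_smul,
        pow_succ, mul_comm]
  induction q using Polynomial.induction_on' with
  | add p q hp hq =>
    rw [map_add, map_add, Matrix.map_add _ (map_add _), Matrix.add_mulVec, hp, hq, add_smul]
  | monomial k a =>
    rw [Polynomial.aeval_monomial, Polynomial.aeval_monomial, ← Algebra.smul_def,
      ← Algebra.smul_def]
    have h1 : (a • R ^ k).map (Int.castRingHom ℂ) = (a : ℂ) • (R ^ k).map (Int.castRingHom ℂ) := by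
      ext i j
      rw [Matrix.map_apply, Matrix.smul_apply, Matrix.smul_apply, Matrix.map_apply, smul_eq_mul,
        smul_eq_mul, map_mul, eq_intCast]
    rw [h1, Matrix.smul_mulVec, hpow, smul_smul, zsmul_eq_mul]

section

variable {G : Type*} [Group G] {n : ℕ} (ρ : G →* Matrix (Fin n) (Fin n) ℤ)

/-- In a commutative group of integer matrices a non trivial subgroup has a subgroup of index at
most `2 d²` whose lattice of fixed vectors has rank larger by `d`. -/
theorem exists_cyclic_step [Finite G] (hcomm : ∀ a b : G, a * b = b * a)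
    (H : Subgroup G) (hH : ∃ h ∈ H, ρ h ≠ 1) :
    ∃ K : Subgroup G, K ≤ H ∧
      K.relIndex H ≤ 2 * (fixRank (ρ '' (K : Set G)) - fixRank (ρ '' (H : Set G))) ^ 2 ∧
      fixRank (ρ '' (H : Set G)) < fixRank (ρ '' (K : Set G)) := by
  classical
  have hGf : Fintype G := Fintype.ofFinite G
  obtain ⟨h₀, hh₀, hne⟩ := hH
  let E : (Fin n → ℂ) →ₗ[ℂ] (Fin n → ℂ) := ∑ k : H, cplx ρ (k : G)
  have hE : ∀ x, E x = ((∑ k : H, ρ (k : G)).map (Int.castRingHom ℂ)).mulVec x := by
    intro x
    show (∑ k : H, cplx ρ (k : G)) x = _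
    rw [LinearMap.sum_apply]
    exact sum_cplx ρ H x
  have hEh : ∀ h ∈ H, ∀ x, E (cplx ρ h x) = E x := by
    intro h hh x
    rw [hE, hE, cplx_apply, Matrix.mulVec_mulVec, ← Matrix.map_mul, sum_mul_right ρ H hh]
  set W : Submodule ℂ (Fin n → ℂ) := LinearMap.ker E with hW
  have hWstab : ∀ h ∈ H, ∀ x ∈ W, cplx ρ h x ∈ W := by
    intro h hh x hx
    rw [hW, LinearMap.mem_ker] at hx ⊢
    rw [hEh h hh, hx]
  have hWne : W ≠ ⊥ := by
    intro h0
    apply hne
    have h1 : ∀ x : Fin n → ℂ, cplx ρ h₀ x = x := by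
      intro x
      have h2 : x - cplx ρ h₀ x ∈ W := by
        rw [hW, LinearMap.mem_ker, map_sub, hEh h₀ hh₀, sub_self]
      rw [h0, Submodule.mem_bot, sub_eq_zero] at h2
      exact h2.symm
    have h3 : (ρ h₀).map (Int.castRingHom ℂ) = 1 := by
      have h4 : Matrix.toLin' ((ρ h₀).map (Int.castRingHom ℂ)) = Matrix.toLin' 1 := by
        rw [Matrix.toLin'_one]
        exact LinearMap.ext fun x => h1 x
      exact Matrix.toLin'.injective h4
    ext i j
    have h5 := congrFun (congrFun h3 i) j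
    rw [Matrix.map_apply] at h5
    by_cases hij : i = j
    · subst hij
      rw [Matrix.one_apply_eq] at h5 ⊢
      have : ((ρ h₀ i i : ℤ) : ℂ) = ((1 : ℤ) : ℂ) := by simpa using h5
      exact_mod_cast this
    · rw [Matrix.one_apply_ne hij] at h5 ⊢
      have : ((ρ h₀ i j : ℤ) : ℂ) = ((0 : ℤ) : ℂ) := by simpa using h5
      exact_mod_cast this
  -- a common eigenvector
  obtain ⟨w, hwW, hw0, hwc⟩ := exists_common_eigenvector (fun h : H => cplx ρ (h : G))
    (fun i j x => by
      have h1 : cplx ρ ((i : G) * j) x = cplx ρ ((j : G) * i) x := by rw [hcomm]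
      rw [map_mul, map_mul, Module.End.mul_apply, Module.End.mul_apply] at h1
      exact h1) _ W rfl hWne (fun i x hx => hWstab i i.2 x hx)
  choose c hc using hwc
  have huniq : ∀ a b : ℂ, a • w = b • w → a = b := by
    intro a b hab
    have h1 : (a - b) • w = 0 := by rw [sub_smul, hab, sub_self]
    exact sub_eq_zero.1 ((smul_eq_zero.1 h1).resolve_right hw0)
  let chi : H →* ℂ :=
    { toFun := fun h => c h
      map_one' := by
        apply huniq
        have h1 := hc 1
        rw [Subgroup.coe_one, map_one, Module.End.one_apply] at h1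
        rw [one_smul]
        exact h1.symm
      map_mul' := fun a b => by
        apply huniq
        have h1 := hc (a * b)
        rw [Subgroup.coe_mul, map_mul, Module.End.mul_apply, hc b, map_smul, hc a, smul_smul] at h1
        show c (a * b) • w = (c a * c b) • w
        rw [← h1, mul_comm (c b)] }
  let lam : H →* ℂˣ := chi.toHomUnits
  have hlam : ∀ h : H, ((lam h : ℂˣ) : ℂ) = c h := fun h => rfl
  have hfin : Finite lam.range := by
    have : Finite H := inferInstance
    exact Set.finite_range lam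
  obtain ⟨g, hg⟩ := IsCyclic.exists_generator (α := lam.range)
  have hord : orderOf g = Nat.card lam.range := orderOf_eq_card_of_forall_mem_zpowers hg
  obtain ⟨h, hh⟩ := g.2
  have hm0 : 0 < Nat.card lam.range := Nat.card_pos
  have hprim : IsPrimitiveRoot ((g : ℂˣ) : ℂ) (Nat.card lam.range) := by
    rw [← hord]
    have h2 : IsPrimitiveRoot (g : ℂˣ) (orderOf g) := by
      rw [IsPrimitiveRoot.iff_orderOf, Subgroup.orderOf_coe]
    exact IsPrimitiveRoot.coe_units_iff.2 h2
  have hgc : ((g : ℂˣ) : ℂ) = c h := by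
    rw [← hh]
    exact hlam h
  set K : Subgroup G := lam.ker.map H.subtype with hK
  have hKH : K ≤ H := Subgroup.map_subtype_le _
  have hKw : ∀ k ∈ K, cplx ρ k w = w := by
    rintro _ ⟨x, hx, rfl⟩
    have h1 := hc x
    have h2 : c x = 1 := by
      have : lam x = 1 := hx
      rw [← hlam, this, Units.val_one]
    rw [h2, one_smul] at h1
    exact h1
  have hidx : K.relIndex H = Nat.card lam.range := by
    have h1 : (lam.ker.map H.subtype).subgroupOf H = lam.ker := by
      ext x
      rw [Subgroup.mem_subgroupOf]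
      constructor
      · rintro ⟨y, hy, hyx⟩
        have : y = x := Subtype.ext hyx
        rwa [← this]
      · intro hx
        exact ⟨x, hx, rfl⟩
    rw [Subgroup.relIndex, hK, h1, Subgroup.index_ker]
  -- the lattice of the vectors fixed by `K` and killed by the sum over `H`
  set SH : Matrix (Fin n) (Fin n) ℤ := ∑ k : H, ρ (k : G) with hSH
  set SK : Matrix (Fin n) (Fin n) ℤ := ∑ k : K, ρ (k : G) with hSK
  set M : Submodule ℤ (Fin n → ℤ) := fixedLattice (ρ '' (K : Set G)) ⊓
    LinearMap.ker (Matrix.toLin' SH) with hM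
  have hMmem : ∀ x, x ∈ M ↔ (∀ k ∈ K, (ρ k).mulVec x = x) ∧ SH.mulVec x = 0 := by
    intro x
    rw [hM, Submodule.mem_inf, mem_fix, LinearMap.mem_ker, Matrix.toLin'_apply]
  have hMstab : ∀ x ∈ M, Matrix.toLin' (ρ h) x ∈ M := by
    intro x hx
    rw [hMmem] at hx ⊢
    refine ⟨fun k hk => ?_, ?_⟩
    · rw [Matrix.toLin'_apply, Matrix.mulVec_mulVec, ← map_mul, hcomm, map_mul,
        ← Matrix.mulVec_mulVec, hx.1 k hk]
    · rw [Matrix.toLin'_apply, Matrix.mulVec_mulVec, hSH, sum_mul_right ρ H h.2]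
      exact hx.2
  let u : M →ₗ[ℤ] M := (Matrix.toLin' (ρ h)).restrict hMstab
  set q := u.charpoly with hq
  have hqu : Polynomial.aeval u q = 0 := u.aeval_self_charpoly
  -- the polynomial kills the lattice
  have hsub : ∀ (r : Polynomial ℤ) (x : M), ((Polynomial.aeval u r x : M) : Fin n → ℤ) =
      (Polynomial.aeval (ρ h) r).mulVec x := by
    intro r x
    have hpow : ∀ (k : ℕ) (x : M), (((u ^ k) x : M) : Fin n → ℤ) = ((ρ h) ^ k).mulVec x := by
      intro k
      induction k with
      | zero => intro x; simp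
      | succ k ih =>
        intro x
        rw [pow_succ, Module.End.mul_apply, ih, pow_succ, ← Matrix.mulVec_mulVec]
        rfl
    induction r using Polynomial.induction_on' with
    | add p q hp hq =>
      rw [map_add, map_add, LinearMap.add_apply, Submodule.coe_add, hp, hq, Matrix.add_mulVec]
    | monomial k a =>
      rw [Polynomial.aeval_monomial, Polynomial.aeval_monomial, ← Algebra.smul_def,
        ← Algebra.smul_def, LinearMap.smul_apply, Submodule.coe_smul, hpow, Matrix.smul_mulVec]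
  -- the projection to the lattice
  set F : Matrix (Fin n) (Fin n) ℤ := SK * ((Fintype.card H : ℤ) • 1 - SH) with hF
  have hcommSK : ∀ g' : G, ρ g' * SK = SK * ρ g' := by
    intro g'
    rw [hSK, Finset.mul_sum, Finset.sum_mul]
    refine Finset.sum_congr rfl fun k _ => ?_
    rw [← map_mul, ← map_mul, hcomm]
  have hSHSK : SH * SK = (Fintype.card K : ℤ) • SH := by
    rw [hSK, Finset.mul_sum, Finset.sum_congr rfl fun (k : K) _ => sum_mul_right ρ H (hKH k.2),
      Finset.sum_const, Finset.card_univ, natCast_zsmul]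
  have hSHSH : SH * SH = (Fintype.card H : ℤ) • SH := by
    conv_lhs => rw [hSH]
    rw [Finset.mul_sum, Finset.sum_congr rfl fun (k : H) _ => sum_mul_right ρ H k.2,
      Finset.sum_const, Finset.card_univ, natCast_zsmul]
  have hFM : ∀ y : Fin n → ℤ, F.mulVec y ∈ M := by
    intro y
    rw [hMmem]
    constructor
    · intro k hk
      rw [Matrix.mulVec_mulVec, hF, ← Matrix.mul_assoc, hSK, sum_mul_left ρ K hk]
    · rw [Matrix.mulVec_mulVec, hF, ← Matrix.mul_assoc, hSHSK, Matrix.smul_mul, Matrix.mul_sub,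
        Matrix.mul_smul, Matrix.mul_one, hSHSH, sub_self, smul_zero, Matrix.zero_mulVec]
  have hzero : Polynomial.aeval (ρ h) q * F = 0 := by
    refine Matrix.ext_of_mulVec_single fun i => ?_
    rw [← Matrix.mulVec_mulVec, Matrix.zero_mulVec]
    have h1 := hsub q ⟨F.mulVec (Pi.single i 1), hFM _⟩
    rw [hqu, LinearMap.zero_apply] at h1
    exact h1.symm
  have hSHw : (SH.map (Int.castRingHom ℂ)).mulVec w = 0 := by
    rw [← hE]
    exact LinearMap.mem_ker.1 hwW
  have hSKw : (SK.map (Int.castRingHom ℂ)).mulVec w = (Fintype.card K : ℂ) • w := by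
    rw [hSK, ← sum_cplx, Finset.sum_congr rfl fun (k : K) _ => hKw k k.2, Finset.sum_const,
      Finset.card_univ, Nat.cast_smul_eq_nsmul]
  have hFw : (F.map (Int.castRingHom ℂ)).mulVec w =
      ((Fintype.card H : ℂ) * (Fintype.card K : ℂ)) • w := by
    have h1 : ((Fintype.card H : ℤ) • (1 : Matrix (Fin n) (Fin n) ℤ) - SH).map
        (Int.castRingHom ℂ) = (Fintype.card H : ℂ) • (1 : Matrix (Fin n) (Fin n) ℂ) -
        SH.map (Int.castRingHom ℂ) := by
      ext i j
      rw [Matrix.map_apply, Matrix.sub_apply, Matrix.sub_apply, Matrix.smul_apply,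
        Matrix.smul_apply, Matrix.map_apply, smul_eq_mul, smul_eq_mul, map_sub, map_mul]
      by_cases hij : i = j
      · subst hij
        rw [Matrix.one_apply_eq, Matrix.one_apply_eq]
        simp
      · rw [Matrix.one_apply_ne hij, Matrix.one_apply_ne hij]
        simp
    rw [hF, Matrix.map_mul, h1, ← Matrix.mulVec_mulVec, Matrix.sub_mulVec, Matrix.smul_mulVec,
      Matrix.one_mulVec, hSHw, sub_zero, Matrix.mulVec_smul, hSKw, smul_smul]
  have hcard0 : ((Fintype.card H : ℂ) * (Fintype.card K : ℂ)) ≠ 0 := by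
    apply mul_ne_zero
    · exact_mod_cast Fintype.card_ne_zero
    · exact_mod_cast Fintype.card_ne_zero
  have hroot : Polynomial.aeval ((g : ℂˣ) : ℂ) q = 0 := by
    have h1 : ((Polynomial.aeval (ρ h) q * F).map (Int.castRingHom ℂ)).mulVec w = 0 := by
      rw [hzero]
      ext i
      simp [Matrix.mulVec]
    have h2 : ((ρ h).map (Int.castRingHom ℂ)).mulVec w = ((g : ℂˣ) : ℂ) • w := by
      rw [hgc]
      exact hc h
    rw [Matrix.map_mul, ← Matrix.mulVec_mulVec, hFw, Matrix.mulVec_smul, aeval_mulVec h2,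
      smul_smul] at h1
    have h3 := (smul_eq_zero.1 h1).resolve_right hw0
    exact (mul_eq_zero.1 h3).resolve_left hcard0
  have hdeg : (Nat.card lam.range).totient ≤ Module.finrank ℤ M := by
    have h3 : minpoly ℤ ((g : ℂˣ) : ℂ) ∣ q :=
      minpoly.isIntegrallyClosed_dvd (hprim.isIntegral hm0) hroot
    have h4 := Polynomial.natDegree_le_of_dvd h3 u.charpoly_monic.ne_zero
    rw [hq, u.charpoly_natDegree] at h4
    exact (hprim.totient_le_degree_minpoly).trans h4
  have hrank : Module.finrank ℤ M + fixRank (ρ '' (H : Set G)) ≤ fixRank (ρ '' (K : Set G)) := by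
    have hle : fixedLattice (ρ '' (H : Set G)) ≤ fixedLattice (ρ '' (K : Set G)) :=
      fixedLattice_anti (image_mono ρ hKH)
    let φ : (M × fixedLattice (ρ '' (H : Set G))) →ₗ[ℤ] fixedLattice (ρ '' (K : Set G)) :=
      LinearMap.coprod (Submodule.inclusion (inf_le_left : M ≤ _)) (Submodule.inclusion hle)
    have hφ : Function.Injective φ := by
      rw [injective_iff_map_eq_zero]
      rintro ⟨⟨x, hx⟩, ⟨y, hy⟩⟩ hxy
      have h1 : x + y = 0 := congrArg Subtype.val hxy
      have h2 : ∀ k ∈ H, (ρ k).mulVec y = y := (mem_fix ρ).1 hy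
      have h3 : SH.mulVec x = 0 := ((hMmem x).1 hx).2
      have h4 : SH.mulVec y = (Fintype.card H : ℤ) • y := by
        rw [hSH, Matrix.sum_mulVec, Finset.sum_congr rfl fun (k : H) _ => h2 k k.2,
          Finset.sum_const, Finset.card_univ]
        simp
      have h5 : SH.mulVec (x + y) = (Fintype.card H : ℤ) • y := by
        rw [Matrix.mulVec_add, h3, h4, zero_add]
      rw [h1, Matrix.mulVec_zero] at h5
      have h6 : y = 0 := by
        rcases smul_eq_zero.1 h5.symm with h7 | h7
        · exfalso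
          have : Fintype.card H = 0 := by exact_mod_cast h7
          exact Fintype.card_ne_zero this
        · exact h7
      have h7 : x = 0 := by rw [h6, add_zero] at h1; exact h1
      subst h6
      subst h7
      rfl
    have h1 := LinearMap.finrank_le_finrank_of_injective hφ
    rw [Module.finrank_prod] at h1
    exact h1
  have hφ1 : 0 < (Nat.card lam.range).totient := Nat.totient_pos.2 hm0
  refine ⟨K, hKH, ?_, by omega⟩
  rw [hidx]
  refine (totient_sq _ hm0).2.trans ?_
  refine Nat.mul_le_mul_left 2 (Nat.pow_le_pow_left ?_ 2)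
  omega

/-- A commutative group of isometries. -/
theorem abelian_reach [Finite G] (hcomm : ∀ a b : G, a * b = b * a)
    (hinj : Function.Injective ρ) {A : Matrix (Fin n) (Fin n) ℝ} (hA : A.det ≠ 0)
    (hiso : ∀ g, IsIsometry A (ρ g)) (m : ℕ) :
    ∀ H : Subgroup G, Nat.card H ≤ m → ∃ D : List ℕ, (∀ d ∈ D, 1 ≤ d) ∧
      Reach A (ρ '' (H : Set G)) D ∧ Nat.card H ≤ (D.map fun d => 2 * d ^ 2).prod := by
  induction m with
  | zero =>
    intro H hH
    have : 0 < Nat.card H := Nat.card_pos
    omega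
  | succ m ih =>
    intro H hH
    by_cases htriv : ∀ h ∈ H, ρ h = 1
    · refine ⟨[], by simp, reach_base A ?_, ?_⟩
      · rintro _ ⟨g, hg, rfl⟩
        exact htriv g hg
      · have h1 : H = ⊥ := by
          rw [eq_bot_iff]
          intro h hh
          rw [Subgroup.mem_bot]
          exact hinj (by rw [htriv h hh, map_one])
        rw [h1]
        simp
    · push Not at htriv
      obtain ⟨K, hKH, hidx, hrank⟩ := exists_cyclic_step ρ hcomm H htriv
      have hcard : Nat.card K * K.relIndex H = Nat.card H := by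
        have := Subgroup.relIndex_mul_relIndex ⊥ K H bot_le hKH
        rwa [Subgroup.relIndex_bot_left, Subgroup.relIndex_bot_left] at this
      have hlt : Nat.card K < Nat.card H := by
        by_contra hcon
        have h1 : K = H := Subgroup.eq_of_le_of_card_ge hKH (not_lt.1 hcon)
        rw [h1] at hrank
        exact lt_irrefl _ hrank
      obtain ⟨D, hD, hreach, hDc⟩ := ih K (by omega)
      refine ⟨(fixRank (ρ '' (K : Set G)) - fixRank (ρ '' (H : Set G))) :: D, ?_, ?_, ?_⟩
      · intro d hd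
        rcases List.mem_cons.1 hd with h1 | h1
        · rw [h1]
          omega
        · exact hD d h1
      · refine reach_cons hA hreach (image_mono ρ hKH) ?_
        rintro _ ⟨g, _, rfl⟩
        exact hiso g
      · rw [List.map_cons, List.prod_cons, ← hcard, mul_comm]
        exact Nat.mul_le_mul hidx hDc

end

lemma log_mul_log_le {n : ℕ} (hn : 2 ≤ n) :
    Real.log (2 * (n : ℝ) ^ 2) * Real.log n ≤ 48 * √n := by
  have hn2 : (2 : ℝ) ≤ n := by exact_mod_cast hn
  have hn0 : (0 : ℝ) < n := by linarith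
  have hl0 : 0 ≤ Real.log n := Real.log_nonneg (by linarith)
  have h1 : Real.log n ≤ 4 * (n : ℝ) ^ ((1 : ℝ) / 4) := by
    have := Real.log_le_rpow_div hn0.le (show (0 : ℝ) < 1 / 4 by norm_num)
    linarith
  have h2 : Real.log (2 * (n : ℝ) ^ 2) ≤ 3 * Real.log n := by
    rw [Real.log_mul (by norm_num) (by positivity), Real.log_pow]
    have := Real.log_le_log (by norm_num) hn2
    push_cast
    linarith
  have h3 : (n : ℝ) ^ ((1 : ℝ) / 4) * (n : ℝ) ^ ((1 : ℝ) / 4) = √n := by
    rw [← Real.rpow_add hn0, Real.sqrt_eq_rpow]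
    norm_num
  have h4 : Real.log n * Real.log n ≤
      (4 * (n : ℝ) ^ ((1 : ℝ) / 4)) * (4 * (n : ℝ) ^ ((1 : ℝ) / 4)) :=
    mul_le_mul h1 h1 hl0 (by positivity)
  calc Real.log (2 * (n : ℝ) ^ 2) * Real.log n ≤ 3 * Real.log n * Real.log n :=
        mul_le_mul_of_nonneg_right h2 hl0
    _ = 3 * (Real.log n * Real.log n) := by ring
    _ ≤ 3 * ((4 * (n : ℝ) ^ ((1 : ℝ) / 4)) * (4 * (n : ℝ) ^ ((1 : ℝ) / 4))) := by linarith
    _ = 48 * ((n : ℝ) ^ ((1 : ℝ) / 4) * (n : ℝ) ^ ((1 : ℝ) / 4)) := by ring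
    _ = 48 * √n := by rw [h3]

lemma term_le {n d : ℕ} (hn : 2 ≤ n) (hd : 1 ≤ d) (hdn : d ≤ n) :
    Real.log (2 * (d : ℝ) ^ 2) ≤ 4 / Real.log n * ((d : ℝ) * Real.log (n / d)) +
      (d : ℝ) * (Real.log (2 * (n : ℝ) ^ 2) / √n) := by
  have hn2 : (2 : ℝ) ≤ n := by exact_mod_cast hn
  have hn0 : (0 : ℝ) < n := by linarith
  have hd1 : (1 : ℝ) ≤ d := by exact_mod_cast hd
  have hd0 : (0 : ℝ) < d := by linarith
  have hdn' : (d : ℝ) ≤ n := by exact_mod_cast hdn
  have hl0 : 0 < Real.log n := Real.log_pos (by linarith)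
  have hs0 : 0 < √(n : ℝ) := Real.sqrt_pos.2 hn0
  have hL : 0 ≤ Real.log (2 * (n : ℝ) ^ 2) := Real.log_nonneg (by nlinarith)
  have hnd : 0 ≤ Real.log (n / d) := Real.log_nonneg (by rwa [one_le_div hd0])
  rcases le_total (d : ℝ) (√n) with h | h
  · have h1 : Real.log n / 2 ≤ Real.log (n / d) := by
      rw [← Real.log_sqrt hn0.le]
      apply Real.log_le_log hs0
      rw [le_div_iff₀ hd0]
      calc √(n : ℝ) * d ≤ √n * √n := mul_le_mul_of_nonneg_left h hs0.le
        _ = n := Real.mul_self_sqrt hn0.le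
    have h2 : 2 * (d : ℝ) ≤ 4 / Real.log n * ((d : ℝ) * Real.log (n / d)) := by
      rw [div_mul_eq_mul_div, le_div_iff₀ hl0]
      nlinarith
    have h3 : Real.log (2 * (d : ℝ) ^ 2) ≤ 2 * d := by
      rw [Real.log_mul (by norm_num) (by positivity), Real.log_pow]
      have h4 := Real.log_le_sub_one_of_pos hd0
      have h5 := Real.log_le_sub_one_of_pos (show (0 : ℝ) < 2 by norm_num)
      push_cast
      linarith
    have h4 : 0 ≤ (d : ℝ) * (Real.log (2 * (n : ℝ) ^ 2) / √n) := by positivity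
    linarith
  · have h1 : Real.log (2 * (n : ℝ) ^ 2) ≤ (d : ℝ) * (Real.log (2 * (n : ℝ) ^ 2) / √n) := by
      rw [mul_div_assoc', le_div_iff₀ hs0]
      nlinarith
    have h2 : Real.log (2 * (d : ℝ) ^ 2) ≤ Real.log (2 * (n : ℝ) ^ 2) := by
      apply Real.log_le_log (by positivity)
      have : (d : ℝ) ^ 2 ≤ (n : ℝ) ^ 2 := pow_le_pow_left₀ hd0.le hdn' 2
      linarith
    have h3 : 0 ≤ 4 / Real.log n * ((d : ℝ) * Real.log (n / d)) := by positivity
    linarith

lemma sum_terms {n : ℕ} (hn : 2 ≤ n) (D : List ℕ) (hD : ∀ d ∈ D, 1 ≤ d) (hs : D.sum ≤ n) :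
    Real.log (((D.map fun d => 2 * d ^ 2).prod : ℕ) : ℝ) ≤
      4 / Real.log n * (D.map fun d : ℕ => (d : ℝ) * Real.log (n / d)).sum +
        (D.sum : ℝ) * (Real.log (2 * (n : ℝ) ^ 2) / √n) := by
  induction D with
  | nil => simp
  | cons d D ih =>
    simp only [List.map_cons, List.sum_cons, List.prod_cons] at hs ⊢
    have h1 := ih (fun x hx => hD x (List.mem_cons_of_mem _ hx)) (by omega)
    have hd := hD d List.mem_cons_self
    have h2 := term_le hn hd (by omega : d ≤ n)
    have hd0 : (0 : ℝ) < d := by exact_mod_cast (by omega : 0 < d)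
    have hP : 0 < (D.map fun d => 2 * d ^ 2).prod := by
      apply Nat.pos_of_ne_zero
      intro h0
      rw [List.prod_eq_zero_iff, List.mem_map] at h0
      obtain ⟨e, he, he0⟩ := h0
      have := hD e (List.mem_cons_of_mem _ he)
      have h5 : 0 < 2 * e ^ 2 := by positivity
      omega
    have hP' : (((D.map fun d => 2 * d ^ 2).prod : ℕ) : ℝ) ≠ 0 := by
      exact_mod_cast hP.ne'
    rw [Nat.cast_mul, Real.log_mul (by positivity) hP', Nat.cast_add]
    have e1 : ((2 * d ^ 2 : ℕ) : ℝ) = 2 * (d : ℝ) ^ 2 := by push_cast; ring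
    rw [e1]
    linarith

/-- Commuting isometries of a lattice: there are at most
`exp (C n log (4 n / γ(L)) / log n)` of them. -/
theorem abelian_bound : ∃ C : ℝ, 0 < C ∧ ∀ (n : ℕ) (A : Matrix (Fin n) (Fin n) ℝ)
    (S : Finset (Matrix (Fin n) (Fin n) ℤ)), 2 ≤ n → A.det ≠ 0 → (∀ U ∈ S, IsIsometry A U) →
    (∀ U ∈ S, ∀ V ∈ S, U * V = V * U) →
    (S.card : ℝ) ≤ Real.exp (C * n * Real.log (4 * n / inv A) / Real.log n) := by
  classical
  refine ⟨52, by norm_num, fun n A S hn hA hiso hcomm => ?_⟩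
  have hn0 : 0 < n := by omega
  have hn2 : (2 : ℝ) ≤ n := by exact_mod_cast hn
  have hnpos : (0 : ℝ) < n := by linarith
  have hl0 : 0 < Real.log n := Real.log_pos (by linarith)
  have hs0 : 0 < √(n : ℝ) := Real.sqrt_pos.2 hnpos
  have hfin := finite_isoGroup hA
  set L := Real.log (4 * n / inv A) with hL
  have hL1 : 1 ≤ L := one_le_logs hn0 hA
  let T : Set (isoGroup A) := {g | isoHom A g ∈ S}
  have hTcomm : ∀ a ∈ T, ∀ b ∈ T, a * b = b * a := by
    intro a ha b hb
    apply isoHom_injective A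
    rw [map_mul, map_mul]
    exact hcomm _ ha _ hb
  set G := Subgroup.closure T with hG
  have hGc : ∀ a ∈ G, ∀ b ∈ G, a * b = b * a := by
    have h1 : G ≤ Subgroup.centralizer T := by
      rw [hG, Subgroup.closure_le]
      intro a ha
      rw [SetLike.mem_coe, Subgroup.mem_centralizer_iff]
      intro b hb
      exact hTcomm b hb a ha
    have h2 : G ≤ Subgroup.centralizer (G : Set (isoGroup A)) := by
      conv_lhs => rw [hG]
      rw [Subgroup.closure_le]
      intro a ha
      rw [SetLike.mem_coe, Subgroup.mem_centralizer_iff]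
      intro b hb
      exact ((Subgroup.mem_centralizer_iff.1 (h1 hb)) a ha).symm
    intro a ha b hb
    exact ((Subgroup.mem_centralizer_iff.1 (h2 ha)) b hb).symm
  let ρ : G →* Matrix (Fin n) (Fin n) ℤ := (isoHom A).comp G.subtype
  have hinj : Function.Injective ρ := (isoHom_injective A).comp Subtype.val_injective
  obtain ⟨D, hD, hreach, hcard⟩ := abelian_reach ρ
    (fun a b => Subtype.ext (hGc a a.2 b b.2)) hinj hA
    (fun g => isoHom_isometry A _) (Nat.card (⊤ : Subgroup G)) ⊤ le_rfl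
  rw [show Nat.card (⊤ : Subgroup G) = Nat.card G from Subgroup.card_top] at hcard
  have hSG : S.card ≤ Nat.card G := by
    have h1 : ∀ U : S, ∃ g : G, isoHom A g = (U : Matrix (Fin n) (Fin n) ℤ) := by
      rintro ⟨U, hU⟩
      obtain ⟨v, hv⟩ := isometry_isUnit hA (hiso U hU)
      have hv' : IsIsometry A (v : Matrix (Fin n) (Fin n) ℤ) := by
        rw [hv]
        exact hiso U hU
      refine ⟨⟨⟨v, hv'⟩, Subgroup.subset_closure ?_⟩, hv⟩
      show isoHom A ⟨v, hv'⟩ ∈ S
      have : isoHom A ⟨v, hv'⟩ = U := hv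
      rw [this]
      exact hU
    choose f hf using h1
    have h2 : Function.Injective f := by
      intro U V hUV
      apply Subtype.ext
      rw [← hf U, ← hf V, hUV]
    have h3 := Nat.card_le_card_of_injective f h2
    rwa [Nat.card_eq_fintype_card, Fintype.card_coe] at h3
  have hsum : D.sum ≤ n := by
    have := hreach.1
    omega
  have h1 := sum_terms hn D hD hsum
  have h2 := reach_entropy hn0 hA hreach
  rw [← hL] at h2
  have hGpos : 0 < Nat.card G := Nat.card_pos
  have hGle : (Nat.card G : ℝ) ≤ (((D.map fun d => 2 * d ^ 2).prod : ℕ) : ℝ) := by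
    exact_mod_cast hcard
  have hGpos' : (0 : ℝ) < Nat.card G := by exact_mod_cast hGpos
  have h3 : Real.log (Nat.card G) ≤ Real.log (((D.map fun d => 2 * d ^ 2).prod : ℕ) : ℝ) :=
    Real.log_le_log hGpos' hGle
  have h4 : (D.sum : ℝ) * (Real.log (2 * (n : ℝ) ^ 2) / √n) ≤ 48 * (n * L / Real.log n) := by
    have hLn : 0 ≤ Real.log (2 * (n : ℝ) ^ 2) := Real.log_nonneg (by nlinarith)
    have h5 : (D.sum : ℝ) ≤ n := by exact_mod_cast hsum
    have h6 : (D.sum : ℝ) * (Real.log (2 * (n : ℝ) ^ 2) / √n) ≤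
        n * (Real.log (2 * (n : ℝ) ^ 2) / √n) :=
      mul_le_mul_of_nonneg_right h5 (div_nonneg hLn hs0.le)
    refine h6.trans ?_
    have h7 := log_mul_log_le hn
    have h8 : n * (Real.log (2 * (n : ℝ) ^ 2) / √n) ≤ 48 * (n / Real.log n) := by
      rw [mul_div_assoc', mul_div_assoc', div_le_div_iff₀ hs0 hl0]
      calc (n : ℝ) * Real.log (2 * (n : ℝ) ^ 2) * Real.log n
          = n * (Real.log (2 * (n : ℝ) ^ 2) * Real.log n) := by ring
        _ ≤ n * (48 * √n) := mul_le_mul_of_nonneg_left h7 hnpos.le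
        _ = 48 * n * √n := by ring
    refine h8.trans ?_
    refine mul_le_mul_of_nonneg_left ?_ (by norm_num)
    apply div_le_div_of_nonneg_right _ hl0.le
    nlinarith
  have h5 : 4 / Real.log n * (D.map fun d : ℕ => (d : ℝ) * Real.log (n / d)).sum ≤
      4 * (n * L / Real.log n) := by
    have : 4 / Real.log n * (D.map fun d : ℕ => (d : ℝ) * Real.log (n / d)).sum ≤
        4 / Real.log n * (n * L) := mul_le_mul_of_nonneg_left h2 (by positivity)
    refine this.trans (le_of_eq ?_)
    ring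
  have h6 : Real.log (Nat.card G) ≤ 52 * n * L / Real.log n := by
    have e : 52 * n * L / Real.log n = 4 * (n * L / Real.log n) + 48 * (n * L / Real.log n) := by
      ring
    rw [e]
    linarith
  calc (S.card : ℝ) ≤ Nat.card G := by exact_mod_cast hSG
    _ = Real.exp (Real.log (Nat.card G)) := (Real.exp_log hGpos').symm
    _ ≤ _ := Real.exp_le_exp.2 h6

end Pool.Agent.Lib.MP_ef2672_gt_Chain
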