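import Mathlib

/-!
Arithmetic and geometric means for positive semidefinite matrices.
-/

namespace Pool.Agent.Lib.MP_ef2672_gt_Chain

lemma prod_le_mean_pow {r : ℕ} (x : Fin r → ℝ) (hx : ∀ i, 0 ≤ x i) :
    ∏ i, x i ≤ ((∑ i, x i) / r) ^ r := by
  rcases Nat.eq_zero_or_pos r with rfl | hr
  · simp
  have hr0 : (0 : ℝ) < r := by exact_mod_cast hr
  have h1 := Real.geom_mean_le_arith_mean_weighted Finset.univ (fun _ : Fin r => (1 : ℝ) / r) x
    (fun _ _ => by positivity) (by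
      rw [Finset.sum_const, Finset.card_univ, Fintype.card_fin, nsmul_eq_mul]
      field_simp) (fun i _ => hx i)
  have h2 : ∑ i, (1 : ℝ) / r * x i = (∑ i, x i) / r := by
    rw [← Finset.mul_sum]
    ring
  rw [h2, Real.finsetProd_rpow _ _ fun i _ => hx i] at h1
  have h3 : 0 ≤ ∏ i, x i := Finset.prod_nonneg fun i _ => hx i
  calc ∏ i, x i = ((∏ i, x i) ^ ((1 : ℝ) / r)) ^ r := by
        rw [← Real.rpow_natCast, ← Real.rpow_mul h3]
        rw [one_div, inv_mul_cancel₀ hr0.ne', Real.rpow_one]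
    _ ≤ _ := pow_le_pow_left₀ (Real.rpow_nonneg h3 _) h1 r

lemma det_le_trace_pow {r : ℕ} (P : Matrix (Fin r) (Fin r) ℝ) (hP : P.PosSemidef) :
    P.det ≤ (P.trace / r) ^ r := by
  have h1 := hP.1.det_eq_prod_eigenvalues
  have h2 := hP.1.trace_eq_sum_eigenvalues
  rw [h1, h2]
  have := prod_le_mean_pow hP.1.eigenvalues fun i => hP.eigenvalues_nonneg i
  simpa using this

/-- The comparison of two forms. -/
lemma rel_det_le {r : ℕ} (S P : Matrix (Fin r) (Fin r) ℝ) (hS : S.PosSemidef) (hS0 : S.det ≠ 0)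
    (hP : P.PosSemidef) :
    0 ≤ (S⁻¹ * P).trace ∧ P.det ≤ S.det * ((S⁻¹ * P).trace / r) ^ r := by
  obtain ⟨C, hC⟩ : ∃ C : Matrix (Fin r) (Fin r) ℝ, S = C.conjTranspose * C := by
    open scoped MatrixOrder ComplexOrder in
    obtain ⟨C, hC⟩ := CStarAlgebra.nonneg_iff_eq_star_mul_self.mp hS.nonneg
    exact ⟨C, hC⟩
  rw [Matrix.conjTranspose_eq_transpose_of_trivial] at hC
  have hdetC : S.det = C.det ^ 2 := by
    rw [hC, Matrix.det_mul, Matrix.det_transpose, sq]
  have hC0 : C.det ≠ 0 := by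
    intro h
    apply hS0
    rw [hdetC, h]
    simp
  have hCu : IsUnit C.det := isUnit_iff_ne_zero.2 hC0
  set Q := C⁻¹.transpose * P * C⁻¹ with hQ
  have hQps : Q.PosSemidef := by
    have := hP.conjTranspose_mul_mul_same C⁻¹
    rwa [Matrix.conjTranspose_eq_transpose_of_trivial] at this
  have h1 := det_le_trace_pow Q hQps
  have hQdet : S.det * Q.det = P.det := by
    rw [hQ, Matrix.det_mul, Matrix.det_mul, Matrix.det_transpose, Matrix.det_nonsing_inv,
      Ring.inverse_eq_inv', hdetC]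
    field_simp
  have hQtr : Q.trace = (S⁻¹ * P).trace := by
    rw [hQ, Matrix.trace_mul_comm, ← Matrix.mul_assoc, hC, Matrix.mul_inv_rev,
      Matrix.transpose_nonsing_inv]
  rw [← hQdet, ← hQtr]
  refine ⟨hQps.trace_nonneg, ?_⟩
  refine mul_le_mul_of_nonneg_left h1 ?_
  rw [hdetC]
  positivity

end Pool.Agent.Lib.MP_ef2672_gt_Chain
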