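import Pool.Agent.Lib.MP_ef2672_gt_Chain.Entropy

/-!
Volumes of sublattices with free quotient; Mordell's inequality.
-/

namespace Pool.Agent.Lib.MP_ef2672_gt_Chain

open Pool.Agent.Lib.MP_ef2672_gt_Tauber Pool.Agent.Lib.MP_ef2672_gt_Sym

/-- The inequality between the volumes of a lattice and of a primitive sublattice. -/
theorem vol2_gen {n : ℕ} {A : Matrix (Fin n) (Fin n) ℝ} (hA : A.det ≠ 0)
    (M M' : Submodule ℤ (Fin n → ℤ)) (hle : M' ≤ M)
    (hfree : Module.Free ℤ (M ⧸ M'.comap M.subtype)) {d : ℕ}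
    (hd : Module.finrank ℤ M = Module.finrank ℤ M' + d) {m : ℝ} (hm0 : 0 ≤ m)
    (hm : ∀ (k : ℕ) (v : Fin k → Fin n → ℤ) (x : Fin k → ℝ) (u : Fin n → ℤ),
      (∀ j, v j ∈ M') → u ∈ M → u ∉ M' →
      m ≤ ∑ i, (A.mulVec ((cols v).mulVec x + fun j => (u j : ℝ))) i ^ 2) :
    m ^ d * vol2 A M' ≤ gamma d ^ d * vol2 A M := by
  classical
  set W : Submodule ℤ M := M'.comap M.subtype with hW
  let eW : W ≃ₗ[ℤ] M' := Submodule.comapSubtypeEquivOfLe hle
  let bW : Module.Basis (Fin (Module.finrank ℤ W)) ℤ W := Module.finBasis ℤ W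
  have hrk : Module.finrank ℤ (M ⧸ W) = d := by
    have h1 := Submodule.finrank_quotient_add_finrank W
    have h2 : Module.finrank ℤ W = Module.finrank ℤ M' := eW.finrank_eq
    omega
  let bQ : Module.Basis (Fin d) ℤ (M ⧸ W) := (Module.finBasis ℤ (M ⧸ W)).reindex (finCongr hrk)
  let b := Module.Basis.sumQuot bW bQ
  let bv : Fin (Module.finrank ℤ W) ⊕ Fin d → (Fin n → ℤ) := fun i => (b i : Fin n → ℤ)
  have hbli : LinearIndependent ℤ bv :=
    b.linearIndependent.map' M.subtype (Submodule.ker_subtype M)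
  have hvM : vol2 A M = (gram A bv).det := vol2_eq A b
  have hinl : ∀ j, bv (Sum.inl j) = ((bW j : M) : Fin n → ℤ) := by
    intro j
    show ((b (Sum.inl j) : M) : Fin n → ℤ) = _
    rw [Module.Basis.sumQuot_inl]
  have hvM' : vol2 A M' = (gram A fun i => bv (Sum.inl i)).det := by
    rw [vol2_eq A (bW.map eW)]
    congr 2
    ext i
    rw [hinl]
    rfl
  set G := gram A bv with hG
  have hGpd : G.PosDef := gram_posDef hA hbli
  set E := G.toBlocks₁₁ with hE
  set F := G.toBlocks₁₂ with hF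
  set H := G.toBlocks₂₂ with hH
  have hGsym : G.transpose = G := by
    have := hGpd.1
    rwa [Matrix.IsHermitian, Matrix.conjTranspose_eq_transpose_of_trivial] at this
  have h21 : G.toBlocks₂₁ = F.conjTranspose := by
    rw [Matrix.conjTranspose_eq_transpose_of_trivial]
    ext i j
    have := congrFun (congrFun hGsym (Sum.inr i)) (Sum.inl j)
    rw [Matrix.transpose_apply] at this
    simp only [Matrix.toBlocks₂₁, hF, Matrix.toBlocks₁₂, Matrix.transpose_apply, Matrix.of_apply]
    exact this.symm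
  have hGb : G = Matrix.fromBlocks E F F.conjTranspose H := by
    rw [← h21, hE, hF, hH, Matrix.fromBlocks_toBlocks]
  have hEgram : E = gram A fun i => bv (Sum.inl i) := by
    ext i j
    rfl
  have hEpd : E.PosDef := by
    rw [hEgram]
    refine gram_posDef hA ?_
    exact hbli.comp Sum.inl Sum.inl_injective
  have hEdet : E.det ≠ 0 := hEpd.det_pos.ne'
  letI : Invertible E := Matrix.invertibleOfIsUnitDet E (isUnit_iff_ne_zero.2 hEdet)
  set Sc := H - F.conjTranspose * E⁻¹ * F with hSc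
  have hdetG : G.det = E.det * Sc.det := by
    rw [hGb, Matrix.det_fromBlocks₁₁, Matrix.invOf_eq_nonsing_inv]
  have hScpsd : Sc.PosSemidef := by
    rw [hSc, ← Matrix.PosDef.fromBlocks₁₁ F H hEpd, ← hGb]
    exact hGpd.posSemidef
  have hScdet : Sc.det ≠ 0 := by
    intro h0
    have := hGpd.det_pos
    rw [hdetG, h0, mul_zero] at this
    exact lt_irrefl _ this
  have hmain : m ^ d ≤ gamma d ^ d * Sc.det := by
    refine gram_le_fin Sc hScpsd hScdet hm0 ?_
    intro w hw
    set wr : Fin d → ℝ := fun j => (w j : ℝ) with hwr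
    set x : Fin (Module.finrank ℤ W) → ℝ := -((E⁻¹ * F).mulVec wr) with hx
    have h1 := Matrix.schur_complement_eq₁₁ F H x wr hEpd.1
    rw [← hGb, ← Matrix.dotProduct_mulVec, ← Matrix.dotProduct_mulVec,
      ← Matrix.dotProduct_mulVec] at h1
    simp only [star_trivial] at h1
    rw [hx, neg_add_cancel, zero_dotProduct, zero_add, ← hx, ← hSc, hG, gram_quad] at h1
    rw [← h1]
    let u : Fin n → ℤ := ∑ j, w j • bv (Sum.inr j)
    have hvec : (cols bv).mulVec (Sum.elim x wr) =
        (cols fun j => bv (Sum.inl j)).mulVec x + fun i => (u i : ℝ) := by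
      ext i
      simp only [Matrix.mulVec, dotProduct, cols, Matrix.of_apply, Fintype.sum_sum_type,
        Sum.elim_inl, Sum.elim_inr, Pi.add_apply, u, Finset.sum_apply, Pi.smul_apply,
        smul_eq_mul, hwr]
      push_cast
      congr 1
      exact Finset.sum_congr rfl fun j _ => mul_comm _ _
    rw [hvec]
    have hsumM : M.subtype (∑ j, w j • b (Sum.inr j)) = u := by
      rw [map_sum]
      rfl
    refine hm _ _ _ _ ?_ ?_ ?_
    · intro j
      rw [hinl]
      exact (bW j).2
    · rw [← hsumM]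
      exact (∑ j, w j • b (Sum.inr j)).2
    · intro hu
      apply hw
      have h2 : ∀ j, b.repr (∑ j, w j • b (Sum.inr j)) (Sum.inr j) = w j := by
        intro j
        rw [map_sum, Finsupp.finsetSum_apply]
        rw [Finset.sum_eq_single j]
        · simp
        · intro j' _ hj'
          simp [hj']
        · simp
      have h3 : (∑ j, w j • b (Sum.inr j)) ∈ W := by
        show M.subtype (∑ j, w j • b (Sum.inr j)) ∈ M'
        rw [hsumM]
        exact hu
      ext j
      rw [← h2 j, Module.Basis.sumQuot_repr_inr_of_mem bW bQ _ h3]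
      rfl
  rw [hvM, hvM', ← hEgram, hdetG]
  have hE0 : 0 < E.det := hEpd.det_pos
  nlinarith [mul_le_mul_of_nonneg_right hmain hE0.le]

lemma exists_min {n : ℕ} (hn : 0 < n) {A : Matrix (Fin n) (Fin n) ℝ} (hA : A.det ≠ 0) :
    ∃ w : Fin n → ℤ, w ≠ 0 ∧ normSq A w = minSq A := by
  obtain ⟨w₀, hw₀⟩ := nonempty_ne_zero hn
  set r := normSq A w₀ + 1 with hr
  have hfin := finite_short A hA r
  set F := hfin.toFinset with hF
  have hw₀F : w₀ ∈ F := by
    rw [hF, Set.Finite.mem_toFinset]
    exact ⟨hw₀, by rw [hr]; linarith⟩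
  obtain ⟨w₁, hw₁, hmin⟩ := F.exists_min_image (normSq A) ⟨w₀, hw₀F⟩
  have hw₁' : w₁ ≠ 0 := by
    rw [hF, Set.Finite.mem_toFinset] at hw₁
    exact hw₁.1
  refine ⟨w₁, hw₁', le_antisymm (le_minSq hn A fun w hw => ?_) (minSq_le A w₁ hw₁')⟩
  by_cases h : normSq A w < r
  · exact hmin w (by rw [hF, Set.Finite.mem_toFinset]; exact ⟨hw, h⟩)
  · have h1 := hmin w₀ hw₀F
    have h2 : normSq A w₁ ≤ normSq A w := by linarith
    exact h2

/-- The lattice orthogonal to an integer vector. -/
def orth {n : ℕ} (u : Fin n → ℤ) : Submodule ℤ (Fin n → ℤ) where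
  carrier := {w | dotProduct u w = 0}
  add_mem' := fun {a b} ha hb => by
    show dotProduct u (a + b) = 0
    rw [dotProduct_add, show dotProduct u a = 0 from ha, show dotProduct u b = 0 from hb, add_zero]
  zero_mem' := dotProduct_zero u
  smul_mem' := fun c x hx => by
    show dotProduct u (c • x) = 0
    rw [dotProduct_smul, show dotProduct u x = 0 from hx, smul_zero]

lemma mem_orth {n : ℕ} {u w : Fin n → ℤ} : w ∈ orth u ↔ dotProduct u w = 0 := Iff.rfl

/-- Mordell's inequality, for one lattice. -/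
theorem mordell_aux {n : ℕ} (hn : 0 < n) {A : Matrix (Fin (n + 1)) (Fin (n + 1)) ℝ}
    (hA : A.det ≠ 0) : inv A ^ n ≤ gamma n ^ n * gamma (n + 1) := by
  classical
  set B : Matrix (Fin (n + 1)) (Fin (n + 1)) ℝ := (A⁻¹).transpose with hB
  have hdetB : B.det = (A.det)⁻¹ := by
    rw [hB, Matrix.det_transpose, Matrix.det_nonsing_inv, Ring.inverse_eq_inv']
  have hB0 : B.det ≠ 0 := by rw [hdetB]; exact inv_ne_zero hA
  obtain ⟨u, hu0, hu⟩ := exists_min (Nat.succ_pos n) hB0
  have hAu : IsUnit A.det := isUnit_iff_ne_zero.2 hA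
  -- the functional
  let φ : (Fin (n + 1) → ℤ) →ₗ[ℤ] ℤ :=
    { toFun := fun w => dotProduct u w
      map_add' := fun a b => dotProduct_add u a b
      map_smul' := fun c x => dotProduct_smul c u x }
  have hker : LinearMap.ker φ = orth u := by
    ext x; rfl
  have hrange : Module.finrank ℤ (LinearMap.range φ) = 1 := by
    apply le_antisymm
    · have := Submodule.finrank_le (LinearMap.range φ)
      rwa [Module.finrank_self] at this
    · have hne : LinearMap.range φ ≠ ⊥ := by
        intro h0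
        apply hu0
        have h1 : φ u = 0 := by
          have : φ u ∈ LinearMap.range φ := ⟨u, rfl⟩
          rw [h0, Submodule.mem_bot] at this
          exact this
        exact dotProduct_self_eq_zero.1 h1
      have : Nontrivial (LinearMap.range φ) := (Submodule.nontrivial_iff_ne_bot).2 hne
      exact Module.finrank_pos
  have hrk : Module.finrank ℤ (orth u) = n := by
    have h1 := Submodule.finrank_quotient_add_finrank (LinearMap.ker φ)
    rw [φ.quotKerEquivRange.finrank_eq, hrange, Module.finrank_fin_fun] at h1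
    have h2 : Module.finrank ℤ (LinearMap.ker φ) = n := by omega
    exact h2
  have hfree : Module.Free ℤ ((⊤ : Submodule ℤ (Fin (n + 1) → ℤ)) ⧸
      (orth u).comap (⊤ : Submodule ℤ (Fin (n + 1) → ℤ)).subtype) := by
    let ψ : (⊤ : Submodule ℤ (Fin (n + 1) → ℤ)) →ₗ[ℤ] ℤ :=
      φ ∘ₗ (⊤ : Submodule ℤ (Fin (n + 1) → ℤ)).subtype
    have h1 : LinearMap.ker ψ =
        (orth u).comap (⊤ : Submodule ℤ (Fin (n + 1) → ℤ)).subtype := by
      ext x; rfl
    rw [← h1]
    exact Module.Free.of_equiv ψ.quotKerEquivRange.symm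
  have hu2 : 0 < normSq B u := normSq_pos hB0 hu0
  have hstep := vol2_gen hA ⊤ (orth u) le_top hfree (d := 1)
    (by rw [finrank_top, Module.finrank_fin_fun, hrk]) (m := 1 / normSq B u) (by positivity) (by
      intro k v x z hv _ hz
      set y : Fin (n + 1) → ℝ := (cols v).mulVec x + fun j => (z j : ℝ) with hy
      have hdot : dotProduct (fun j => (u j : ℝ)) y = ((dotProduct u z : ℤ) : ℝ) := by
        rw [hy, dotProduct_add]
        have h1 : dotProduct (fun j => (u j : ℝ)) ((cols v).mulVec x) = 0 := by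
          rw [Matrix.dotProduct_mulVec]
          have h2 : Matrix.vecMul (fun j => (u j : ℝ)) (cols v) = 0 := by
            ext j
            have h3 : ((dotProduct u (v j) : ℤ) : ℝ) = 0 := by
              rw [mem_orth.1 (hv j), Int.cast_zero]
            rw [Pi.zero_apply, ← h3]
            simp [Matrix.vecMul, dotProduct, cols]
          rw [h2, zero_dotProduct]
        rw [h1, zero_add]
        simp [dotProduct]
      have hge : 1 ≤ (dotProduct (fun j => (u j : ℝ)) y) ^ 2 := by
        rw [hdot]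
        have h1 : dotProduct u z ≠ 0 := fun h => hz (mem_orth.2 h)
        have h2 : (1 : ℤ) ≤ (dotProduct u z) ^ 2 := by
          have := Int.one_le_abs h1
          nlinarith [abs_nonneg (dotProduct u z), sq_abs (dotProduct u z)]
        exact_mod_cast h2
      have hpair : dotProduct (fun j => (u j : ℝ)) y =
          dotProduct (B.mulVec fun j => (u j : ℝ)) (A.mulVec y) := by
        rw [Matrix.dotProduct_mulVec, hB, Matrix.mulVec_transpose, Matrix.vecMul_vecMul,
          Matrix.nonsing_inv_mul _ hAu, Matrix.vecMul_one]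
      have hcs : (dotProduct (B.mulVec fun j => (u j : ℝ)) (A.mulVec y)) ^ 2 ≤
          normSq B u * ∑ i, (A.mulVec y) i ^ 2 := by
        unfold normSq
        exact Finset.sum_mul_sq_le_sq_mul_sq _ _ _
      rw [← hpair] at hcs
      rw [div_le_iff₀ hu2]
      linarith)
  rw [pow_one, pow_one, vol2_top] at hstep
  have hg1 : gamma 1 ≤ 1 := by
    have := gamma_le (n := 1) Nat.one_pos
    simpa using this
  have hdet2 : 0 < A.det ^ 2 := by positivity
  have hvol : vol2 A (orth u) ≤ A.det ^ 2 * normSq B u := by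
    have h1 : 1 / normSq B u * vol2 A (orth u) ≤ A.det ^ 2 := by
      refine hstep.trans ?_
      nlinarith
    rw [div_mul_eq_mul_div, one_mul, div_le_iff₀ hu2] at h1
    exact h1
  have h1 := minSq_pow_le hA (orth u) hrk
  have hA0 : 0 < |A.det| := abs_pos.2 hA
  have hn1 : (0 : ℝ) < ((n + 1 : ℕ) : ℝ) := by exact_mod_cast Nat.succ_pos n
  have h2 : normSq B u ≤ gamma (n + 1) * |A.det| ^ (-((2 : ℝ) / ((n + 1 : ℕ) : ℝ))) := by
    have h3 := inv_le_gamma (Nat.succ_pos n) B hB0
    unfold inv at h3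
    rw [div_le_iff₀ (Real.rpow_pos_of_pos (abs_pos.2 hB0) _)] at h3
    rw [hu]
    refine h3.trans (le_of_eq ?_)
    rw [hdetB, abs_inv, Real.inv_rpow hA0.le, Real.rpow_neg hA0.le]
  have hG : 0 ≤ gamma n ^ n := pow_nonneg (gamma_nonneg _) _
  have h4 : minSq A ^ n ≤ gamma n ^ n * gamma (n + 1) *
      (A.det ^ 2 * |A.det| ^ (-((2 : ℝ) / ((n + 1 : ℕ) : ℝ)))) := by
    calc minSq A ^ n ≤ gamma n ^ n * vol2 A (orth u) := h1
      _ ≤ gamma n ^ n * (A.det ^ 2 * (gamma (n + 1) *
          |A.det| ^ (-((2 : ℝ) / ((n + 1 : ℕ) : ℝ))))) :=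
          mul_le_mul_of_nonneg_left (hvol.trans (mul_le_mul_of_nonneg_left h2 hdet2.le)) hG
      _ = _ := by ring
  unfold inv
  rw [div_pow, div_le_iff₀ (pow_pos (Real.rpow_pos_of_pos hA0 _) _)]
  refine h4.trans (le_of_eq ?_)
  congr 1
  rw [← Real.rpow_natCast (|A.det| ^ _) n, ← Real.rpow_mul hA0.le, ← sq_abs A.det,
    ← Real.rpow_natCast |A.det| 2, ← Real.rpow_add hA0]
  congr 1
  push_cast
  field_simp
  ring

/-- Mordell's inequality. -/
theorem mordell {n : ℕ} (hn : 0 < n) : gamma (n + 1) ^ n ≤ gamma n ^ n * gamma (n + 1) := by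
  have hR : 0 ≤ gamma n ^ n * gamma (n + 1) :=
    mul_nonneg (pow_nonneg (gamma_nonneg _) _) (gamma_nonneg _)
  have h1 : gamma (n + 1) ≤ (gamma n ^ n * gamma (n + 1)) ^ ((1 : ℝ) / n) := by
    have := nonempty_mat (n + 1)
    refine ciSup_le fun A => ?_
    have h2 := mordell_aux hn A.2
    have hn0 : (n : ℝ) ≠ 0 := by exact_mod_cast hn.ne'
    have h3 := Real.rpow_le_rpow (pow_nonneg (inv_nonneg A.1) n) h2
      (by positivity : (0 : ℝ) ≤ 1 / n)
    rwa [← Real.rpow_natCast, ← Real.rpow_mul (inv_nonneg A.1), mul_one_div_cancel hn0,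
      Real.rpow_one] at h3
  have hn0 : (n : ℝ) ≠ 0 := by exact_mod_cast hn.ne'
  have h2 := pow_le_pow_left₀ (gamma_nonneg (n + 1)) h1 n
  rwa [← Real.rpow_natCast (_ ^ _) n, ← Real.rpow_mul hR, one_div_mul_cancel hn0,
    Real.rpow_one] at h2

end Pool.Agent.Lib.MP_ef2672_gt_Chain
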