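import Pool.Agent.Lib.MP_ef2672_gt_Chain.Restrict
import Pool.Agent.Lib.MP_ef2672_gt_Chain.VolGen

/-!
Asymptotics of Hermite's constant restricted to lattices with many isometries.
-/

namespace Pool.Agent.Lib.MP_ef2672_gt_Chain

open Pool.Agent.Lib.MP_ef2672_gt_Tauber Pool.Agent.Lib.MP_ef2672_gt_Sym Filter Topology

lemma gamma_pos {n : ℕ} (hn : 0 < n) : 0 < gamma n :=
  lt_of_lt_of_le (by have : (0 : ℝ) < n := by exact_mod_cast hn
                     positivity) (gamma_ge hn)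

lemma log_gamma_le {n : ℕ} (hn : 0 < n) : Real.log (gamma n) ≤ Real.log n :=
  Real.log_le_log (gamma_pos hn) (gamma_le hn)

/-- Mordell's inequality in logarithmic form. -/
lemma log_gamma_succ {n : ℕ} (hn : 2 ≤ n) :
    Real.log (gamma (n + 1)) ≤ Real.log (gamma n) + Real.log n / ((n : ℝ) - 1) := by
  have hn0 : 0 < n := by omega
  have h := mordell hn0
  have g1 := gamma_pos hn0
  have g2 := gamma_pos (Nat.succ_pos n)
  have h1 := Real.log_le_log (pow_pos g2 n) h
  rw [Real.log_pow, Real.log_mul (pow_pos g1 n).ne' g2.ne', Real.log_pow] at h1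
  have hn2 : (2 : ℝ) ≤ n := by exact_mod_cast hn
  have h3 := log_gamma_le hn0
  have h4 : ((n : ℝ) - 1) * (Real.log (gamma (n + 1)) - Real.log (gamma n)) ≤ Real.log n := by
    have e : ((n : ℝ) - 1) * (Real.log (gamma (n + 1)) - Real.log (gamma n)) =
        (n * Real.log (gamma (n + 1)) - Real.log (gamma (n + 1)) - n * Real.log (gamma n)) +
        Real.log (gamma n) := by ring
    rw [e]
    linarith
  have h5 : Real.log (gamma (n + 1)) - Real.log (gamma n) ≤ Real.log n / ((n : ℝ) - 1) := by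
    rw [le_div_iff₀ (by linarith)]
    linarith
  linarith

lemma log_gamma_add {m : ℕ} (hm : 2 ≤ m) (s : ℕ) :
    Real.log (gamma (m + s)) ≤
      Real.log (gamma m) + s * (Real.log ((m + s : ℕ) : ℝ) / ((m : ℝ) - 1)) := by
  have hm2 : (2 : ℝ) ≤ m := by exact_mod_cast hm
  induction s with
  | zero => simp
  | succ s ih =>
    have h1 := log_gamma_succ (n := m + s) (by omega)
    have h2 : Real.log ((m + s : ℕ) : ℝ) ≤ Real.log ((m + (s + 1) : ℕ) : ℝ) := by
      refine Real.log_le_log (by exact_mod_cast (by omega : 0 < m + s)) ?_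
      exact_mod_cast (by omega : m + s ≤ m + (s + 1))
    have h0 : 0 ≤ Real.log ((m + s : ℕ) : ℝ) := by
      refine Real.log_nonneg ?_
      exact_mod_cast (by omega : 1 ≤ m + s)
    have h3 : Real.log ((m + s : ℕ) : ℝ) / (((m + s : ℕ) : ℝ) - 1) ≤
        Real.log ((m + (s + 1) : ℕ) : ℝ) / ((m : ℝ) - 1) := by
      refine div_le_div₀ (h0.trans h2) h2 (by linarith) ?_
      push_cast
      have : (0 : ℝ) ≤ s := Nat.cast_nonneg s
      linarith
    have h4 : (s : ℝ) * (Real.log ((m + s : ℕ) : ℝ) / ((m : ℝ) - 1)) ≤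
        s * (Real.log ((m + (s + 1) : ℕ) : ℝ) / ((m : ℝ) - 1)) := by
      refine mul_le_mul_of_nonneg_left ?_ (Nat.cast_nonneg s)
      exact div_le_div_of_nonneg_right h2 (by linarith)
    rw [← add_assoc] at h3 h4 ⊢
    push_cast at h1 h3 h4 ih ⊢
    linarith

/-- Powers of Hermite's constant in slightly smaller dimension. -/
lemma power_lower {n m s : ℕ} (hnm : n = s + m) {η : ℝ} (hη : 0 < η) (hη' : η ≤ 1 / 8)
    (hs : (s : ℝ) * Real.log n ≤ η * n) (hlog : 2 ≤ Real.log n) (hn : 16 ≤ n) :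
    gamma n * Real.exp (-(3 * η)) ≤ gamma m ^ ((m : ℝ) / n) := by
  have hn16 : (16 : ℝ) ≤ n := by exact_mod_cast hn
  have hsn : (s : ℝ) ≤ n / 16 := by
    have h1 : (s : ℝ) * 2 ≤ η * n :=
      (mul_le_mul_of_nonneg_left hlog (Nat.cast_nonneg s)).trans hs
    nlinarith
  have hmn : (n : ℝ) = s + m := by exact_mod_cast hnm
  have hm' : (n : ℝ) * (15 / 16) ≤ m := by linarith
  have hm2 : 2 ≤ m := by
    have : (2 : ℝ) ≤ m := by linarith
    exact_mod_cast this
  have hm0 : 0 < m := by omega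
  have hn0 : (0 : ℝ) < n := by linarith
  have g1 := gamma_pos hm0
  have g2 := gamma_pos (by omega : 0 < n)
  have h1 := log_gamma_add hm2 s
  have e : m + s = n := by omega
  rw [e] at h1
  rw [← Real.log_le_log_iff (by positivity) (Real.rpow_pos_of_pos g1 _),
    Real.log_mul g2.ne' (Real.exp_pos _).ne', Real.log_exp, Real.log_rpow g1]
  have h2 : (s : ℝ) * (Real.log n / ((m : ℝ) - 1)) ≤ 2 * η := by
    rw [mul_div_assoc', div_le_iff₀ (by linarith)]
    nlinarith
  have h3 : Real.log (gamma m) ≤ Real.log n := by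
    refine (log_gamma_le hm0).trans (Real.log_le_log (by exact_mod_cast hm0) ?_)
    linarith [Nat.cast_nonneg (α := ℝ) s]
  have h4 : (s : ℝ) / n * Real.log (gamma m) ≤ η := by
    rw [div_mul_eq_mul_div, div_le_iff₀ hn0]
    exact (mul_le_mul_of_nonneg_left h3 (Nat.cast_nonneg s)).trans hs
  have h5 : (m : ℝ) / n * Real.log (gamma m) =
      Real.log (gamma m) - (s : ℝ) / n * Real.log (gamma m) := by
    have : (m : ℝ) / n = 1 - (s : ℝ) / n := by
      field_simp
      linarith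
    rw [this]
    ring
  rw [h5]
  linarith

lemma bdd_of {n : ℕ} (hn : 0 < n) (P : Matrix (Fin n) (Fin n) ℝ → Prop) :
    BddAbove (Set.range fun A : {A : Matrix (Fin n) (Fin n) ℝ // A.det ≠ 0 ∧ P A} => inv A.1) :=
  ⟨gamma n, by rintro _ ⟨A, rfl⟩; exact inv_le_gamma hn A.1 A.2.1⟩

lemma gammaSym_nonneg (N n : ℕ) : 0 ≤ gammaSym N n := Real.iSup_nonneg fun A => inv_nonneg A.1

lemma gammaInv_nonneg (r n : ℕ) : 0 ≤ gammaInv r n := Real.iSup_nonneg fun A => inv_nonneg A.1

lemma gammaSym_le {N n : ℕ} (hn : 0 < n) {b : ℝ} (hb : 0 ≤ b)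
    (h : ∀ A : Matrix (Fin n) (Fin n) ℝ, A.det ≠ 0 → N ≤ isoCount A → inv A ≤ b) :
    gammaSym N n ≤ b := Real.iSup_le (fun A => h A.1 A.2.1 A.2.2) hb

lemma gammaInv_le {r n : ℕ} (hn : 0 < n) {b : ℝ} (hb : 0 ≤ b)
    (h : ∀ A : Matrix (Fin n) (Fin n) ℝ, A.det ≠ 0 → HasInvolutions r A → inv A ≤ b) :
    gammaInv r n ≤ b := Real.iSup_le (fun A => h A.1 A.2.1 A.2.2) hb

/-- A restricted constant which is at least a power of Hermite's constant in slightly smaller
dimension is asymptotic to Hermite's constant. -/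
lemma ratio_limit (f : ℕ → ℝ) (s : ℕ → ℕ) (hs : ∀ᶠ n in atTop, s n ≤ n)
    (hlim : Tendsto (fun n : ℕ => (s n : ℝ) * Real.log n / n) atTop (𝓝 0))
    (hle : ∀ᶠ n in atTop, f n ≤ gamma n)
    (hge : ∀ᶠ n in atTop, s n < n → gamma (n - s n) ^ (((n - s n : ℕ) : ℝ) / n) ≤ f n) :
    Tendsto (fun n => f n / gamma n) atTop (𝓝 1) := by
  rw [Metric.tendsto_atTop']
  intro ε hε
  set η := min (1 / 8) (ε / 6) with hη
  have hη0 : 0 < η := lt_min (by norm_num) (by positivity)
  have hη1 : η ≤ 1 / 8 := min_le_left _ _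
  have hη2 : η ≤ ε / 6 := min_le_right _ _
  have h1 : ∀ᶠ n : ℕ in atTop, (s n : ℝ) * Real.log n / n < η :=
    hlim.eventually_lt_const hη0
  have h2 : ∀ᶠ n : ℕ in atTop, 2 ≤ Real.log n :=
    (Real.tendsto_log_atTop.comp tendsto_natCast_atTop_atTop).eventually_ge_atTop 2
  have h3 : ∀ᶠ n : ℕ in atTop, dist (f n / gamma n) 1 < ε := by
    filter_upwards [h1, h2, hs, hle, hge, eventually_ge_atTop 16] with n h1 h2 hs hle hge h16
    have hn0 : (0 : ℝ) < n := by exact_mod_cast (by omega : 0 < n)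
    have hg := gamma_pos (by omega : 0 < n)
    have hs1 : (s n : ℝ) * Real.log n ≤ η * n := by
      rw [div_lt_iff₀ hn0] at h1
      exact h1.le
    have hslt : s n < n := by
      have h4 : (s n : ℝ) * 2 ≤ η * n :=
        (mul_le_mul_of_nonneg_left h2 (Nat.cast_nonneg _)).trans hs1
      have h5 : (s n : ℝ) < n := by nlinarith
      exact_mod_cast h5
    have h4 := (power_lower (n := n) (m := n - s n) (s := s n) (by omega) hη0 hη1 hs1 h2
      h16).trans (hge hslt)
    have h5 : Real.exp (-(3 * η)) ≤ f n / gamma n := by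
      rw [le_div_iff₀ hg, mul_comm]
      exact h4
    have h6 : f n / gamma n ≤ 1 := (div_le_one hg).2 hle
    have h7 : 1 - 3 * η ≤ Real.exp (-(3 * η)) := by
      have := Real.add_one_le_exp (-(3 * η))
      linarith
    rw [Real.dist_eq, abs_sub_comm, abs_of_nonneg (by linarith)]
    linarith
  obtain ⟨N, hN⟩ := eventually_atTop.1 h3
  exact ⟨N, fun n hn => hN n hn.le⟩

end Pool.Agent.Lib.MP_ef2672_gt_Chain
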