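import Pool.Agent.Lib.MP_ef2672_gt_Chain.Ineq

/-!
The inequality for chains of lattices of fixed vectors.
-/

namespace Pool.Agent.Lib.MP_ef2672_gt_Chain

open Pool.Agent.Lib.MP_ef2672_gt_Tauber Pool.Agent.Lib.MP_ef2672_gt_Sym

/-- The rank of the lattice of the integer vectors fixed by all matrices in `S`. -/
noncomputable def fixRank {n : ℕ} (S : Set (Matrix (Fin n) (Fin n) ℤ)) : ℕ :=
  Module.finrank ℤ (fixedLattice S)

lemma fixedLattice_empty {n : ℕ} :
    fixedLattice (∅ : Set (Matrix (Fin n) (Fin n) ℤ)) = ⊤ := by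
  rw [eq_top_iff]
  intro x _ U hU
  exact absurd hU (Set.notMem_empty U)

lemma fixRank_empty {n : ℕ} : fixRank (∅ : Set (Matrix (Fin n) (Fin n) ℤ)) = n := by
  unfold fixRank
  rw [fixedLattice_empty, finrank_top, Module.finrank_fin_fun]

lemma fixedLattice_anti {n : ℕ} {S T : Set (Matrix (Fin n) (Fin n) ℤ)} (h : S ⊆ T) :
    fixedLattice T ≤ fixedLattice S := fun _ hx U hU => hx U (h hU)

lemma fixRank_anti {n : ℕ} {S T : Set (Matrix (Fin n) (Fin n) ℤ)} (h : S ⊆ T) :
    fixRank T ≤ fixRank S := Submodule.finrank_mono (fixedLattice_anti h)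

lemma fixRank_le {n : ℕ} (S : Set (Matrix (Fin n) (Fin n) ℤ)) : fixRank S ≤ n := by
  have := fixRank_anti (Set.empty_subset S)
  rwa [fixRank_empty] at this

/-- Hermite's inequality for a sublattice. -/
lemma minSq_pow_le {n : ℕ} {A : Matrix (Fin n) (Fin n) ℝ} (hA : A.det ≠ 0)
    (M : Submodule ℤ (Fin n → ℤ)) {k : ℕ} (hk : Module.finrank ℤ M = k) :
    minSq A ^ k ≤ gamma k ^ k * vol2 A M := by
  subst hk
  set v : Fin (Module.finrank ℤ M) → Fin n → ℤ := fun i => ((Module.finBasis ℤ M) i : Fin n → ℤ)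
    with hv
  have hli : LinearIndependent ℤ v :=
    (Module.finBasis ℤ M).linearIndependent.map' M.subtype (Submodule.ker_subtype M)
  refine gram_le_fin (gram A v) (gram_posSemidef A v) (vol2_pos hA M).ne' (minSq_nonneg A) ?_
  intro w hw
  rw [gram_quad]
  have h1 : (cols v).mulVec (fun j => (w j : ℝ)) = fun i => ((∑ j, w j • v j) i : ℝ) := by
    ext i
    simp only [Matrix.mulVec, dotProduct, cols, Matrix.of_apply, Finset.sum_apply, Pi.smul_apply,
      smul_eq_mul]
    push_cast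
    exact Finset.sum_congr rfl fun j _ => mul_comm _ _
  rw [h1]
  refine minSq_le A _ fun h0 => hw ?_
  ext j
  exact Fintype.linearIndependent_iff.1 hli w h0 j

/-- One step of a chain. -/
lemma chain_step {n : ℕ} {A : Matrix (Fin n) (Fin n) ℝ} (hA : A.det ≠ 0)
    {S T : Set (Matrix (Fin n) (Fin n) ℤ)} (hST : S ⊆ T) (hT : ∀ U ∈ T, IsIsometry A U) :
    (minSq A / 4) ^ (fixRank S - fixRank T) * vol2 A (fixedLattice T) ≤
      gamma (fixRank S - fixRank T) ^ (fixRank S - fixRank T) * vol2 A (fixedLattice S) := by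
  refine vol2_step hA (fixedLattice S) hT ?_ ?_
  · exact le_antisymm (le_inf (fixedLattice_anti hST) le_rfl) inf_le_right
  · have := fixRank_anti hST
    unfold fixRank at this ⊢
    omega

lemma chain_vol {n : ℕ} {A : Matrix (Fin n) (Fin n) ℝ} (hA : A.det ≠ 0)
    {S : ℕ → Set (Matrix (Fin n) (Fin n) ℤ)} (hS : ∀ i, S i ⊆ S (i + 1))
    (hiso : ∀ i, ∀ U ∈ S i, IsIsometry A U) (r : ℕ) :
    (minSq A / 4) ^ (fixRank (S 0) - fixRank (S r)) * vol2 A (fixedLattice (S r)) ≤
      (∏ i ∈ Finset.range r, gamma (fixRank (S i) - fixRank (S (i + 1))) ^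
        (fixRank (S i) - fixRank (S (i + 1)))) * vol2 A (fixedLattice (S 0)) := by
  have hm : 0 ≤ minSq A / 4 := by have := minSq_nonneg A; positivity
  induction r with
  | zero => simp
  | succ r ih =>
    have h1 := chain_step hA (hS r) (hiso (r + 1))
    have h2 := fixRank_anti (hS r)
    have h3 : fixRank (S r) ≤ fixRank (S 0) := by
      clear ih h1 h2
      induction r with
      | zero => exact le_rfl
      | succ r ih => exact (fixRank_anti (hS r)).trans ih
    set a := fixRank (S 0) with ha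
    set b := fixRank (S r) with hb
    set c := fixRank (S (r + 1)) with hc
    have h4 : a - c = (a - b) + (b - c) := by omega
    rw [h4, pow_add, Finset.prod_range_succ]
    have h5 : 0 ≤ gamma (b - c) ^ (b - c) := pow_nonneg (gamma_nonneg _) _
    calc (minSq A / 4) ^ (a - b) * (minSq A / 4) ^ (b - c) * vol2 A (fixedLattice (S (r + 1)))
        = (minSq A / 4) ^ (a - b) *
          ((minSq A / 4) ^ (b - c) * vol2 A (fixedLattice (S (r + 1)))) := by ring
      _ ≤ (minSq A / 4) ^ (a - b) *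
          (gamma (b - c) ^ (b - c) * vol2 A (fixedLattice (S r))) :=
          mul_le_mul_of_nonneg_left h1 (pow_nonneg hm _)
      _ = gamma (b - c) ^ (b - c) *
          ((minSq A / 4) ^ (a - b) * vol2 A (fixedLattice (S r))) := by ring
      _ ≤ gamma (b - c) ^ (b - c) * ((∏ i ∈ Finset.range r,
            gamma (fixRank (S i) - fixRank (S (i + 1))) ^
            (fixRank (S i) - fixRank (S (i + 1)))) * vol2 A (fixedLattice (S 0))) :=
          mul_le_mul_of_nonneg_left ih h5
      _ = _ := by ring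

/-- The chain inequality. -/
theorem chain_le {n : ℕ} (hn : 0 < n) {A : Matrix (Fin n) (Fin n) ℝ} (hA : A.det ≠ 0)
    {S : ℕ → Set (Matrix (Fin n) (Fin n) ℤ)} (hS : ∀ i, S i ⊆ S (i + 1)) (h0 : S 0 = ∅)
    (hiso : ∀ i, ∀ U ∈ S i, IsIsometry A U) (r : ℕ) :
    inv A ^ n ≤ 4 ^ (n - fixRank (S r)) *
      ((∏ i ∈ Finset.range r, gamma (fixRank (S i) - fixRank (S (i + 1))) ^
        (fixRank (S i) - fixRank (S (i + 1)))) * gamma (fixRank (S r)) ^ fixRank (S r)) := by
  have h1 := chain_vol hA hS hiso r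
  have h2 := minSq_pow_le hA (fixedLattice (S r)) (k := fixRank (S r)) rfl
  have h3 : vol2 A (fixedLattice (S 0)) = A.det ^ 2 := by
    rw [h0, fixedLattice_empty, vol2_top]
  have h4 : fixRank (S 0) = n := by rw [h0, fixRank_empty]
  rw [h3, h4, div_pow] at h1
  have h5 := fixRank_le (S r)
  set k := fixRank (S r) with hk
  set Q := ∏ i ∈ Finset.range r, gamma (fixRank (S i) - fixRank (S (i + 1))) ^
        (fixRank (S i) - fixRank (S (i + 1))) with hQ
  have hQ0 : 0 ≤ Q := Finset.prod_nonneg fun i _ => pow_nonneg (gamma_nonneg _) _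
  have hv : 0 < vol2 A (fixedLattice (S r)) := vol2_pos hA _
  have hm := minSq_nonneg A
  have h4pos : (0 : ℝ) < 4 ^ (n - k) := by positivity
  have h6 : minSq A ^ (n - k) * vol2 A (fixedLattice (S r)) ≤ 4 ^ (n - k) * (Q * A.det ^ 2) := by
    rw [div_mul_eq_mul_div, div_le_iff₀ h4pos] at h1
    linarith
  have h7 : minSq A ^ n ≤ 4 ^ (n - k) * (Q * gamma k ^ k) * A.det ^ 2 := by
    have h8 : minSq A ^ n = minSq A ^ (n - k) * minSq A ^ k := by
      rw [← pow_add]; congr 1; omega
    rw [h8]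
    calc minSq A ^ (n - k) * minSq A ^ k
        ≤ minSq A ^ (n - k) * (gamma k ^ k * vol2 A (fixedLattice (S r))) :=
          mul_le_mul_of_nonneg_left h2 (pow_nonneg hm _)
      _ = gamma k ^ k * (minSq A ^ (n - k) * vol2 A (fixedLattice (S r))) := by ring
      _ ≤ gamma k ^ k * (4 ^ (n - k) * (Q * A.det ^ 2)) :=
          mul_le_mul_of_nonneg_left h6 (pow_nonneg (gamma_nonneg _) _)
      _ = _ := by ring
  have hA0 : 0 < |A.det| := abs_pos.2 hA
  have hn0 : (n : ℝ) ≠ 0 := by exact_mod_cast hn.ne'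
  unfold inv
  rw [div_pow]
  have hden : (|A.det| ^ ((2 : ℝ) / n)) ^ n = A.det ^ 2 := by
    rw [← Real.rpow_natCast, ← Real.rpow_mul hA0.le, ← sq_abs A.det, ← Real.rpow_natCast]
    congr 1
    push_cast
    field_simp
  rw [hden, div_le_iff₀ (by positivity)]
  exact h7

end Pool.Agent.Lib.MP_ef2672_gt_Chain
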