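import Pool.Agent.Lib.MP_ef2672_gt_Chain.Limits
import Pool.Agent.Lib.MP_ef2672_gt_Chain.Abelian

/-!
Limits of Hermite's constant restricted to lattices with many commuting isometries.
-/

namespace Pool.Agent.Lib.MP_ef2672_gt_Chain

open Pool.Agent.Lib.MP_ef2672_gt_Tauber Pool.Agent.Lib.MP_ef2672_gt_Sym Filter Topology

lemma gammaComm_nonneg (N n : ℕ) : 0 ≤ gammaComm N n := Real.iSup_nonneg fun A => inv_nonneg A.1

lemma gammaComm_le {N n : ℕ} {b : ℝ} (hb : 0 ≤ b)
    (h : ∀ A : Matrix (Fin n) (Fin n) ℝ, A.det ≠ 0 → HasCommuting N A → inv A ≤ b) :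
    gammaComm N n ≤ b := Real.iSup_le (fun A => h A.1 A.2.1 A.2.2) hb

lemma gammaInv_le_gammaComm {N r n : ℕ} (hn : 0 < n) (h : N ≤ 2 ^ r) :
    gammaInv r n ≤ gammaComm N n := by
  refine gammaInv_le hn (gammaComm_nonneg _ _) fun A hA hr => ?_
  obtain ⟨S, hS1, hS2, hS3⟩ := hr
  exact le_ciSup (bdd_of hn (HasCommuting N))
    ⟨A, hA, S, h.trans hS1, fun U hU => (hS2 U hU).1, hS3⟩

lemma clog_le (N : ℕ) : (Nat.clog 2 N : ℝ) ≤ 2 * Real.log N + 1 := by
  by_cases hN : N ≤ 1
  · have h0 : Nat.clog 2 N = 0 := Nat.clog_of_right_le_one hN 2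
    rw [h0]
    have : 0 ≤ Real.log N := Real.log_natCast_nonneg N
    push_cast
    linarith
  · push Not at hN
    have h1 : 2 ^ (Nat.clog 2 N).pred < N := Nat.pow_pred_clog_lt_self (by norm_num) hN
    have hpos : 0 < Nat.clog 2 N := Nat.clog_pos (by norm_num) hN
    obtain ⟨k, hk⟩ := Nat.exists_eq_succ_of_ne_zero hpos.ne'
    rw [hk] at h1 ⊢
    rw [Nat.pred_succ] at h1
    have h2 : (2 : ℝ) ^ k ≤ N := by exact_mod_cast h1.le
    have h3 := Real.log_le_log (by positivity) h2
    rw [Real.log_pow] at h3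
    have h4 : (1 : ℝ) / 2 ≤ Real.log 2 := by
      have := Real.log_two_gt_d9
      linarith
    push_cast
    nlinarith [Nat.cast_nonneg (α := ℝ) k]

theorem comm_limit (hlow : LowerInv) (N : ℕ → ℕ)
    (h : Tendsto (fun n : ℕ => Real.log (N n) * Real.log n / n) atTop (𝓝 0)) :
    Tendsto (fun n => gammaComm (N n) n / gamma n) atTop (𝓝 1) := by
  have hlogn : Tendsto (fun n : ℕ => Real.log n / n) atTop (𝓝 0) := by
    have h4 := (isLittleO_log_rpow_atTop (r := 1) (by norm_num)).tendsto_div_nhds_zero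
    have h5 := h4.comp tendsto_natCast_atTop_atTop
    refine h5.congr fun n => ?_
    show Real.log n / (n : ℝ) ^ (1 : ℝ) = _
    rw [Real.rpow_one]
  have hlim : Tendsto (fun n : ℕ => (Nat.clog 2 (N n) : ℝ) * Real.log n / n) atTop (𝓝 0) := by
    have h1 : Tendsto (fun n : ℕ => 2 * (Real.log (N n) * Real.log n / n) + Real.log n / n)
        atTop (𝓝 0) := by
      have := (h.const_mul 2).add hlogn
      simpa using this
    refine tendsto_of_tendsto_of_tendsto_of_le_of_le' tendsto_const_nhds h1 ?_ ?_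
    · exact Eventually.of_forall fun n => div_nonneg
        (mul_nonneg (Nat.cast_nonneg _) (Real.log_natCast_nonneg n)) (Nat.cast_nonneg n)
    · filter_upwards [eventually_gt_atTop 0] with n hn
      have hn0 : (0 : ℝ) < n := by exact_mod_cast hn
      have h2 := mul_le_mul_of_nonneg_right (clog_le (N n)) (Real.log_natCast_nonneg n)
      have h3 := div_le_div_of_nonneg_right h2 hn0.le
      refine h3.trans (le_of_eq ?_)
      ring
  have hsn : ∀ᶠ n : ℕ in atTop, Nat.clog 2 (N n) ≤ n := by
    have h1 : ∀ᶠ n : ℕ in atTop, (Nat.clog 2 (N n) : ℝ) * Real.log n / n < 1 :=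
      hlim.eventually_lt_const one_pos
    have h2 : ∀ᶠ n : ℕ in atTop, 2 ≤ Real.log n :=
      (Real.tendsto_log_atTop.comp tendsto_natCast_atTop_atTop).eventually_ge_atTop 2
    filter_upwards [h1, h2, eventually_gt_atTop 0] with n h1 h2 hn
    have hn0 : (0 : ℝ) < n := by exact_mod_cast hn
    rw [div_lt_one hn0] at h1
    have h3 : (Nat.clog 2 (N n) : ℝ) * 2 ≤ Nat.clog 2 (N n) * Real.log n :=
      mul_le_mul_of_nonneg_left h2 (Nat.cast_nonneg _)
    have h4 : (Nat.clog 2 (N n) : ℝ) ≤ n := by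
      have := Nat.cast_nonneg (α := ℝ) (Nat.clog 2 (N n))
      linarith
    exact_mod_cast h4
  refine ratio_limit (fun n => gammaComm (N n) n) (fun n => Nat.clog 2 (N n)) hsn hlim ?_ ?_
  · filter_upwards [eventually_gt_atTop 0] with n hn
    exact gammaComm_le (gamma_nonneg n) fun A hA _ => inv_le_gamma hn A hA
  · filter_upwards [eventually_gt_atTop 0] with n hn hlt
    have h1 := hlow (Nat.clog 2 (N n)) (n - Nat.clog 2 (N n)) (by omega)
    have e : Nat.clog 2 (N n) + (n - Nat.clog 2 (N n)) = n := by omega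
    rw [e] at h1
    exact h1.trans (gammaInv_le_gammaComm hn (Nat.le_pow_clog (by norm_num) _))

/-- Lattices with more than `exp(n / log n)` commuting isometries have small Hermite invariant. -/
theorem comm_zero (N : ℕ → ℕ)
    (h : Tendsto (fun n : ℕ => Real.log (N n) * Real.log n / n) atTop atTop) :
    Tendsto (fun n : ℕ => gammaComm (N n) n / n) atTop (𝓝 0) := by
  obtain ⟨C, hC, hmain⟩ := abelian_bound
  set t : ℕ → ℝ := fun n => Real.log (N n) * Real.log n / n with ht
  have hup : ∀ᶠ n : ℕ in atTop, gammaComm (N n) n / n ≤ 4 * Real.exp (-(t n / C)) := by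
    filter_upwards [h.eventually_gt_atTop 0, eventually_ge_atTop 3] with n htn hn3
    have hn : 0 < n := by omega
    have hn0 : (0 : ℝ) < n := by exact_mod_cast hn
    have hn3' : (3 : ℝ) ≤ n := by exact_mod_cast hn3
    have hlogn : 1 < Real.log n := by
      rw [Real.lt_log_iff_exp_lt hn0]
      have := Real.exp_one_lt_d9
      linarith
    rw [div_le_iff₀ hn0]
    refine gammaComm_le (by positivity) fun A hA hN => ?_
    obtain ⟨S, hS1, hS2, hS3⟩ := hN
    have hi := inv_pos hn hA
    have h1 := hmain n A S (by omega) hA hS2 hS3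
    have hNpos : 0 < N n := by
      rcases Nat.eq_zero_or_pos (N n) with h0 | h0
      · have htn' : 0 < Real.log (N n) * Real.log n / n := htn
        rw [h0] at htn'
        simp at htn'
      · exact h0
    have h2 : Real.log (N n) ≤ C * n * Real.log (4 * n / inv A) / Real.log n := by
      rw [Real.log_le_iff_le_exp (by exact_mod_cast hNpos)]
      refine le_trans ?_ h1
      exact_mod_cast hS1
    have h3 : t n / C ≤ Real.log (4 * n / inv A) := by
      rw [div_le_iff₀ hC]
      show Real.log (N n) * Real.log n / n ≤ _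
      rw [div_le_iff₀ hn0]
      rw [le_div_iff₀ (by linarith)] at h2
      linarith
    have h4 : Real.exp (t n / C) ≤ 4 * n / inv A := by
      rw [← Real.le_log_iff_exp_le (by positivity)]
      exact h3
    rw [le_div_iff₀ hi] at h4
    rw [Real.exp_neg]
    have he := Real.exp_pos (t n / C)
    rw [show 4 * (Real.exp (t n / C))⁻¹ * (n : ℝ) = 4 * n / Real.exp (t n / C) by
      field_simp, le_div_iff₀ he]
    linarith
  have hlim : Tendsto (fun n : ℕ => 4 * Real.exp (-(t n / C))) atTop (𝓝 0) := by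
    have h1 : Tendsto (fun n => t n / C) atTop atTop := h.atTop_div_const hC
    have h2 := (Real.tendsto_exp_neg_atTop_nhds_zero.comp h1).const_mul 4
    simpa using h2
  refine tendsto_of_tendsto_of_tendsto_of_le_of_le' tendsto_const_nhds hlim ?_ hup
  exact Eventually.of_forall fun n => div_nonneg (gammaComm_nonneg _ _) (Nat.cast_nonneg n)

end Pool.Agent.Lib.MP_ef2672_gt_Chain
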