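import Pool.Agent.Lib.MP_ef2672_gt_Chain.Order

/-!
The isometries which move few dimensions act trivially on a common sublattice of small corank.
-/

namespace Pool.Agent.Lib.MP_ef2672_gt_Chain

open Pool.Agent.Lib.MP_ef2672_gt_Tauber Pool.Agent.Lib.MP_ef2672_gt_Sym

lemma fixRank_singleton {n : ℕ} (U : Matrix (Fin n) (Fin n) ℤ) :
    fixRank {U} + (U - 1).rank = n := by
  have h1 := fixedRank_eq U
  have h2 : LinearMap.ker (Matrix.toLin' U - 1) = fixedLattice {U} := by
    ext x
    rw [LinearMap.mem_ker, mem_fixedLattice, LinearMap.sub_apply, Module.End.one_apply,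
      sub_eq_zero]
    simp
  rw [h2] at h1
  have h3 : (U - 1).rank ≤ n := by
    have := Matrix.rank_le_card_width (U - 1)
    rwa [Fintype.card_fin] at this
  unfold fixRank
  rw [h1]
  unfold fixedRank
  omega

lemma finrank_sub_le {n : ℕ} (M N : Submodule ℤ (Fin n → ℤ)) :
    Module.finrank ℤ M ≤ Module.finrank ℤ (M ⊓ N : Submodule ℤ (Fin n → ℤ)) +
      (n - Module.finrank ℤ N) := by
  let f : M →ₗ[ℤ] ((Fin n → ℤ) ⧸ N) := N.mkQ ∘ₗ M.subtype
  have h1 := Submodule.finrank_quotient_add_finrank (LinearMap.ker f)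
  rw [f.quotKerEquivRange.finrank_eq] at h1
  have h2 : Module.finrank ℤ (LinearMap.range f) ≤ Module.finrank ℤ ((Fin n → ℤ) ⧸ N) :=
    Submodule.finrank_le _
  have h3 := Submodule.finrank_quotient_add_finrank N
  rw [Module.finrank_fin_fun] at h3
  have h4 : LinearMap.ker f = (M ⊓ N).comap M.subtype := by
    ext x
    rw [LinearMap.mem_ker, Submodule.mem_comap, Submodule.mem_inf]
    constructor
    · intro h
      exact ⟨x.2, (Submodule.Quotient.mk_eq_zero N).1 h⟩
    · intro h
      exact (Submodule.Quotient.mk_eq_zero N).2 h.2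
  have h5 : Module.finrank ℤ (LinearMap.ker f) =
      Module.finrank ℤ (M ⊓ N : Submodule ℤ (Fin n → ℤ)) := by
    rw [h4]
    exact (Submodule.comapSubtypeEquivOfLe inf_le_left).finrank_eq
  omega

lemma fixRank_insert {n : ℕ} (U : Matrix (Fin n) (Fin n) ℤ)
    (S : Set (Matrix (Fin n) (Fin n) ℤ)) :
    fixRank S ≤ fixRank (insert U S) + (U - 1).rank := by
  have h1 := finrank_sub_le (fixedLattice S) (fixedLattice {U})
  have h2 : fixedLattice (insert U S) = fixedLattice S ⊓ fixedLattice {U} := by
    ext x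
    rw [Submodule.mem_inf, mem_fixedLattice, mem_fixedLattice, mem_fixedLattice]
    simp [and_comm]
  have h3 := fixRank_singleton U
  unfold fixRank at h3 ⊢
  rw [h2]
  omega

/-- A finite set of isometries which move at most `D` dimensions each. -/
lemma reach_small {n : ℕ} {A : Matrix (Fin n) (Fin n) ℝ} (hA : A.det ≠ 0) (D : ℕ)
    (T : Finset (Matrix (Fin n) (Fin n) ℤ)) (hT : ∀ U ∈ T, IsIsometry A U ∧ (U - 1).rank ≤ D) :
    ∃ L : List ℕ, Reach A (T : Set (Matrix (Fin n) (Fin n) ℤ)) L ∧ ∀ d ∈ L, d ≤ D := by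
  classical
  induction T using Finset.induction_on with
  | empty => exact ⟨[], reach_base A (by simp), by simp⟩
  | insert U T hU ih =>
    obtain ⟨L, hL, hLD⟩ := ih fun V hV => hT V (Finset.mem_insert_of_mem hV)
    have hsub : (T : Set (Matrix (Fin n) (Fin n) ℤ)) ⊆ (insert U T : Finset _) := by
      rw [Finset.coe_insert]; exact Set.subset_insert _ _
    refine ⟨_, reach_cons hA hL hsub ?_, ?_⟩
    · intro V hV
      exact (hT V hV).1
    · intro d hd
      rcases List.mem_cons.1 hd with h1 | h1
      · rw [h1, Finset.coe_insert]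
        have h2 := fixRank_insert U (T : Set (Matrix (Fin n) (Fin n) ℤ))
        have h3 := (hT U (Finset.mem_insert_self U T)).2
        omega
      · exact hLD d h1

/-- All isometries which move at most `D` dimensions act trivially on a common sublattice of
corank at most `n log(4n/γ) / log(n/D)`. -/
theorem concentration {n D : ℕ} (hD : 0 < D) (hDn : D < n) {A : Matrix (Fin n) (Fin n) ℝ}
    (hA : A.det ≠ 0) :
    ((n : ℝ) - fixRank {U : Matrix (Fin n) (Fin n) ℤ | IsIsometry A U ∧ (U - 1).rank ≤ D}) *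
      Real.log (n / D) ≤ n * Real.log (4 * n / inv A) := by
  classical
  have hn : 0 < n := by omega
  have hfin : {U : Matrix (Fin n) (Fin n) ℤ | IsIsometry A U ∧ (U - 1).rank ≤ D}.Finite :=
    (finite_iso hA).subset fun U hU => hU.1
  obtain ⟨L, hL, hLD⟩ := reach_small hA D hfin.toFinset (by simp)
  rw [Set.Finite.coe_toFinset] at hL
  have h1 := reach_entropy hn hA hL
  refine le_trans ?_ h1
  have h2 : ((n : ℝ) - fixRank {U : Matrix (Fin n) (Fin n) ℤ |
      IsIsometry A U ∧ (U - 1).rank ≤ D}) = L.sum := by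
    have := hL.1
    have h3 : ((L.sum : ℕ) : ℝ) + fixRank {U : Matrix (Fin n) (Fin n) ℤ |
      IsIsometry A U ∧ (U - 1).rank ≤ D} = n := by exact_mod_cast this
    linarith
  rw [h2]
  clear h1 h2 hL
  have hn0 : (0 : ℝ) < n := by exact_mod_cast hn
  have hD0 : (0 : ℝ) < D := by exact_mod_cast hD
  induction L with
  | nil => simp
  | cons d L ih =>
    simp only [List.map_cons, List.sum_cons]
    have h3 := ih fun x hx => hLD x (List.mem_cons_of_mem _ hx)
    have h4 : (d : ℝ) * Real.log (n / D) ≤ (d : ℝ) * Real.log (n / d) := by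
      rcases Nat.eq_zero_or_pos d with rfl | hd
      · simp
      · have hd0 : (0 : ℝ) < d := by exact_mod_cast hd
        have hdD : (d : ℝ) ≤ D := by exact_mod_cast hLD d List.mem_cons_self
        refine mul_le_mul_of_nonneg_left (Real.log_le_log (by positivity) ?_) hd0.le
        exact div_le_div_of_nonneg_left hn0.le hd0 hdD
    rw [Nat.cast_add, add_mul]
    linarith

end Pool.Agent.Lib.MP_ef2672_gt_Chain
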