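import Pool.Agent.Lib.MP_ef2672_gt_Tauber.Defs

/-!
MP_ef2672: isometries of lattices and Hermite's constant for lattices with many isometries.
(`minSq`, `inv` and `gamma` are the notions of the frozen statement.)
-/

namespace Pool.Agent.Lib.MP_ef2672_gt_ChainDef

open Pool.Agent.Lib.MP_ef2672_gt_Tauber

/-- The integer matrix `U` acts as an isometry of the lattice `A ℤⁿ`: `|A U w| = |A w|` for all
`w`, written with Gram matrices. -/
def IsIso {n : ℕ} (A : Matrix (Fin n) (Fin n) ℝ) (U : Matrix (Fin n) (Fin n) ℤ) : Prop :=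
  (A * U.map (Int.cast : ℤ → ℝ)).transpose * (A * U.map (Int.cast : ℤ → ℝ)) = A.transpose * A

/-- The lattice `A ℤⁿ` has at least `N` isometries. -/
def HasIsos {n : ℕ} (N : ℕ) (A : Matrix (Fin n) (Fin n) ℝ) : Prop :=
  ∃ S : Finset (Matrix (Fin n) (Fin n) ℤ), N ≤ S.card ∧ ∀ U ∈ S, IsIso A U

/-- The lattice `A ℤⁿ` has at least `N` pairwise commuting isometries. -/
def HasCommuting {n : ℕ} (N : ℕ) (A : Matrix (Fin n) (Fin n) ℝ) : Prop :=
  ∃ S : Finset (Matrix (Fin n) (Fin n) ℤ), N ≤ S.card ∧ (∀ U ∈ S, IsIso A U) ∧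
    ∀ U ∈ S, ∀ V ∈ S, U * V = V * U

/-- The lattice `A ℤⁿ` has at least `2^r` pairwise commuting isometries of order at most two. -/
def HasInvolutions {n : ℕ} (r : ℕ) (A : Matrix (Fin n) (Fin n) ℝ) : Prop :=
  ∃ S : Finset (Matrix (Fin n) (Fin n) ℤ), 2 ^ r ≤ S.card ∧
    (∀ U ∈ S, IsIso A U ∧ U * U = 1) ∧ ∀ U ∈ S, ∀ V ∈ S, U * V = V * U

/-- Hermite's constant restricted to the lattices with at least `N` isometries. -/
noncomputable def gammaSym (N n : ℕ) : ℝ :=
  ⨆ A : {A : Matrix (Fin n) (Fin n) ℝ // A.det ≠ 0 ∧ HasIsos N A}, inv A.1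

/-- Hermite's constant restricted to the lattices with at least `N` pairwise commuting
isometries. -/
noncomputable def gammaComm (N n : ℕ) : ℝ :=
  ⨆ A : {A : Matrix (Fin n) (Fin n) ℝ // A.det ≠ 0 ∧ HasCommuting N A}, inv A.1

/-- Hermite's constant restricted to the lattices with at least `2^r` pairwise commuting
isometries of order at most two. -/
noncomputable def gammaInv (r n : ℕ) : ℝ :=
  ⨆ A : {A : Matrix (Fin n) (Fin n) ℝ // A.det ≠ 0 ∧ HasInvolutions r A}, inv A.1

/-- The lattice of the integer vectors fixed by all matrices in `S`. -/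
def fixedLattice {n : ℕ} (S : Set (Matrix (Fin n) (Fin n) ℤ)) : Submodule ℤ (Fin n → ℤ) where
  carrier := {w | ∀ U ∈ S, U.mulVec w = w}
  add_mem' := fun {a b} ha hb U hU => by rw [Matrix.mulVec_add, ha U hU, hb U hU]
  zero_mem' := fun U _ => Matrix.mulVec_zero U
  smul_mem' := fun c x hx U hU => by rw [Matrix.mulVec_smul, hx U hU]

/-- The rank of the lattice of the integer vectors fixed by all matrices in `S`. -/
noncomputable def fixRank {n : ℕ} (S : Set (Matrix (Fin n) (Fin n) ℤ)) : ℕ :=
  Module.finrank ℤ (fixedLattice S)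

/-- The absolute value of the lowest nonzero coefficient of the characteristic polynomial of
`U - 1` (for `U - 1` diagonalisable over `ℂ`, in particular for an isometry `U` of a lattice):
the absolute value of the product of the nonzero eigenvalues of `U - 1`. -/
noncomputable def pdet {n : ℕ} (U : Matrix (Fin n) (Fin n) ℤ) : ℕ :=
  ((U - 1).charpoly.coeff (n - (U - 1).rank)).natAbs

end Pool.Agent.Lib.MP_ef2672_gt_ChainDef
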