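import Pool.Agent.Lib.MP_ef2672_gt_Chain.Chain

/-!
The ranks of the lattices fixed by the subgroups of a finite `p`-group.
-/

namespace Pool.Agent.Lib.MP_ef2672_gt_Chain

open Pool.Agent.Lib.MP_ef2672_gt_Tauber Pool.Agent.Lib.MP_ef2672_gt_Sym

/-- The rank of the moved part of an automorphism of prime order `p` is a multiple of `p - 1`. -/
lemma dvd_rank_sub {V : Type*} [AddCommGroup V] [Module.Free ℤ V] [Module.Finite ℤ V]
    {p : ℕ} (hp : p.Prime) (u : V →ₗ[ℤ] V) (hu : u ^ p = 1) :
    (p - 1) ∣ Module.finrank ℤ V - Module.finrank ℤ (LinearMap.ker (u - 1)) := by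
  classical
  have hp0 : (p : ℤ) ≠ 0 := by exact_mod_cast hp.ne_zero
  set T : V →ₗ[ℤ] V := ∑ i ∈ Finset.range p, u ^ i with hT
  have hT1 : T * (u - 1) = 0 := by rw [hT, geom_sum_mul, hu, sub_self]
  have hT2 : (u - 1) * T = 0 := by rw [hT, mul_geom_sum, hu, sub_self]
  set M := LinearMap.ker (u - 1) with hM
  set N := LinearMap.ker T with hN
  have hMu : ∀ x ∈ M, u x = x := by
    intro x hx
    have := LinearMap.mem_ker.1 hx
    rw [LinearMap.sub_apply, Module.End.one_apply, sub_eq_zero] at this
    exact this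
  have hMpow : ∀ x ∈ M, ∀ i : ℕ, (u ^ i) x = x := by
    intro x hx i
    induction i with
    | zero => simp
    | succ i ih => rw [pow_succ, Module.End.mul_apply, hMu x hx, ih]
  have hMT : ∀ x ∈ M, T x = (p : ℤ) • x := by
    intro x hx
    rw [hT, LinearMap.sum_apply, Finset.sum_congr rfl fun i _ => hMpow x hx i]
    simp
  have hTM : ∀ x, T x ∈ M := by
    intro x
    rw [hM, LinearMap.mem_ker, ← Module.End.mul_apply, hT2]
    rfl
  have hUN : ∀ x, (1 - u) x ∈ N := by
    intro x
    rw [hN, LinearMap.mem_ker, ← Module.End.mul_apply]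
    have : T * (1 - u) = 0 := by
      rw [← neg_sub u 1, mul_neg, hT1, neg_zero]
    rw [this]
    rfl
  have hrank : Module.finrank ℤ M + Module.finrank ℤ N = Module.finrank ℤ V := by
    have h1 := Submodule.finrank_quotient_add_finrank (LinearMap.ker T)
    rw [T.quotKerEquivRange.finrank_eq] at h1
    have h2 : Module.finrank ℤ (LinearMap.range T) = Module.finrank ℤ M := by
      apply le_antisymm
      · apply Submodule.finrank_mono
        rintro _ ⟨x, rfl⟩
        exact hTM x
      · let φ : M →ₗ[ℤ] LinearMap.range T := T.rangeRestrict ∘ₗ M.subtype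
        apply LinearMap.finrank_le_finrank_of_injective (f := φ)
        intro x y hxy
        have h3 : T x = T y := congrArg Subtype.val hxy
        rw [hMT x x.2, hMT y y.2] at h3
        exact Subtype.ext (smul_right_injective _ hp0 h3)
    rw [h2] at h1
    exact h1
  have huN : ∀ x ∈ N, u x ∈ N := by
    intro x hx
    have h1 := hUN x
    rw [LinearMap.sub_apply, Module.End.one_apply] at h1
    have := N.sub_mem hx h1
    rwa [sub_sub_cancel] at this
  let v : N →ₗ[ℤ] N := u.restrict huN
  have hvpow : ∀ (i : ℕ) (x : N), ((v ^ i) x : V) = (u ^ i) x := by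
    intro i x
    induction i with
    | zero => simp
    | succ i ih => rw [pow_succ', pow_succ', Module.End.mul_apply, Module.End.mul_apply, ← ih]; rfl
  have hv : ∑ i ∈ Finset.range p, v ^ i = 0 := by
    ext1 x
    apply Subtype.ext
    rw [LinearMap.sum_apply, AddSubmonoidClass.coe_finsetSum,
      Finset.sum_congr rfl fun i _ => hvpow i x, ← LinearMap.sum_apply]
    exact LinearMap.mem_ker.1 x.2
  have h1 := det_one_sub hp v hv
  have h2 : (LinearMap.det (1 - v)).natAbs ∣ p ^ Module.finrank ℤ N := by
    rw [← h1]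
    exact dvd_pow_self _ (by have := hp.two_le; omega)
  obtain ⟨s, _, hs⟩ := (Nat.dvd_prime_pow hp).1 h2
  rw [hs, ← pow_mul] at h1
  have h3 := Nat.pow_right_injective hp.two_le h1
  have h4 : Module.finrank ℤ V - Module.finrank ℤ M = s * (p - 1) := by omega
  rw [h4]
  exact Dvd.intro_left s rfl

/-- If the lattice shrinks then its rank drops. -/
lemma fixRank_lt {n : ℕ} {S T : Set (Matrix (Fin n) (Fin n) ℤ)} (h : S ⊆ T) {x : Fin n → ℤ}
    (hx : x ∈ fixedLattice S) (hx' : x ∉ fixedLattice T) : fixRank T < fixRank S := by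
  set M := fixedLattice S with hM
  set W : Submodule ℤ M := (fixedLattice T).comap M.subtype with hW
  have hfree : Module.Free ℤ (M ⧸ W) := quot_free M T
  have h1 := Submodule.finrank_quotient_add_finrank W
  have hle : fixedLattice T ≤ M := fixedLattice_anti h
  have h2 : Module.finrank ℤ W = Module.finrank ℤ (fixedLattice T) :=
    (Submodule.comapSubtypeEquivOfLe hle).finrank_eq
  have h3 : 0 < Module.finrank ℤ (M ⧸ W) := by
    rw [Module.finrank_pos_iff]
    refine ⟨Submodule.Quotient.mk ⟨x, hx⟩, 0, fun h0 => hx' ?_⟩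
    exact (Submodule.Quotient.mk_eq_zero W).1 h0
  unfold fixRank
  rw [← hM]
  omega

section PGroup

variable {G : Type*} [Group G] {n : ℕ} (ρ : G →* Matrix (Fin n) (Fin n) ℤ)

lemma mem_fix {H : Subgroup G} {x : Fin n → ℤ} :
    x ∈ fixedLattice (ρ '' (H : Set G)) ↔ ∀ h ∈ H, (ρ h).mulVec x = x := by
  rw [mem_fixedLattice]
  constructor
  · intro h g hg
    exact h _ ⟨g, hg, rfl⟩
  · rintro h _ ⟨g, hg, rfl⟩
    exact h g hg

lemma image_mono {K H : Subgroup G} (h : K ≤ H) :
    ρ '' (K : Set G) ⊆ ρ '' (H : Set G) := Set.image_mono h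

/-- One step: an element which normalises `K` and whose `p`-th power lies in `K`. -/
lemma dvd_step {p : ℕ} (hp : p.Prime) {K : Subgroup G} {h : G}
    (hn : ∀ k ∈ K, h⁻¹ * k * h ∈ K) (hpow : h ^ p ∈ K) :
    (p - 1) ∣ fixRank (ρ '' (K : Set G)) - fixRank (ρ '' ((K ⊔ Subgroup.zpowers h : Subgroup G) :
      Set G)) := by
  set M := fixedLattice (ρ '' (K : Set G)) with hM
  have hstab : ∀ x ∈ M, Matrix.toLin' (ρ h) x ∈ M := by
    intro x hx
    rw [hM, mem_fix] at hx ⊢
    intro k hk
    have h1 := hx _ (hn k hk)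
    rw [Matrix.toLin'_apply, Matrix.mulVec_mulVec, ← map_mul]
    conv_rhs => rw [← h1]
    rw [Matrix.mulVec_mulVec, ← map_mul]
    congr 2
    group
  let u : M →ₗ[ℤ] M := (Matrix.toLin' (ρ h)).restrict hstab
  have hupow : ∀ (i : ℕ) (x : M), ((u ^ i) x : Fin n → ℤ) = (ρ (h ^ i)).mulVec x := by
    intro i x
    induction i with
    | zero => simp
    | succ i ih =>
      rw [pow_succ', Module.End.mul_apply, pow_succ', map_mul, ← Matrix.mulVec_mulVec, ← ih]
      rfl
  have hup : u ^ p = 1 := by
    ext1 x
    apply Subtype.ext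
    rw [hupow]
    exact (mem_fix ρ).1 x.2 _ hpow
  have h1 := dvd_rank_sub hp u hup
  have h2 : Module.finrank ℤ (LinearMap.ker (u - 1)) =
      fixRank (ρ '' ((K ⊔ Subgroup.zpowers h : Subgroup G) : Set G)) := by
    unfold fixRank
    have hle : fixedLattice (ρ '' ((K ⊔ Subgroup.zpowers h : Subgroup G) : Set G)) ≤ M :=
      fixedLattice_anti (image_mono ρ le_sup_left)
    have h3 : LinearMap.ker (u - 1) =
        (fixedLattice (ρ '' ((K ⊔ Subgroup.zpowers h : Subgroup G) : Set G))).comap
          M.subtype := by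
      ext x
      rw [LinearMap.mem_ker, Submodule.mem_comap, LinearMap.sub_apply, Module.End.one_apply,
        sub_eq_zero, Subtype.ext_iff, mem_fix]
      constructor
      · intro hx g hg
        have hx' : (ρ h).mulVec (x : Fin n → ℤ) = x := hx
        -- the stabiliser of x is a subgroup
        let Q : Subgroup G :=
          { carrier := {g | (ρ g).mulVec (x : Fin n → ℤ) = x}
            mul_mem' := fun {a b} ha hb => by
              show (ρ (a * b)).mulVec (x : Fin n → ℤ) = x
              rw [map_mul, ← Matrix.mulVec_mulVec]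
              rw [show (ρ b).mulVec (x : Fin n → ℤ) = x from hb]
              exact ha
            one_mem' := by
              show (ρ 1).mulVec (x : Fin n → ℤ) = x
              rw [map_one, Matrix.one_mulVec]
            inv_mem' := fun {a} ha => by
              show (ρ a⁻¹).mulVec (x : Fin n → ℤ) = x
              conv_lhs => rw [← show (ρ a).mulVec (x : Fin n → ℤ) = x from ha]
              rw [Matrix.mulVec_mulVec, ← map_mul, inv_mul_cancel, map_one, Matrix.one_mulVec] }
        have hQ : K ⊔ Subgroup.zpowers h ≤ Q := by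
          refine sup_le ?_ ?_
          · intro k hk
            exact (mem_fix ρ).1 x.2 k hk
          · rw [Subgroup.zpowers_le]
            exact hx'
        exact hQ hg
      · intro hx
        exact hx h (le_sup_right (a := K) (Subgroup.mem_zpowers h))
    rw [h3]
    exact (Submodule.comapSubtypeEquivOfLe hle).finrank_eq
  rw [h2] at h1
  exact h1

end PGroup

end Pool.Agent.Lib.MP_ef2672_gt_Chain
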