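import Pool.Agent.Lib.MP_ef2672_gt_Chain.Drop

/-!
The drops of the ranks of the fixed lattices in a finite `p`-group.
-/

namespace Pool.Agent.Lib.MP_ef2672_gt_Chain

variable {G : Type*} [Group G]

/-- In a finite `p`-group, a proper subgroup `K` of `H` is normalised by an element of `H` outside
`K` whose `p`-th power is in `K`. -/
lemma exists_normalizing {p : ℕ} [Fact p.Prime] [Finite G] (hG : IsPGroup p G)
    {K H : Subgroup G} (hKH : K < H) :
    ∃ h ∈ H, h ∉ K ∧ h ^ p ∈ K ∧ ∀ k ∈ K, h⁻¹ * k * h ∈ K := by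
  have hH : IsPGroup p H := hG.to_subgroup H
  have hnil : Group.IsNilpotent H := hH.isNilpotent
  have hcond : NormalizerCondition H := Group.normalizerCondition_of_isNilpotent
  have hlt : K.subgroupOf H < ⊤ := by
    rw [lt_top_iff_ne_top]
    intro h0
    rw [Subgroup.subgroupOf_eq_top] at h0
    exact absurd (le_antisymm hKH.le h0) hKH.ne
  obtain ⟨_, h1⟩ := hcond _ hlt
  rw [SetLike.not_le_iff_exists] at h1
  obtain ⟨g, hg, hgK⟩ := h1
  have hg' : ∀ k ∈ K, (g : G)⁻¹ * k * g ∈ K := by
    intro k hk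
    have h2 := (Subgroup.mem_normalizer_iff''.1 hg ⟨k, hKH.le hk⟩).1 (by
      rw [Subgroup.mem_subgroupOf]; exact hk)
    rw [Subgroup.mem_subgroupOf] at h2
    exact h2
  have hgK' : (g : G) ∉ K := fun h => hgK (by rw [Subgroup.mem_subgroupOf]; exact h)
  obtain ⟨m, hm⟩ := hG (g : G)
  have hex : ∃ k : ℕ, (g : G) ^ p ^ k ∈ K := ⟨m, by rw [hm]; exact K.one_mem⟩
  classical
  set k := Nat.find hex with hk
  have hk0 : k ≠ 0 := by
    intro h0
    have := Nat.find_spec hex
    rw [← hk, h0, pow_zero, pow_one] at this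
    exact hgK' this
  obtain ⟨j, hj⟩ := Nat.exists_eq_succ_of_ne_zero hk0
  refine ⟨(g : G) ^ p ^ j, H.pow_mem g.2 _, ?_, ?_, ?_⟩
  · exact Nat.find_min hex (by omega)
  · have := Nat.find_spec hex
    rw [← hk, hj] at this
    rw [← pow_mul, ← pow_succ]
    exact this
  · have hpow : ∀ i : ℕ, ∀ x ∈ K, ((g : G) ^ i)⁻¹ * x * (g : G) ^ i ∈ K := by
      intro i
      induction i with
      | zero => intro x hx; simpa using hx
      | succ i ih =>
        intro x hx
        have h3 := hg' _ (ih x hx)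
        have h4 : ((g : G) ^ (i + 1))⁻¹ * x * (g : G) ^ (i + 1) =
            (g : G)⁻¹ * (((g : G) ^ i)⁻¹ * x * (g : G) ^ i) * g := by
          rw [pow_succ]; group
        rw [h4]
        exact h3
    exact hpow _

/-- The ranks of the fixed lattices of two subgroups differ by a multiple of `p - 1`. -/
theorem dvd_rank {p : ℕ} [hp : Fact p.Prime] [Finite G] (hG : IsPGroup p G) {n : ℕ}
    (ρ : G →* Matrix (Fin n) (Fin n) ℤ) (H : Subgroup G) (m : ℕ) :
    ∀ K : Subgroup G, K ≤ H → Nat.card H ≤ Nat.card K + m →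
      (p - 1) ∣ fixRank (ρ '' (K : Set G)) - fixRank (ρ '' (H : Set G)) := by
  induction m with
  | zero =>
    intro K hK hcard
    have : K = H := Subgroup.eq_of_le_of_card_ge hK (by simpa using hcard)
    rw [this, Nat.sub_self]
    exact dvd_zero _
  | succ m ih =>
    intro K hK hcard
    rcases hK.eq_or_lt with h0 | hlt
    · rw [h0, Nat.sub_self]
      exact dvd_zero _
    obtain ⟨h, hh, hhK, hhp, hhn⟩ := exists_normalizing hG hlt
    have h1 := dvd_step ρ hp.out hhn hhp
    set K₁ := K ⊔ Subgroup.zpowers h with hK₁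
    have hK₁H : K₁ ≤ H := sup_le hK (by rwa [Subgroup.zpowers_le])
    have hKK₁ : K < K₁ := by
      refine lt_of_le_of_ne le_sup_left fun h0 => hhK ?_
      rw [h0]
      exact le_sup_right (a := K) (Subgroup.mem_zpowers h)
    have hcard1 : Nat.card K < Nat.card K₁ := by
      by_contra hcon
      exact hKK₁.ne (Subgroup.eq_of_le_of_card_ge hKK₁.le (not_lt.1 hcon))
    have h2 := ih K₁ hK₁H (by omega)
    have h3 := fixRank_anti (image_mono ρ hKK₁.le)
    have h4 := fixRank_anti (image_mono ρ hK₁H)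
    have h5 : fixRank (ρ '' (K : Set G)) - fixRank (ρ '' (H : Set G)) =
        (fixRank (ρ '' (K : Set G)) - fixRank (ρ '' (K₁ : Set G))) +
        (fixRank (ρ '' (K₁ : Set G)) - fixRank (ρ '' (H : Set G))) := by omega
    rw [h5]
    exact dvd_add h1 h2

end Pool.Agent.Lib.MP_ef2672_gt_Chain
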