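import Pool.Agent.Lib.MP_ef2672_gt_Chain.Concentration
import Pool.Agent.Lib.MP_ef2672_gt_Chain.AmGm

/-!
One isometry of arbitrary order: the inequality with the product of the nonzero eigenvalues.
-/

namespace Pool.Agent.Lib.MP_ef2672_gt_Chain

open Pool.Agent.Lib.MP_ef2672_gt_Tauber Pool.Agent.Lib.MP_ef2672_gt_Sym Filter Topology Polynomial

/-- The absolute value of the lowest nonzero coefficient of the characteristic polynomial of
`U - 1`; for an isometry this is the absolute value of the product of the nonzero eigenvalues. -/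
noncomputable def pdet {n : ℕ} (U : Matrix (Fin n) (Fin n) ℤ) : ℕ :=
  ((U - 1).charpoly.coeff (n - (U - 1).rank)).natAbs

lemma isometry_bil {n : ℕ} {A : Matrix (Fin n) (Fin n) ℝ} {U : Matrix (Fin n) (Fin n) ℤ}
    (hU : IsIsometry A U) (x y : Fin n → ℤ) :
    bil A (U.mulVec x) (U.mulVec y) = bil A x y := by
  have h1 : ∀ z w' : Fin n → ℤ, bil A z w' = dotProduct (fun j => (z j : ℝ))
      ((A.transpose * A).mulVec (fun j => (w' j : ℝ))) := by
    intro z w'
    unfold bil
    rw [← Matrix.mulVec_mulVec, Matrix.dotProduct_mulVec _ A.transpose, Matrix.vecMul_transpose]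
  unfold IsIsometry at hU
  rw [h1 x y, ← hU, ← Matrix.mulVec_mulVec, Matrix.dotProduct_mulVec _ (Matrix.transpose _),
    Matrix.vecMul_transpose, ← Matrix.mulVec_mulVec, ← Matrix.mulVec_mulVec,
    ← cast_mulVec, ← cast_mulVec]
  rfl

/-- Vectors in the image of `U - 1` are orthogonal to the fixed vectors. -/
lemma bil_moved {n : ℕ} {A : Matrix (Fin n) (Fin n) ℝ} {U : Matrix (Fin n) (Fin n) ℤ}
    (hU : IsIsometry A U) {w : Fin n → ℤ} (hw : U.mulVec w = w) (x : Fin n → ℤ) :
    bil A w ((U - 1).mulVec x) = 0 := by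
  have h1 := isometry_bil hU w x
  rw [hw] at h1
  have h2 : (U - 1).mulVec x + x = U.mulVec x := by
    rw [Matrix.sub_mulVec, Matrix.one_mulVec, sub_add_cancel]
  rw [← h2, bil_add_right] at h1
  linarith

lemma minSq_pow_le_li {n r : ℕ} (A : Matrix (Fin n) (Fin n) ℝ) (hA : A.det ≠ 0)
    {v : Fin r → Fin n → ℤ} (hli : LinearIndependent ℤ v) :
    minSq A ^ r ≤ gamma r ^ r * (gram A v).det := by
  refine gram_le_fin (gram A v) (gram_posSemidef A v) (gram_posDef hA hli).det_pos.ne'
    (minSq_nonneg A) ?_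
  intro w hw
  rw [gram_quad]
  have h1 : (cols v).mulVec (fun j => (w j : ℝ)) = fun i => ((∑ j, w j • v j) i : ℝ) := by
    ext i
    simp only [Matrix.mulVec, dotProduct, cols, Matrix.of_apply, Finset.sum_apply, Pi.smul_apply,
      smul_eq_mul]
    push_cast
    exact Finset.sum_congr rfl fun j _ => mul_comm _ _
  rw [h1]
  refine minSq_le A _ fun h0 => hw ?_
  ext j
  exact Fintype.linearIndependent_iff.1 hli w h0 j

lemma charpoly_zero_matrix (k : ℕ) : (0 : Matrix (Fin k) (Fin k) ℤ).charpoly = X ^ k := by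
  unfold Matrix.charpoly Matrix.charmatrix
  rw [map_zero, sub_zero, Matrix.scalar_apply, Matrix.det_diagonal, Finset.prod_const,
    Finset.card_univ, Fintype.card_fin]

theorem eigen_le {n : ℕ} (hn : 0 < n) {A : Matrix (Fin n) (Fin n) ℝ} (hA : A.det ≠ 0)
    {U : Matrix (Fin n) (Fin n) ℤ} (hU : IsIsometry A U) :
    pdet U ≠ 0 ∧ inv A ^ n ≤ (pdet U : ℝ) ^ 2 *
      (gamma (n - (U - 1).rank) ^ (n - (U - 1).rank) * gamma (U - 1).rank ^ (U - 1).rank) ∧
    (pdet U : ℝ) ^ 2 ≤ (2 * ((n : ℝ) - (U.trace : ℤ)) / (U - 1).rank) ^ (U - 1).rank ∧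
    ((U.trace : ℤ) : ℝ) ≤ n := by
  classical
  set W : Submodule ℤ (Fin n → ℤ) := fixedLattice {U} with hW
  have hWmem : ∀ x, x ∈ W ↔ U.mulVec x = x := by
    intro x
    rw [hW, mem_fixedLattice]
    simp
  set T : (Fin n → ℤ) →ₗ[ℤ] (Fin n → ℤ) := Matrix.toLin' (U - 1) with hT
  have hTapp : ∀ x, T x = (U - 1).mulVec x := fun x => Matrix.toLin'_apply _ _
  have hTW : ∀ x ∈ W, T x = 0 := by
    intro x hx
    rw [hTapp, Matrix.sub_mulVec, Matrix.one_mulVec, (hWmem x).1 hx, sub_self]
  have hWT : ∀ x, T x = 0 → x ∈ W := by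
    intro x hx
    rw [hTapp, Matrix.sub_mulVec, Matrix.one_mulVec, sub_eq_zero] at hx
    exact (hWmem x).2 hx
  have hTT : ∀ x, T x ∈ W → x ∈ W := by
    intro x hx
    apply hWT
    have h1 := bil_moved hU ((hWmem _).1 hx) x
    rw [← hTapp] at h1
    have h2 : ∑ i, (A.mulVec fun j => ((T x) j : ℝ)) i ^ 2 = 0 := by
      rw [← h1]
      unfold bil
      simp only [dotProduct]
      exact Finset.sum_congr rfl fun i _ => sq _
    have h3 := mulVec_inj hA (sum_sq_eq_zero h2)
    ext j
    have := congrFun h3 j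
    simpa using this
  have hfree : Module.Free ℤ ((Fin n → ℤ) ⧸ W) := by
    have hker : LinearMap.ker T = W := by
      ext x
      rw [LinearMap.mem_ker]
      exact ⟨hWT x, hTW x⟩
    rw [← hker]
    exact Module.Free.of_equiv T.quotKerEquivRange.symm
  set r := (U - 1).rank with hr
  have hkr : fixRank {U} + r = n := fixRank_singleton U
  set k := fixRank {U} with hk
  have hnk : n - r = k := by omega
  have hWk : Module.finrank ℤ W = k := rfl
  have hQr : Module.finrank ℤ ((Fin n → ℤ) ⧸ W) = r := by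
    have h1 := Submodule.finrank_quotient_add_finrank W
    rw [Module.finrank_fin_fun, hWk] at h1
    omega
  let bW : Module.Basis (Fin k) ℤ W := (Module.finBasis ℤ W).reindex (finCongr hWk)
  let bQ : Module.Basis (Fin r) ℤ ((Fin n → ℤ) ⧸ W) :=
    (Module.finBasis ℤ ((Fin n → ℤ) ⧸ W)).reindex (finCongr hQr)
  let b := Module.Basis.sumQuot bW bQ
  have hbinl : ∀ i, b (Sum.inl i) = (bW i : Fin n → ℤ) := fun i =>
    Module.Basis.sumQuot_inl bW bQ i
  -- the induced map
  let Tq : ((Fin n → ℤ) ⧸ W) →ₗ[ℤ] ((Fin n → ℤ) ⧸ W) := W.mapQ W T fun x hx => by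
    rw [Submodule.mem_comap, hTW x hx]; exact W.zero_mem
  let R : Matrix (Fin r) (Fin r) ℤ := LinearMap.toMatrix bQ bQ Tq
  have hR : ∀ i j, b.repr (T (b (Sum.inr j))) (Sum.inr i) = R i j := by
    intro i j
    rw [Module.Basis.sumQuot_repr_inr]
    show bQ.repr (W.mkQ (T (b (Sum.inr j)))) i = (LinearMap.toMatrix bQ bQ Tq) i j
    rw [LinearMap.toMatrix_apply]
    congr 2
    have h1 : Tq (W.mkQ (b (Sum.inr j))) = W.mkQ (T (b (Sum.inr j))) := rfl
    rw [← h1]
    congr 1
    exact Module.Basis.sumQuot_inr bW bQ j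
  have hRdet : R.det ≠ 0 := by
    intro h0
    obtain ⟨w, hw0, hw⟩ := Matrix.exists_mulVec_eq_zero_iff.2 h0
    apply hw0
    have h1 : Tq (∑ j, w j • bQ j) = 0 := by
      apply bQ.repr.injective
      rw [map_zero]
      ext i
      rw [map_sum, map_sum, Finsupp.finsetSum_apply, Finsupp.zero_apply]
      have h2 := congrFun hw i
      rw [Pi.zero_apply] at h2
      rw [← h2]
      simp only [Matrix.mulVec, dotProduct]
      refine Finset.sum_congr rfl fun j _ => ?_
      rw [map_smul, map_smul, Finsupp.smul_apply, smul_eq_mul, mul_comm]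
      congr 1
      show _ = (LinearMap.toMatrix bQ bQ Tq) i j
      rw [LinearMap.toMatrix_apply]
    obtain ⟨x, hx⟩ := W.mkQ_surjective (∑ j, w j • bQ j)
    rw [← hx] at h1
    have h3 : W.mkQ (T x) = 0 := h1
    have h4 : T x ∈ W := (Submodule.Quotient.mk_eq_zero W).1 h3
    have h5 : W.mkQ x = 0 := (Submodule.Quotient.mk_eq_zero W).2 (hTT x h4)
    rw [h5] at hx
    ext j
    exact Fintype.linearIndependent_iff.1 bQ.linearIndependent w hx.symm j
  -- the characteristic polynomial
  have hblock : LinearMap.toMatrix b b T = Matrix.fromBlocks 0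
      (Matrix.of fun i j => b.repr (T (b (Sum.inr j))) (Sum.inl i)) 0 R := by
    ext i j
    rw [LinearMap.toMatrix_apply]
    rcases j with j | j
    · have h1 : T (b (Sum.inl j)) = 0 := by
        rw [hbinl]
        exact hTW _ (bW j).2
      rw [h1, map_zero]
      rcases i with i | i <;> simp
    · rcases i with i | i
      · simp
      · rw [hR]; simp
  have hchar : (U - 1).charpoly = X ^ k * R.charpoly := by
    have h1 : (U - 1).charpoly = T.charpoly := by
      rw [hT]
      exact (Matrix.charpoly_toLin' _).symm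
    rw [h1, ← LinearMap.charpoly_toMatrix T b, hblock, Matrix.charpoly_fromBlocks_zero₂₁,
      charpoly_zero_matrix]
  have hpdet : pdet U = R.det.natAbs := by
    unfold pdet
    rw [← hr, hnk, hchar]
    have h1 : (X ^ k * R.charpoly).coeff k = R.charpoly.coeff 0 := by
      have := Polynomial.coeff_X_pow_mul R.charpoly k 0
      rwa [zero_add] at this
    rw [h1, Matrix.det_eq_sign_charpoly_coeff R, Int.natAbs_mul, Int.natAbs_pow]
    simp
  have htrace : (R.trace : ℤ) = U.trace - n := by
    have h1 := LinearMap.trace_eq_matrix_trace ℤ b T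
    have h2 := LinearMap.trace_eq_matrix_trace ℤ (Pi.basisFun ℤ (Fin n)) T
    have h4 : ∀ M : Matrix (Fin k) (Fin r) ℤ,
        (Matrix.fromBlocks 0 M 0 R : Matrix (Fin k ⊕ Fin r) (Fin k ⊕ Fin r) ℤ).trace =
        R.trace := by
      intro M
      simp [Matrix.trace, Fintype.sum_sum_type]
    rw [h1, hblock, h4] at h2
    rw [h2, hT]
    have h3 : LinearMap.toMatrix (Pi.basisFun ℤ (Fin n)) (Pi.basisFun ℤ (Fin n))
        (Matrix.toLin' (U - 1)) = U - 1 := LinearMap.toMatrix'_toLin' _
    rw [h3, Matrix.trace_sub, Matrix.trace_one, Fintype.card_fin]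
  refine ⟨by rw [hpdet]; exact Int.natAbs_ne_zero.2 hRdet, ?_⟩
  -- Gram matrices
  let bv : Fin k ⊕ Fin r → (Fin n → ℤ) := fun i => b i
  have hbli : LinearIndependent ℤ bv := b.linearIndependent
  have hvtop : A.det ^ 2 = (gram A bv).det := by
    rw [← vol2_top, vol2_eq A (b.map (Submodule.topEquiv).symm)]
    rfl
  have hvW : vol2 A W = (gram A fun i => bv (Sum.inl i)).det := by
    rw [vol2_eq A bW]
    congr 2
    ext i j
    rw [show bv (Sum.inl i) = (bW i : Fin n → ℤ) from hbinl i]
  set G := gram A bv with hG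
  have hGpd : G.PosDef := gram_posDef hA hbli
  set E := G.toBlocks₁₁ with hE
  set F := G.toBlocks₁₂ with hF
  set H := G.toBlocks₂₂ with hH
  have hGsym : G.transpose = G := by
    have := hGpd.1
    rwa [Matrix.IsHermitian, Matrix.conjTranspose_eq_transpose_of_trivial] at this
  have h21 : G.toBlocks₂₁ = F.transpose := by
    ext i j
    have := congrFun (congrFun hGsym (Sum.inr i)) (Sum.inl j)
    rw [Matrix.transpose_apply] at this
    simp only [Matrix.toBlocks₂₁, hF, Matrix.toBlocks₁₂, Matrix.transpose_apply, Matrix.of_apply]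
    exact this.symm
  have hGb : G = Matrix.fromBlocks E F F.transpose H := by
    rw [← h21, hE, hF, hH, Matrix.fromBlocks_toBlocks]
  have hEgram : E = gram A fun i => bv (Sum.inl i) := by
    ext i j
    rfl
  have hEpd : E.PosDef := by
    rw [hEgram]
    refine gram_posDef hA ?_
    exact hbli.comp Sum.inl Sum.inl_injective
  have hEdet : E.det ≠ 0 := hEpd.det_pos.ne'
  letI : Invertible E := Matrix.invertibleOfIsUnitDet E (isUnit_iff_ne_zero.2 hEdet)
  set Sc := H - F.transpose * E⁻¹ * F with hSc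
  have hdetG : G.det = E.det * Sc.det := by
    rw [hGb, Matrix.det_fromBlocks₁₁, Matrix.invOf_eq_nonsing_inv]
  -- the moved vectors
  let e : Fin r → (Fin n → ℤ) := fun j => T (b (Sum.inr j))
  let S : Matrix (Fin k) (Fin r) ℝ :=
    Matrix.of fun i j => ((b.repr (T (b (Sum.inr j))) (Sum.inl i) : ℤ) : ℝ)
  let RR : Matrix (Fin r) (Fin r) ℝ := R.map (Int.cast : ℤ → ℝ)
  have hcols : cols e = cols bv * Matrix.fromRows S RR := by
    ext i j
    have h1 := b.sum_repr (T (b (Sum.inr j)))
    have h2 := congrFun h1 i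
    simp only [Fintype.sum_sum_type, Pi.add_apply, Finset.sum_apply, Pi.smul_apply,
      smul_eq_mul] at h2
    simp only [cols, Matrix.of_apply, Matrix.mul_apply, Fintype.sum_sum_type,
      Matrix.fromRows_apply_inl, Matrix.fromRows_apply_inr]
    show ((T (b (Sum.inr j)) i : ℤ) : ℝ) = _
    rw [← h2]
    push_cast
    congr 1
    · refine Finset.sum_congr rfl fun l _ => ?_
      rw [mul_comm]
      rfl
    · refine Finset.sum_congr rfl fun l _ => ?_
      rw [mul_comm, hR]
      rfl
  have horth : E * S + F * RR = 0 := by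
    have h1 : G * Matrix.fromRows S RR = (A * cols bv).transpose * (A * cols e) := by
      rw [hcols, hG]
      unfold gram
      simp only [Matrix.mul_assoc]
    rw [hGb, Matrix.fromBlocks_mul_fromRows] at h1
    ext i j
    have h2 := congrFun (congrFun h1 (Sum.inl i)) j
    rw [Matrix.fromRows_apply_inl] at h2
    rw [h2, Matrix.zero_apply]
    have h3 : ((A * cols bv).transpose * (A * cols e)) (Sum.inl i) j =
        bil A (bv (Sum.inl i)) (e j) := by
      unfold bil
      simp only [Matrix.mul_apply, Matrix.transpose_apply, dotProduct, Matrix.mulVec, cols,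
        Matrix.of_apply]
    rw [h3]
    have h4 : U.mulVec (bv (Sum.inl i)) = bv (Sum.inl i) := by
      rw [show bv (Sum.inl i) = (bW i : Fin n → ℤ) from hbinl i]
      exact (hWmem _).1 (bW i).2
    have h5 := bil_moved hU h4 (b (Sum.inr j))
    rw [← hTapp] at h5
    exact h5
  have hS : S = -(E⁻¹ * (F * RR)) := by
    have h1 : E⁻¹ * (E * S + F * RR) = 0 := by rw [horth, Matrix.mul_zero]
    rw [Matrix.mul_add, ← Matrix.mul_assoc, Matrix.nonsing_inv_mul _
      (isUnit_iff_ne_zero.2 hEdet), Matrix.one_mul] at h1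
    exact eq_neg_of_add_eq_zero_left h1
  have hgram : gram A e = RR.transpose * (Sc * RR) := by
    have h1 : gram A e = (Matrix.fromRows S RR).transpose * (G * Matrix.fromRows S RR) := by
      rw [hG]
      unfold gram
      rw [hcols, ← Matrix.mul_assoc A, Matrix.transpose_mul (A * cols bv)]
      simp only [Matrix.mul_assoc]
    rw [h1, hGb, Matrix.fromBlocks_mul_fromRows, horth, Matrix.transpose_fromRows,
      Matrix.fromCols_mul_fromRows, Matrix.mul_zero, zero_add]
    congr 1
    rw [hSc, hS, Matrix.sub_mul]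
    simp only [Matrix.mul_neg, Matrix.mul_assoc]
    abel
  have hedet : (gram A e).det = (pdet U : ℝ) ^ 2 * Sc.det := by
    have h1 : RR.det = (R.det : ℝ) := (Int.cast_det R).symm
    have h2 : ((R.det.natAbs : ℕ) : ℝ) ^ 2 = (R.det : ℝ) ^ 2 := by
      rw [Nat.cast_natAbs, Int.cast_abs, sq_abs]
    rw [hgram, Matrix.det_mul, Matrix.det_mul, Matrix.det_transpose, h1, hpdet, h2]
    ring
  have heli : LinearIndependent ℤ e := by
    rw [Fintype.linearIndependent_iff]
    intro w hw
    have h1 : R.mulVec w = 0 := by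
      ext i
      have h2 := congrArg (fun x => b.repr x (Sum.inr i)) hw
      simp only [map_sum, map_smul, map_zero, Finsupp.finsetSum_apply, Finsupp.smul_apply,
        Finsupp.zero_apply, smul_eq_mul] at h2
      rw [Pi.zero_apply, ← h2]
      simp only [Matrix.mulVec, dotProduct]
      refine Finset.sum_congr rfl fun j _ => ?_
      rw [mul_comm, ← hR]
    intro j
    exact congrFun (Matrix.eq_zero_of_mulVec_eq_zero hRdet h1) j
  have hb1 := minSq_pow_le_li A hA heli
  have hb2 := minSq_pow_le hA W hWk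
  rw [hedet] at hb1
  have hE0 : 0 < E.det := hEpd.det_pos
  have hvW' : vol2 A W = E.det := by rw [hvW, hEgram]
  have hAdet : A.det ^ 2 = E.det * Sc.det := by rw [hvtop, hdetG]
  have hmin := minSq_nonneg A
  have hmain : minSq A ^ n ≤ (pdet U : ℝ) ^ 2 * (gamma k ^ k * gamma r ^ r) * A.det ^ 2 := by
    have h8 : minSq A ^ n = minSq A ^ k * minSq A ^ r := by
      rw [← pow_add, hkr]
    rw [h8, hAdet]
    calc minSq A ^ k * minSq A ^ r
        ≤ (gamma k ^ k * vol2 A W) * (gamma r ^ r * ((pdet U : ℝ) ^ 2 * Sc.det)) :=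
          mul_le_mul hb2 hb1 (pow_nonneg hmin _)
            (mul_nonneg (pow_nonneg (gamma_nonneg _) _) (vol2_pos hA W).le)
      _ = _ := by rw [hvW']; ring
  have hScps : Sc.PosSemidef := by
    have h1 := Matrix.PosDef.fromBlocks₁₁ F H hEpd
    rw [Matrix.conjTranspose_eq_transpose_of_trivial] at h1
    rw [hSc, ← h1, ← hGb]
    exact hGpd.posSemidef
  have hSc0 : 0 < Sc.det := by
    have h1 : 0 < A.det ^ 2 := by positivity
    rw [hAdet] at h1
    exact (pos_iff_pos_of_mul_pos h1).1 hE0
  have hScR : ∀ i j, (Sc * RR) i j = bil A (b (Sum.inr i)) (e j) := by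
    intro i j
    have h1 : G * Matrix.fromRows S RR = (A * cols bv).transpose * (A * cols e) := by
      rw [hcols, hG]
      unfold gram
      simp only [Matrix.mul_assoc]
    rw [hGb, Matrix.fromBlocks_mul_fromRows] at h1
    have h2 := congrFun (congrFun h1 (Sum.inr i)) j
    rw [Matrix.fromRows_apply_inr] at h2
    have h3 : ((A * cols bv).transpose * (A * cols e)) (Sum.inr i) j =
        bil A (bv (Sum.inr i)) (e j) := by
      unfold bil
      simp only [Matrix.mul_apply, Matrix.transpose_apply, dotProduct, Matrix.mulVec, cols,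
        Matrix.of_apply]
    rw [h3] at h2
    rw [← h2, hSc, hS, Matrix.sub_mul]
    simp only [Matrix.mul_neg, Matrix.mul_assoc]
    simp only [Matrix.sub_apply, Matrix.add_apply, Matrix.neg_apply]
    ring
  have hgram2 : gram A e = -(Sc * RR) - (Sc * RR).transpose := by
    ext i j
    rw [Matrix.sub_apply, Matrix.neg_apply, Matrix.transpose_apply, hScR, hScR]
    have h0 : gram A e i j = bil A (e i) (e j) := by
      unfold gram bil
      simp only [Matrix.mul_apply, Matrix.transpose_apply, dotProduct, Matrix.mulVec, cols,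
        Matrix.of_apply]
    have h1 := isometry_bil hU (b (Sum.inr i)) (b (Sum.inr j))
    have h2 : ∀ x, U.mulVec x = T x + x := by
      intro x
      rw [hTapp, Matrix.sub_mulVec, Matrix.one_mulVec, sub_add_cancel]
    rw [h2, h2, bil_add_right, bil_comm A (T _ + _) (T _), bil_comm A (T _ + _) (b _),
      bil_add_right, bil_add_right] at h1
    have h3 : bil A (T (b (Sum.inr j))) (T (b (Sum.inr i))) = bil A (e i) (e j) :=
      bil_comm A _ _
    have h4 : bil A (b (Sum.inr j)) (b (Sum.inr i)) = bil A (b (Sum.inr i)) (b (Sum.inr j)) :=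
      bil_comm A _ _
    have h5 : bil A (T (b (Sum.inr j))) (b (Sum.inr i)) = bil A (b (Sum.inr i)) (e j) :=
      bil_comm A _ _
    have h6 : bil A (b (Sum.inr j)) (T (b (Sum.inr i))) = bil A (b (Sum.inr j)) (e i) := rfl
    rw [h3, h4, h5, h6] at h1
    rw [h0]
    linarith
  have htr : (Sc⁻¹ * gram A e).trace = 2 * ((n : ℝ) - (U.trace : ℤ)) := by
    have hScu : IsUnit Sc.det := isUnit_iff_ne_zero.2 hSc0.ne'
    have hScs : Sc.transpose = Sc := by
      have := hScps.1
      rwa [Matrix.IsHermitian, Matrix.conjTranspose_eq_transpose_of_trivial] at this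
    have h1 : RR.trace = ((R.trace : ℤ) : ℝ) := by
      simp [Matrix.trace, RR]
    rw [hgram2, Matrix.mul_sub, Matrix.mul_neg, ← Matrix.mul_assoc,
      Matrix.nonsing_inv_mul _ hScu, Matrix.one_mul, Matrix.trace_sub, Matrix.trace_neg,
      Matrix.transpose_mul, hScs, Matrix.trace_mul_comm, Matrix.mul_assoc,
      Matrix.mul_nonsing_inv _ hScu, Matrix.mul_one, Matrix.trace_transpose, h1, htrace]
    push_cast
    ring
  have hamgm : (pdet U : ℝ) ^ 2 ≤ (2 * ((n : ℝ) - (U.trace : ℤ)) / r) ^ r ∧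
      ((U.trace : ℤ) : ℝ) ≤ n := by
    obtain ⟨h0, h1⟩ := rel_det_le Sc (gram A e) hScps hSc0.ne' (gram_posSemidef A e)
    rw [htr] at h0
    rw [hedet, htr, mul_comm ((pdet U : ℝ) ^ 2)] at h1
    exact ⟨le_of_mul_le_mul_left h1 hSc0, by linarith⟩
  refine ⟨?_, hamgm⟩
  rw [hnk]
  have hA0 : 0 < |A.det| := abs_pos.2 hA
  have hn0 : (n : ℝ) ≠ 0 := by exact_mod_cast hn.ne'
  unfold inv
  rw [div_pow]
  have hden : (|A.det| ^ ((2 : ℝ) / n)) ^ n = A.det ^ 2 := by
    rw [← Real.rpow_natCast, ← Real.rpow_mul hA0.le, ← sq_abs A.det, ← Real.rpow_natCast]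
    congr 1
    push_cast
    field_simp
  rw [hden, div_le_iff₀ (by positivity)]
  exact hmain

end Pool.Agent.Lib.MP_ef2672_gt_Chain
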