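import Pool.Agent.Lib.MP_ef2672_gt_Chain.Eigen

/-!
One isometry of a nearly optimal lattice: entropy against the product of the nonzero eigenvalues,
and the gap for the trace.
-/

namespace Pool.Agent.Lib.MP_ef2672_gt_Chain

open Pool.Agent.Lib.MP_ef2672_gt_Tauber Pool.Agent.Lib.MP_ef2672_gt_Sym Filter Topology

lemma rank_le_n {n : ℕ} (V : Matrix (Fin n) (Fin n) ℤ) : V.rank ≤ n := by
  have := Matrix.rank_le_card_width V
  rwa [Fintype.card_fin] at this

theorem eigen_entropy (ε : ℝ) (hε : 0 < ε) : ∃ δ : ℝ, 0 < δ ∧ ∀ᶠ n : ℕ in atTop,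
    ∀ (A : Matrix (Fin n) (Fin n) ℝ) (U : Matrix (Fin n) (Fin n) ℤ), A.det ≠ 0 →
      (limsup c atTop - δ) * n ≤ inv A → IsIsometry A U →
      n * (Real.binEntropy ((U - 1).rank / n) - ε) ≤ 2 * Real.log (pdet U) := by
  obtain ⟨δ, hδ, h⟩ := entropy_le ε hε
  refine ⟨δ, hδ, ?_⟩
  filter_upwards [h, eventually_gt_atTop 0] with n h hn A U hA hinv hU
  obtain ⟨h1, h2, -, -⟩ := eigen_le hn hA hU
  have hr := rank_le_n (U - 1)
  have hn0 : (0 : ℝ) < n := by exact_mod_cast hn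
  have h3 : n - (n - (U - 1).rank) = (U - 1).rank := by omega
  have h4 := h A (n - (U - 1).rank) (pdet U) (by omega)
    (by exact_mod_cast Nat.one_le_iff_ne_zero.2 h1) hinv (by rw [h3]; exact h2)
  have h5 : (((n - (U - 1).rank : ℕ) : ℝ)) / n = 1 - ((U - 1).rank : ℝ) / n := by
    rw [Nat.cast_sub hr]
    field_simp
  rwa [h5, Real.binEntropy_one_sub] at h4

theorem trace_gap (ε : ℝ) (hε : 0 < ε) : ∃ δ : ℝ, 0 < δ ∧ ∀ᶠ n : ℕ in atTop,
    ∀ (A : Matrix (Fin n) (Fin n) ℝ) (U : Matrix (Fin n) (Fin n) ℤ), A.det ≠ 0 →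
      (limsup c atTop - δ) * n ≤ inv A → IsIsometry A U →
      ((U - 1).rank : ℝ) ≤ ε * n ∨ ((U.trace : ℤ) : ℝ) ≤ (1 / 2 + ε) * n := by
  obtain ⟨δ, hδ, h⟩ := eigen_entropy (2 * ε ^ 2) (by positivity)
  refine ⟨δ, hδ, ?_⟩
  filter_upwards [h, eventually_gt_atTop 0] with n h hn A U hA hinv hU
  have h1 := h A U hA hinv hU
  obtain ⟨h2, -, h3, htn⟩ := eigen_le hn hA hU
  have hr := rank_le_n (U - 1)
  set r := (U - 1).rank with hrdef
  have hn0 : (0 : ℝ) < n := by exact_mod_cast hn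
  by_cases hsmall : (r : ℝ) ≤ ε * n
  · exact Or.inl hsmall
  right
  push Not at hsmall
  have hr0 : (0 : ℝ) < r := lt_trans (by positivity) hsmall
  have hrpos : 0 < r := by exact_mod_cast hr0
  have hrn : (r : ℝ) ≤ n := by exact_mod_cast hr
  have hp1 : (1 : ℝ) ≤ pdet U := by exact_mod_cast Nat.one_le_iff_ne_zero.2 h2
  set t := ((U.trace : ℤ) : ℝ) with ht
  by_contra hcon
  push Not at hcon
  have hε2 : 0 < 1 - 2 * ε := by
    by_contra h0
    push Not at h0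
    nlinarith
  have h4 : (pdet U : ℝ) ^ 2 ≤ ((1 - 2 * ε) * n / r) ^ r := by
    refine h3.trans (pow_le_pow_left₀ ?_ ?_ r)
    · exact div_nonneg (by linarith) hr0.le
    · exact div_le_div_of_nonneg_right (by linarith) hr0.le
  have h5 := Real.log_le_log (by positivity) h4
  rw [Real.log_pow, Real.log_pow, Real.log_div (by positivity) hr0.ne',
    Real.log_mul hε2.ne' hn0.ne'] at h5
  have h6 := mul_binEntropy hn hr
  have h7 : ((n - r : ℕ) : ℝ) * Real.log ((n - r : ℕ) : ℝ) ≤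
      ((n : ℝ) - r) * Real.log n := by
    rw [← Nat.cast_sub hr]
    rcases Nat.eq_zero_or_pos (n - r) with h0 | h0
    · rw [h0]; simp
    · refine mul_le_mul_of_nonneg_left (Real.log_le_log (by exact_mod_cast h0) ?_)
        (Nat.cast_nonneg _)
      exact_mod_cast Nat.sub_le n r
  have h8 : Real.log (1 - 2 * ε) ≤ -(2 * ε) := by
    have := Real.log_le_sub_one_of_pos hε2
    linarith
  have h9 : (r : ℝ) * Real.log (1 - 2 * ε) ≤ r * -(2 * ε) :=
    mul_le_mul_of_nonneg_left h8 hr0.le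
  have h10 : (n : ℝ) * (Real.binEntropy ((r : ℝ) / n) - 2 * ε ^ 2) =
      n * Real.binEntropy ((r : ℝ) / n) - 2 * ε ^ 2 * n := by ring
  rw [h10, h6] at h1
  push_cast at h5
  have h11 : 2 * ε * (ε * n) < 2 * ε * r := mul_lt_mul_of_pos_left hsmall (by positivity)
  nlinarith

end Pool.Agent.Lib.MP_ef2672_gt_Chain
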