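import Pool.Agent.Lib.MP_ef2672_gt_Chain.Chain
import Pool.Agent.Lib.MP_ef2672_gt_Tauber.Expurgate

/-!
The entropy of a chain of lattices of fixed vectors.
-/

namespace Pool.Agent.Lib.MP_ef2672_gt_Chain

open Pool.Agent.Lib.MP_ef2672_gt_Tauber Pool.Agent.Lib.MP_ef2672_gt_Sym

lemma normSq_pos {n : ℕ} {A : Matrix (Fin n) (Fin n) ℝ} (hA : A.det ≠ 0) {w : Fin n → ℤ}
    (hw : w ≠ 0) : 0 < normSq A w := by
  refine lt_of_le_of_ne (normSq_nonneg A w) fun h => hw ?_
  have h1 : A.mulVec (fun j => (w j : ℝ)) = 0 := sum_sq_eq_zero h.symm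
  have h2 := mulVec_inj hA h1
  ext j
  have := congrFun h2 j
  simpa using this

lemma minSq_pos {n : ℕ} (hn : 0 < n) {A : Matrix (Fin n) (Fin n) ℝ} (hA : A.det ≠ 0) :
    0 < minSq A := by
  obtain ⟨w₀, hw₀⟩ := nonempty_ne_zero hn
  set r := normSq A w₀ + 1 with hr
  have hfin := finite_short A hA r
  set F := hfin.toFinset with hF
  have hw₀F : w₀ ∈ F := by
    rw [hF, Set.Finite.mem_toFinset]
    exact ⟨hw₀, by rw [hr]; linarith⟩
  obtain ⟨w₁, hw₁, hmin⟩ := F.exists_min_image (normSq A) ⟨w₀, hw₀F⟩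
  have hw₁' : w₁ ≠ 0 := by
    rw [hF, Set.Finite.mem_toFinset] at hw₁
    exact hw₁.1
  refine lt_of_lt_of_le (normSq_pos hA hw₁') (le_minSq hn A fun w hw => ?_)
  by_cases h : normSq A w < r
  · exact hmin w (by rw [hF, Set.Finite.mem_toFinset]; exact ⟨hw, h⟩)
  · have h1 := hmin w₀ hw₀F
    have h2 : normSq A w₁ ≤ normSq A w := by linarith
    exact h2

lemma inv_pos {n : ℕ} (hn : 0 < n) {A : Matrix (Fin n) (Fin n) ℝ} (hA : A.det ≠ 0) :
    0 < inv A := div_pos (minSq_pos hn hA) (Real.rpow_pos_of_pos (abs_pos.2 hA) _)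

/-- `D` lists the drops of the rank along a chain of sets of isometries which ends at `T`; the
second part is the volume inequality of such a chain. -/
def Reach {n : ℕ} (A : Matrix (Fin n) (Fin n) ℝ) (T : Set (Matrix (Fin n) (Fin n) ℤ))
    (D : List ℕ) : Prop :=
  D.sum + fixRank T = n ∧ (minSq A / 4) ^ D.sum * vol2 A (fixedLattice T) ≤
    (D.map fun d => gamma d ^ d).prod * A.det ^ 2

lemma reach_base {n : ℕ} (A : Matrix (Fin n) (Fin n) ℝ) {T : Set (Matrix (Fin n) (Fin n) ℤ)}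
    (hT : ∀ U ∈ T, U = 1) : Reach A T [] := by
  have h1 : fixedLattice T = ⊤ := by
    rw [eq_top_iff]
    intro x _ U hU
    rw [hT U hU, Matrix.one_mulVec]
  refine ⟨?_, ?_⟩
  · unfold fixRank
    rw [h1, finrank_top, Module.finrank_fin_fun]
    simp
  · rw [h1, vol2_top]
    simp

lemma prod_nonneg' (D : List ℕ) : 0 ≤ (D.map fun d => gamma d ^ d).prod := by
  induction D with
  | nil => simp
  | cons d D ih =>
    rw [List.map_cons, List.prod_cons]
    exact mul_nonneg (pow_nonneg (gamma_nonneg d) d) ih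

lemma reach_cons {n : ℕ} {A : Matrix (Fin n) (Fin n) ℝ} (hA : A.det ≠ 0)
    {S T : Set (Matrix (Fin n) (Fin n) ℤ)} {D : List ℕ} (h : Reach A S D) (hST : S ⊆ T)
    (hT : ∀ U ∈ T, IsIsometry A U) : Reach A T ((fixRank S - fixRank T) :: D) := by
  obtain ⟨h1, h2⟩ := h
  have h3 := fixRank_anti hST
  have h4 := chain_step hA hST hT
  have hm : 0 ≤ minSq A / 4 := by have := minSq_nonneg A; positivity
  refine ⟨?_, ?_⟩
  · rw [List.sum_cons]; omega
  · rw [List.sum_cons, List.map_cons, List.prod_cons, pow_add]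
    set d := fixRank S - fixRank T
    have h5 : 0 ≤ gamma d ^ d := pow_nonneg (gamma_nonneg d) d
    calc (minSq A / 4) ^ d * (minSq A / 4) ^ D.sum * vol2 A (fixedLattice T)
        = (minSq A / 4) ^ D.sum * ((minSq A / 4) ^ d * vol2 A (fixedLattice T)) := by ring
      _ ≤ (minSq A / 4) ^ D.sum * (gamma d ^ d * vol2 A (fixedLattice S)) :=
          mul_le_mul_of_nonneg_left h4 (pow_nonneg hm _)
      _ = gamma d ^ d * ((minSq A / 4) ^ D.sum * vol2 A (fixedLattice S)) := by ring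
      _ ≤ gamma d ^ d * ((D.map fun d => gamma d ^ d).prod * A.det ^ 2) :=
          mul_le_mul_of_nonneg_left h2 h5
      _ = _ := by ring

lemma gamma_pow_le_self (d : ℕ) : gamma d ^ d ≤ (d : ℝ) ^ d := by
  rcases Nat.eq_zero_or_pos d with rfl | hd
  · simp
  · exact pow_le_pow_left₀ (gamma_nonneg d) (gamma_le hd) d

lemma self_pow_pos (d : ℕ) : (0 : ℝ) < (d : ℝ) ^ d := by
  rcases Nat.eq_zero_or_pos d with rfl | hd
  · simp
  · positivity

lemma list_log (D : List ℕ) : 0 < (D.map fun d : ℕ => (d : ℝ) ^ d).prod ∧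
    Real.log (D.map fun d : ℕ => (d : ℝ) ^ d).prod = (D.map fun d : ℕ => (d : ℝ) * Real.log d).sum ∧
    (D.map fun d => gamma d ^ d).prod ≤ (D.map fun d : ℕ => (d : ℝ) ^ d).prod := by
  induction D with
  | nil => simp
  | cons d D ih =>
    obtain ⟨h1, h2, h3⟩ := ih
    simp only [List.map_cons, List.prod_cons, List.sum_cons]
    have h4 := self_pow_pos d
    refine ⟨mul_pos h4 h1, ?_, ?_⟩
    · rw [Real.log_mul h4.ne' h1.ne', h2, Real.log_pow]
    · exact mul_le_mul (gamma_pow_le_self d) h3 (prod_nonneg' D) h4.le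

lemma list_log_div {n : ℕ} (hn : 0 < n) (D : List ℕ) :
    (D.map fun d : ℕ => (d : ℝ) * Real.log (n / d)).sum =
      (D.sum : ℝ) * Real.log n - (D.map fun d : ℕ => (d : ℝ) * Real.log d).sum := by
  have hn0 : (n : ℝ) ≠ 0 := by exact_mod_cast hn.ne'
  induction D with
  | nil => simp
  | cons d D ih =>
    simp only [List.map_cons, List.sum_cons]
    rw [ih]
    rcases Nat.eq_zero_or_pos d with rfl | hd
    · simp
    · have hd0 : (d : ℝ) ≠ 0 := by exact_mod_cast hd.ne'
      rw [Real.log_div hn0 hd0]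
      push_cast
      ring

/-- The entropy inequality of a chain. -/
theorem reach_entropy {n : ℕ} (hn : 0 < n) {A : Matrix (Fin n) (Fin n) ℝ} (hA : A.det ≠ 0)
    {T : Set (Matrix (Fin n) (Fin n) ℤ)} {D : List ℕ} (h : Reach A T D) :
    (D.map fun d : ℕ => (d : ℝ) * Real.log (n / d)).sum ≤ n * Real.log (4 * n / inv A) := by
  obtain ⟨h1, h2⟩ := h
  set k := fixRank T with hk
  have h3 := minSq_pow_le hA (fixedLattice T) (k := k) rfl
  have hv : 0 < vol2 A (fixedLattice T) := vol2_pos hA _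
  have hm := minSq_pos hn hA
  obtain ⟨p1, p2, p3⟩ := list_log D
  have hn0 : (0 : ℝ) < n := by exact_mod_cast hn
  have hdet2 : 0 < A.det ^ 2 := by positivity
  have h4 : (minSq A / 4) ^ D.sum * minSq A ^ k ≤
      (D.map fun d : ℕ => (d : ℝ) ^ d).prod * (k : ℝ) ^ k * A.det ^ 2 := by
    calc (minSq A / 4) ^ D.sum * minSq A ^ k
        ≤ (minSq A / 4) ^ D.sum * (gamma k ^ k * vol2 A (fixedLattice T)) :=
          mul_le_mul_of_nonneg_left h3 (by positivity)
      _ = gamma k ^ k * ((minSq A / 4) ^ D.sum * vol2 A (fixedLattice T)) := by ring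
      _ ≤ gamma k ^ k * ((D.map fun d => gamma d ^ d).prod * A.det ^ 2) :=
          mul_le_mul_of_nonneg_left h2 (pow_nonneg (gamma_nonneg _) _)
      _ ≤ (k : ℝ) ^ k * ((D.map fun d : ℕ => (d : ℝ) ^ d).prod * A.det ^ 2) :=
          mul_le_mul (gamma_pow_le_self k) (mul_le_mul_of_nonneg_right p3 hdet2.le)
            (mul_nonneg (prod_nonneg' D) hdet2.le) (self_pow_pos k).le
      _ = _ := by ring
  have h5 : minSq A ^ n ≤ 4 ^ n *
      ((D.map fun d : ℕ => (d : ℝ) ^ d).prod * (k : ℝ) ^ k * A.det ^ 2) := by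
    have h6 : minSq A ^ n = 4 ^ D.sum * ((minSq A / 4) ^ D.sum * minSq A ^ k) := by
      have h6' : minSq A ^ n = minSq A ^ (D.sum + k) := congrArg (fun m => minSq A ^ m) h1.symm
      rw [div_pow, h6', pow_add]
      field_simp
    rw [h6]
    have h7 : (4 : ℝ) ^ D.sum ≤ 4 ^ n := pow_le_pow_right₀ (by norm_num) (by omega)
    exact mul_le_mul h7 h4 (by positivity) (by positivity)
  have hinv : inv A ^ n * A.det ^ 2 = minSq A ^ n := by
    have hA0 : 0 < |A.det| := abs_pos.2 hA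
    unfold inv
    rw [div_pow]
    have hden : (|A.det| ^ ((2 : ℝ) / n)) ^ n = A.det ^ 2 := by
      rw [← Real.rpow_natCast, ← Real.rpow_mul hA0.le, ← sq_abs A.det, ← Real.rpow_natCast]
      congr 1
      push_cast
      field_simp
    rw [hden, div_mul_cancel₀ _ hdet2.ne']
  have hi := inv_pos hn hA
  have h8 : inv A ^ n ≤ 4 ^ n * ((D.map fun d : ℕ => (d : ℝ) ^ d).prod * (k : ℝ) ^ k) := by
    rw [← hinv] at h5
    refine le_of_mul_le_mul_right (h5.trans (le_of_eq ?_)) hdet2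
    ring
  have h9 := Real.log_le_log (by positivity) h8
  have hkp := self_pow_pos k
  rw [Real.log_pow, Real.log_mul (by positivity) (by positivity), Real.log_mul p1.ne' hkp.ne',
    p2, Real.log_pow, Real.log_pow] at h9
  rw [list_log_div hn, Real.log_div (by positivity) hi.ne', Real.log_mul (by norm_num) hn0.ne']
  have h10 : (k : ℝ) * Real.log k ≤ k * Real.log n := by
    rcases Nat.eq_zero_or_pos k with h0 | h0
    · rw [h0]; simp
    · refine mul_le_mul_of_nonneg_left (Real.log_le_log (by exact_mod_cast h0) ?_) (by positivity)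
      exact_mod_cast (by omega : k ≤ n)
  have h11 : (D.sum : ℝ) + k = n := by exact_mod_cast h1
  have h12 : (D.sum : ℝ) * Real.log n = n * Real.log n - k * Real.log n := by
    rw [← h11]; ring
  rw [h12]
  linarith

end Pool.Agent.Lib.MP_ef2672_gt_Chain
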