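import Pool.Agent.Lib.MP_ef2672_gt_Chain.Order
import Pool.Agent.Lib.MP_ef2672_gt_Tauber.Super

/-!
Lattices with many commuting isometries of order two.
-/

namespace Pool.Agent.Lib.MP_ef2672_gt_Chain

open Pool.Agent.Lib.MP_ef2672_gt_Tauber Pool.Agent.Lib.MP_ef2672_gt_Sym

/-- A lattice of minimum at least one and small determinant in every dimension. -/
lemma exists_small_det (m : ℕ) : ∃ B : Matrix (Fin m) (Fin m) ℝ, B.det ≠ 0 ∧
    (∀ w : Fin m → ℤ, w ≠ 0 → 1 ≤ ∑ i, (Matrix.mulVec B (fun j => (w j : ℝ))) i ^ 2) ∧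
    |B.det| ^ 2 * (m : ℝ) ^ m ≤ 1153 ^ m := by
  rcases Nat.eq_zero_or_pos m with rfl | hm
  · exact ⟨1, by simp, fun w hw => absurd (Subsingleton.elim _ _) hw, by simp⟩
  have hm0 : (0 : ℝ) < m := by exact_mod_cast hm
  have hlt : (m : ℝ) / 1153 < gamma m := by
    have h := gamma_ge hm
    have h' : (m : ℝ) / 1153 < (m : ℝ) / 576 := by
      apply div_lt_div_of_pos_left hm0 <;> norm_num
    linarith
  have : Nonempty {A : Matrix (Fin m) (Fin m) ℝ // A.det ≠ 0} := ⟨⟨1, by simp⟩⟩
  obtain ⟨⟨B0, hB0⟩, hB1⟩ := exists_lt_of_lt_ciSup hlt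
  simp only at hB1
  set a := minSq B0 with ha
  have ha0 : 0 < a := minSq_pos hm hB0
  set t : ℝ := 1 / Real.sqrt a with ht
  have ht0 : 0 < t := by rw [ht]; positivity
  have hta : t ^ 2 * a = 1 := by
    rw [ht, div_pow, Real.sq_sqrt ha0.le]; field_simp
  have hd0 : 0 < |B0.det| := abs_pos.2 hB0
  have hdet : (t • B0).det = t ^ m * B0.det := by
    rw [Matrix.det_smul, Fintype.card_fin]
  refine ⟨t • B0, ?_, ?_, ?_⟩
  · rw [hdet]
    have := pow_pos ht0 m
    positivity
  · intro w hw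
    have h1 := minSq_smul hm B0 t
    rw [← ha, hta] at h1
    exact h1.trans (minSq_le _ w hw)
  · rw [hdet, abs_mul, abs_of_pos (pow_pos ht0 m), mul_pow]
    -- inv B0 = a / D ^ (2/m)
    have hinv : inv B0 = a / |B0.det| ^ ((2 : ℝ) / m) := rfl
    have hD : (|B0.det| ^ ((2 : ℝ) / m)) ^ m = |B0.det| ^ 2 := by
      rw [← Real.rpow_natCast, ← Real.rpow_mul hd0.le]
      have : (2 : ℝ) / m * m = (2 : ℕ) := by push_cast; field_simp
      rw [this, Real.rpow_natCast]
    have hE : 0 < |B0.det| ^ ((2 : ℝ) / m) := Real.rpow_pos_of_pos hd0 _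
    rw [hinv, lt_div_iff₀ hE] at hB1
    have h2 : (m : ℝ) / 1153 * |B0.det| ^ ((2 : ℝ) / m) ≤ a := hB1.le
    have h3 : ((m : ℝ) / 1153 * |B0.det| ^ ((2 : ℝ) / m)) ^ m ≤ a ^ m :=
      pow_le_pow_left₀ (by positivity) h2 m
    rw [mul_pow, hD, div_pow] at h3
    have h4 : (t ^ m) ^ 2 * a ^ m = 1 := by
      rw [← pow_mul, mul_comm m 2, pow_mul, ← mul_pow, hta, one_pow]
    have h5 : (t ^ m) ^ 2 * ((m : ℝ) ^ m / 1153 ^ m * |B0.det| ^ 2) ≤ 1 := by
      rw [← h4]
      exact mul_le_mul_of_nonneg_left h3 (by positivity)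
    have h6 : (0 : ℝ) < 1153 ^ m := by positivity
    calc (t ^ m) ^ 2 * |B0.det| ^ 2 * (m : ℝ) ^ m
        = ((t ^ m) ^ 2 * ((m : ℝ) ^ m / 1153 ^ m * |B0.det| ^ 2)) * 1153 ^ m := by
          field_simp
      _ ≤ 1 * 1153 ^ m := mul_le_mul_of_nonneg_right h5 h6.le
      _ = 1153 ^ m := one_mul _

lemma minSq_direct_one {r m : ℕ} (hpos : 0 < r + m) (B : Matrix (Fin m) (Fin m) ℝ)
    (hB : ∀ w : Fin m → ℤ, w ≠ 0 → 1 ≤ ∑ i, (Matrix.mulVec B (fun j => (w j : ℝ))) i ^ 2) :
    1 ≤ minSq (direct (1 : Matrix (Fin r) (Fin r) ℝ) B) := by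
  refine le_minSq hpos _ fun w hw => ?_
  rw [direct_sq]
  by_cases h2 : (fun j => w (Fin.natAdd r j)) = 0
  · have h1 : (fun j => w (Fin.castAdd m j)) ≠ 0 := by
      intro h1
      apply hw
      ext i
      refine Fin.addCases (fun j => ?_) (fun j => ?_) i
      · exact congrFun h1 j
      · exact congrFun h2 j
    obtain ⟨j, hj⟩ := Function.ne_iff.1 h1
    have h3 : 0 ≤ ∑ i, (Matrix.mulVec B (fun j => (w (Fin.natAdd r j) : ℝ))) i ^ 2 :=
      Finset.sum_nonneg fun i _ => sq_nonneg _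
    have h4 : (1 : ℝ) ≤ (w (Fin.castAdd m j) : ℝ) ^ 2 := by
      have h5 : (1 : ℤ) ≤ w (Fin.castAdd m j) ^ 2 := by
        have : w (Fin.castAdd m j) ≠ 0 := hj
        have := sq_pos_of_ne_zero this
        omega
      exact_mod_cast h5
    have h6 : (w (Fin.castAdd m j) : ℝ) ^ 2 ≤
        ∑ i, (Matrix.mulVec (1 : Matrix (Fin r) (Fin r) ℝ)
          (fun j => (w (Fin.castAdd m j) : ℝ))) i ^ 2 := by
      rw [Matrix.one_mulVec]
      exact Finset.single_le_sum (f := fun i => ((w (Fin.castAdd m i) : ℝ)) ^ 2)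
        (fun i _ => sq_nonneg _) (Finset.mem_univ j)
    linarith
  · have h3 := hB (fun j => w (Fin.natAdd r j)) h2
    have h4 : 0 ≤ ∑ i, (Matrix.mulVec (1 : Matrix (Fin r) (Fin r) ℝ)
        (fun j => (w (Fin.castAdd m j) : ℝ))) i ^ 2 :=
      Finset.sum_nonneg fun i _ => sq_nonneg _
    linarith

/-- The block diagonal integer matrix with signs in the first block. -/
def signMat (r m : ℕ) (ε : Fin r → ℤˣ) : Matrix (Fin (r + m)) (Fin (r + m)) ℤ :=
  (Matrix.fromBlocks (Matrix.diagonal fun i => (ε i : ℤ)) 0 0 1).submatrix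
    finSumFinEquiv.symm finSumFinEquiv.symm

lemma signMat_mul {r m : ℕ} (ε δ : Fin r → ℤˣ) :
    signMat r m ε * signMat r m δ = signMat r m (ε * δ) := by
  unfold signMat
  rw [Matrix.submatrix_mul_equiv, Matrix.fromBlocks_multiply]
  congr 1
  simp [Matrix.diagonal_mul_diagonal]

lemma signMat_one {r m : ℕ} : signMat r m 1 = 1 := by
  unfold signMat
  have : (Matrix.diagonal fun i : Fin r => (((1 : Fin r → ℤˣ) i : ℤˣ) : ℤ)) = 1 := by
    simp
  rw [this, Matrix.fromBlocks_one, Matrix.submatrix_one_equiv]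

lemma signMat_injective {r m : ℕ} : Function.Injective (signMat r m) := by
  intro ε δ h
  ext i
  have h1 := congrFun (congrFun h (finSumFinEquiv (Sum.inl i))) (finSumFinEquiv (Sum.inl i))
  simp only [signMat, Matrix.submatrix_apply, Equiv.symm_apply_apply,
    Matrix.fromBlocks_apply₁₁, Matrix.diagonal_apply_eq] at h1
  exact h1

lemma signMat_isometry {r m : ℕ} (B : Matrix (Fin m) (Fin m) ℝ) (ε : Fin r → ℤˣ) :
    IsIsometry (direct (1 : Matrix (Fin r) (Fin r) ℝ) B) (signMat r m ε) := by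
  unfold IsIsometry
  have hU : (signMat r m ε).map (Int.cast : ℤ → ℝ) =
      (Matrix.fromBlocks (Matrix.diagonal fun i => ((ε i : ℤ) : ℝ)) 0 0 1).submatrix
        finSumFinEquiv.symm finSumFinEquiv.symm := by
    unfold signMat
    rw [← Matrix.submatrix_map, Matrix.fromBlocks_map]
    congr 1
    congr 1
    · rw [Matrix.diagonal_map (by simp)]
    · ext i j; simp
    · ext i j; simp
    · ext i j
      by_cases h : i = j <;> simp [Matrix.one_apply, h]
  have hsq : ∀ i, ((ε i : ℤ) : ℝ) * ((ε i : ℤ) : ℝ) = 1 := by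
    intro i
    rcases Int.units_eq_one_or (ε i) with h | h <;> simp [h]
  rw [hU]
  unfold direct
  rw [Matrix.submatrix_mul_equiv, Matrix.transpose_submatrix, Matrix.transpose_submatrix,
    Matrix.submatrix_mul_equiv, Matrix.submatrix_mul_equiv]
  congr 1
  rw [Matrix.fromBlocks_multiply, Matrix.fromBlocks_transpose, Matrix.fromBlocks_transpose,
    Matrix.fromBlocks_multiply, Matrix.fromBlocks_multiply]
  congr 1
  · simp only [Matrix.one_mul, Matrix.mul_zero, Matrix.zero_mul, add_zero,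
      Matrix.diagonal_transpose, Matrix.diagonal_mul_diagonal, Matrix.transpose_zero,
      Matrix.transpose_one]
    rw [show (fun i => ((ε i : ℤ) : ℝ) * ((ε i : ℤ) : ℝ)) = fun _ => 1 from funext hsq]
    exact Matrix.diagonal_one
  · simp
  · simp
  · simp

theorem example_lower : ∃ c : ℝ, 0 < c ∧ ∀ n r : ℕ, 0 < n → r ≤ n →
    ∃ A : Matrix (Fin n) (Fin n) ℝ, A.det ≠ 0 ∧
      c * (n : ℝ) ^ (1 - (r : ℝ) / n) ≤ inv A ∧
      ∃ S : Finset (Matrix (Fin n) (Fin n) ℤ), S.card = 2 ^ r ∧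
        (∀ U ∈ S, IsIsometry A U ∧ U * U = 1) ∧ ∀ U ∈ S, ∀ V ∈ S, U * V = V * U := by
  refine ⟨1 / 1153, by norm_num, fun n r hn hr => ?_⟩
  obtain ⟨m, rfl⟩ := Nat.exists_eq_add_of_le hr
  obtain ⟨B, hB0, hB1, hB2⟩ := exists_small_det m
  have hn0 : (0 : ℝ) < ((r + m : ℕ) : ℝ) := by exact_mod_cast hn
  have hd0 : 0 < |B.det| := abs_pos.2 hB0
  refine ⟨direct 1 B, ?_, ?_, Finset.univ.image (signMat r m), ?_, ?_, ?_⟩
  · rw [direct_det, Matrix.det_one, one_mul]; exact hB0
  · have h1 := minSq_direct_one hn B hB1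
    have hinv : inv (direct (1 : Matrix (Fin r) (Fin r) ℝ) B) =
        minSq (direct (1 : Matrix (Fin r) (Fin r) ℝ) B) /
          |(direct (1 : Matrix (Fin r) (Fin r) ℝ) B).det| ^ ((2 : ℝ) / ((r + m : ℕ) : ℝ)) := rfl
    rw [hinv, direct_det, Matrix.det_one, one_mul]
    set N : ℝ := ((r + m : ℕ) : ℝ) with hN
    have hE : 0 < |B.det| ^ ((2 : ℝ) / N) := Real.rpow_pos_of_pos hd0 _
    refine le_trans ?_ (div_le_div_of_nonneg_right h1 hE.le)
    rw [le_div_iff₀ hE]
    have hx : 1 - (r : ℝ) / N = (m : ℝ) / N := by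
      rw [hN]; push_cast
      rw [hN] at hn0
      push_cast at hn0
      field_simp
      ring
    rw [hx]
    rcases Nat.eq_zero_or_pos m with hm | hm
    · subst hm
      have : |B.det| = 1 := by simp
      rw [this]
      norm_num
    · have hm0 : (0 : ℝ) < m := by exact_mod_cast hm
      have hmN : (m : ℝ) ≤ N := by rw [hN]; push_cast; linarith [Nat.cast_nonneg (α := ℝ) r]
      have hNp : 0 < N := hn0
      -- logarithms
      refine (Real.log_nonpos_iff (by positivity)).1 ?_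
      rw [Real.log_mul (by positivity) (by positivity),
        Real.log_mul (by norm_num) (by positivity), Real.log_rpow hNp, Real.log_rpow hd0,
        one_div, Real.log_inv]
      have h2 : 2 * Real.log |B.det| + m * Real.log m ≤ m * Real.log 1153 := by
        have h := Real.log_le_log (by positivity) hB2
        rw [Real.log_mul (by positivity) (by positivity), Real.log_pow, Real.log_pow,
          Real.log_pow] at h
        exact_mod_cast h
      have h3 : Real.log N - Real.log m ≤ N / m - 1 := by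
        rw [← Real.log_div hNp.ne' hm0.ne']
        exact Real.log_le_sub_one_of_pos (by positivity)
      have h4 : 1 ≤ Real.log 1153 := by
        rw [Real.le_log_iff_exp_le (by norm_num)]
        have := Real.exp_one_lt_d9
        linarith
      have h5 : m * (Real.log N - Real.log m) ≤ N - m := by
        have := mul_le_mul_of_nonneg_left h3 hm0.le
        have e : (m : ℝ) * (N / m - 1) = N - m := by field_simp
        linarith
      have h6 : N * (-Real.log 1153 + (m : ℝ) / N * Real.log N + 2 / N * Real.log |B.det|) ≤ 0 := by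
        have e : N * (-Real.log 1153 + (m : ℝ) / N * Real.log N + 2 / N * Real.log |B.det|) =
            -N * Real.log 1153 + m * Real.log N + 2 * Real.log |B.det| := by field_simp
        rw [e]
        nlinarith
      by_contra hcon
      push Not at hcon
      have := mul_pos hNp hcon
      linarith
  · rw [Finset.card_image_of_injective _ signMat_injective, Finset.card_univ]
    simp
  · intro U hU
    obtain ⟨ε, -, rfl⟩ := Finset.mem_image.1 hU
    refine ⟨signMat_isometry B ε, ?_⟩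
    rw [signMat_mul]
    have : ε * ε = 1 := by
      ext i
      simp
    rw [this, signMat_one]
  · intro U hU V hV
    obtain ⟨ε, -, rfl⟩ := Finset.mem_image.1 hU
    obtain ⟨δ, -, rfl⟩ := Finset.mem_image.1 hV
    rw [signMat_mul, signMat_mul, mul_comm]

end Pool.Agent.Lib.MP_ef2672_gt_Chain
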