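import Pool.Agent.Lib.MP_ef2672_gt_Chain.Concentration

/-!
Lattices which are nearly optimal for Hermite's constant: sets of isometries move almost nothing
or almost half of the space.
-/

namespace Pool.Agent.Lib.MP_ef2672_gt_Chain

open Pool.Agent.Lib.MP_ef2672_gt_Tauber Pool.Agent.Lib.MP_ef2672_gt_Sym Filter Topology

/-- The inequality for one set of isometries. -/
lemma single_le {n : ℕ} (hn : 0 < n) {A : Matrix (Fin n) (Fin n) ℝ} (hA : A.det ≠ 0)
    {S : Set (Matrix (Fin n) (Fin n) ℤ)} (hS : ∀ U ∈ S, IsIsometry A U) :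
    inv A ^ n ≤ ((2 : ℝ) ^ (n - fixRank S)) ^ 2 * (gamma (fixRank S) ^ fixRank S *
      gamma (n - fixRank S) ^ (n - fixRank S)) := by
  let T : ℕ → Set (Matrix (Fin n) (Fin n) ℤ) := fun i => if i = 0 then ∅ else S
  have h := chain_le hn hA (S := T) (fun i => by
    by_cases hi : i = 0
    · simp [T, hi]
    · simp [T, hi]) (by simp [T]) (fun i U hU => by
    by_cases hi : i = 0
    · simp [T, hi] at hU
    · simp only [T, hi, if_false] at hU
      exact hS U hU) 1
  have hT0 : T 0 = ∅ := by simp [T]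
  have hT1 : T 1 = S := by simp [T]
  rw [Finset.prod_range_one, zero_add, hT0, hT1, fixRank_empty] at h
  refine h.trans (le_of_eq ?_)
  have h4 : (4 : ℝ) ^ (n - fixRank S) = ((2 : ℝ) ^ (n - fixRank S)) ^ 2 := by
    rw [← pow_mul, mul_comm _ 2, pow_mul]
    norm_num
  rw [h4]
  ring

/-- A set of isometries of a nearly optimal lattice moves almost nothing or almost one half. -/
theorem set_dichotomy (ε : ℝ) (hε : 0 < ε) : ∃ δ : ℝ, 0 < δ ∧ ∀ᶠ n : ℕ in atTop,
    ∀ (A : Matrix (Fin n) (Fin n) ℝ) (S : Set (Matrix (Fin n) (Fin n) ℤ)),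
      A.det ≠ 0 → (limsup c atTop - δ) * n ≤ inv A → (∀ U ∈ S, IsIsometry A U) →
      (n : ℝ) - fixRank S ≤ ε * n ∨ (1 / 2 - ε) * n ≤ (n : ℝ) - fixRank S := by
  obtain ⟨μ, hμ, hgap⟩ := binEntropy_gap ε hε
  obtain ⟨δ, hδ, h⟩ := entropy_le (μ / 2) (by positivity)
  refine ⟨δ, hδ, ?_⟩
  filter_upwards [h, eventually_gt_atTop 0] with n h hn A S hA hinv hS
  have hn0 : (0 : ℝ) < n := by exact_mod_cast hn
  set k := fixRank S with hk
  have hkn : k ≤ n := fixRank_le S
  have hkn' : (k : ℝ) ≤ n := by exact_mod_cast hkn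
  have h1 := h A k ((2 : ℝ) ^ (n - k)) hkn (one_le_pow₀ (by norm_num)) hinv (single_le hn hA hS)
  rw [Real.log_pow, Nat.cast_sub hkn] at h1
  by_contra hcon
  push Not at hcon
  obtain ⟨c1, c2⟩ := hcon
  have hlog2 : 0 < Real.log 2 := Real.log_pos (by norm_num)
  by_cases hbig : (k : ℝ) / n ≤ 1 / 2
  · rw [div_le_iff₀ hn0] at hbig
    have : (1 / 2 - ε) * n ≤ (n : ℝ) - k := by nlinarith
    linarith
  · push Not at hbig
    rw [lt_div_iff₀ hn0] at hbig
    by_cases hsmall : (k : ℝ) / n ≤ 1 / 2 + ε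
    · rw [div_le_iff₀ hn0] at hsmall
      have : (1 / 2 - ε) * n ≤ (n : ℝ) - k := by linarith
      linarith
    · push Not at hsmall
      rw [lt_div_iff₀ hn0] at hsmall
      have h2 := hgap ((k : ℝ) / n) (by rw [le_div_iff₀ hn0]; nlinarith)
        (by rw [div_le_iff₀ hn0]; linarith)
        (by
          rw [le_abs]
          left
          rw [le_sub_iff_add_le, le_div_iff₀ hn0]
          linarith)
      have h3 : min ((k : ℝ) / n) (1 - (k : ℝ) / n) = 1 - (k : ℝ) / n := by
        apply min_eq_right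
        rw [sub_le_iff_le_add, ← add_div, le_div_iff₀ hn0]
        linarith
      rw [h3] at h2
      have h4 := mul_le_mul_of_nonneg_left h2 hn0.le
      have h5 : (n : ℝ) * (2 * (1 - (k : ℝ) / n) * Real.log 2 + μ) =
          2 * ((n : ℝ) - k) * Real.log 2 + n * μ := by field_simp
      rw [h5] at h4
      have h6 : (n : ℝ) * (Real.binEntropy ((k : ℝ) / n) - μ / 2) =
          n * Real.binEntropy ((k : ℝ) / n) - n * μ / 2 := by ring
      rw [h6] at h1
      have h7 : 0 < (n : ℝ) * μ := by positivity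
      linarith

/-- In a nearly optimal lattice all isometries which move at most `(1/2 - ε) n` dimensions act
trivially on a common sublattice of rank at least `(1 - ε) n`. -/
theorem small_common (ε : ℝ) (hε : 0 < ε) : ∃ δ : ℝ, 0 < δ ∧ ∀ᶠ n : ℕ in atTop,
    ∀ (A : Matrix (Fin n) (Fin n) ℝ), A.det ≠ 0 → (limsup c atTop - δ) * n ≤ inv A →
      (1 - ε) * n ≤ fixRank {U : Matrix (Fin n) (Fin n) ℤ |
        IsIsometry A U ∧ ((U - 1).rank : ℝ) ≤ (1 / 2 - ε) * n} := by
  classical
  set η := min ε (1 / 8) / 2 with hη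
  have hη0 : 0 < η := by
    have : 0 < min ε (1 / 8) := lt_min hε (by norm_num)
    positivity
  have hηε : η < ε := by
    have h1 : min ε (1 / 8) ≤ ε := min_le_left _ _
    rw [hη]; linarith
  have hη1 : η ≤ 1 / 16 := by
    have h1 : min ε (1 / 8) ≤ 1 / 8 := min_le_right _ _
    rw [hη]; linarith
  obtain ⟨δ, hδ, h⟩ := set_dichotomy η hη0
  refine ⟨δ, hδ, ?_⟩
  filter_upwards [h, eventually_gt_atTop 0] with n h hn A hA hinv
  have hn0 : (0 : ℝ) < n := by exact_mod_cast hn
  have hfin : {U : Matrix (Fin n) (Fin n) ℤ |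
      IsIsometry A U ∧ ((U - 1).rank : ℝ) ≤ (1 / 2 - ε) * n}.Finite :=
    (finite_iso hA).subset fun U hU => hU.1
  have key : ∀ T : Finset (Matrix (Fin n) (Fin n) ℤ),
      (∀ U ∈ T, IsIsometry A U ∧ ((U - 1).rank : ℝ) ≤ (1 / 2 - ε) * n) →
      (n : ℝ) - fixRank (T : Set (Matrix (Fin n) (Fin n) ℤ)) ≤ η * n := by
    intro T
    induction T using Finset.induction_on with
    | empty =>
      intro _
      rw [Finset.coe_empty, fixRank_empty, sub_self]
      positivity
    | insert U T hU ih =>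
      intro hT
      have h1 := ih fun V hV => hT V (Finset.mem_insert_of_mem hV)
      obtain ⟨hU1, hU2⟩ := hT U (Finset.mem_insert_self U T)
      have hsing : ((U - 1).rank : ℝ) ≤ η * n := by
        have h2 := h A {U} hA hinv (by rintro V rfl; exact hU1)
        have h3 : (fixRank {U} : ℝ) + (U - 1).rank = n := by exact_mod_cast fixRank_singleton U
        have h4 : (n : ℝ) - fixRank {U} = (U - 1).rank := by linarith
        rw [h4] at h2
        rcases h2 with h2 | h2
        · exact h2
        · exfalso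
          have : (1 / 2 - ε) * (n : ℝ) < (1 / 2 - η) * n :=
            mul_lt_mul_of_pos_right (by linarith) hn0
          linarith
      have h5 : (fixRank (T : Set (Matrix (Fin n) (Fin n) ℤ)) : ℝ) ≤
          fixRank (insert U (T : Set (Matrix (Fin n) (Fin n) ℤ))) + (U - 1).rank := by
        exact_mod_cast fixRank_insert U (T : Set (Matrix (Fin n) (Fin n) ℤ))
      have h6 := h A (insert U (T : Set (Matrix (Fin n) (Fin n) ℤ))) hA hinv (by
        intro V hV
        have : V ∈ insert U T := by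
          rw [← Finset.mem_coe, Finset.coe_insert]; exact hV
        exact (hT V this).1)
      rw [Finset.coe_insert]
      rcases h6 with h6 | h6
      · exact h6
      · exfalso
        have h7 : (1 / 2 - η) * (n : ℝ) ≤ η * n + η * n := by linarith
        nlinarith
  have h1 := key hfin.toFinset (by simp)
  rw [Set.Finite.coe_toFinset] at h1
  have h2 : η * (n : ℝ) < ε * n := mul_lt_mul_of_pos_right hηε hn0
  linarith

end Pool.Agent.Lib.MP_ef2672_gt_Chain
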