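import Pool.Agent.Lib.MP_ef2672_gt_Chain.Invol

/-!
Hermite's constant restricted to lattices with many isometries.
-/

namespace Pool.Agent.Lib.MP_ef2672_gt_Chain

open Pool.Agent.Lib.MP_ef2672_gt_Tauber Pool.Agent.Lib.MP_ef2672_gt_Sym

/-- The number of isometries of the lattice `A ℤⁿ`, that is, the order of its automorphism
group. -/
noncomputable def isoCount {n : ℕ} (A : Matrix (Fin n) (Fin n) ℝ) : ℕ :=
  Nat.card {U : Matrix (Fin n) (Fin n) ℤ // IsIsometry A U}

/-- The lattice `A ℤⁿ` has at least `2^r` commuting isometries of order at most two. -/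
def HasInvolutions {n : ℕ} (r : ℕ) (A : Matrix (Fin n) (Fin n) ℝ) : Prop :=
  ∃ S : Finset (Matrix (Fin n) (Fin n) ℤ), 2 ^ r ≤ S.card ∧
    (∀ U ∈ S, IsIsometry A U ∧ U * U = 1) ∧ ∀ U ∈ S, ∀ V ∈ S, U * V = V * U

/-- The lattice `A ℤⁿ` has at least `N` pairwise commuting isometries. -/
def HasCommuting {n : ℕ} (N : ℕ) (A : Matrix (Fin n) (Fin n) ℝ) : Prop :=
  ∃ S : Finset (Matrix (Fin n) (Fin n) ℤ), N ≤ S.card ∧
    (∀ U ∈ S, IsIsometry A U) ∧ ∀ U ∈ S, ∀ V ∈ S, U * V = V * U

/-- Hermite's constant restricted to the lattices with at least `N` isometries. -/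
noncomputable def gammaSym (N n : ℕ) : ℝ :=
  ⨆ A : {A : Matrix (Fin n) (Fin n) ℝ // A.det ≠ 0 ∧ N ≤ isoCount A}, inv A.1

/-- Hermite's constant restricted to the lattices with at least `N` pairwise commuting
isometries. -/
noncomputable def gammaComm (N n : ℕ) : ℝ :=
  ⨆ A : {A : Matrix (Fin n) (Fin n) ℝ // A.det ≠ 0 ∧ HasCommuting N A}, inv A.1

/-- Hermite's constant restricted to the lattices with at least `2^r` commuting isometries of order
at most two. -/
noncomputable def gammaInv (r n : ℕ) : ℝ :=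
  ⨆ A : {A : Matrix (Fin n) (Fin n) ℝ // A.det ≠ 0 ∧ HasInvolutions r A}, inv A.1

end Pool.Agent.Lib.MP_ef2672_gt_Chain
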