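import Pool.Agent.Lib.MP_ef2672_gt_Chain.Example
import Pool.Agent.Lib.MP_ef2672_gt_Chain.Restrict

/-!
Lower bounds for the restricted Hermite constants.
-/

namespace Pool.Agent.Lib.MP_ef2672_gt_Chain

open Pool.Agent.Lib.MP_ef2672_gt_Tauber Pool.Agent.Lib.MP_ef2672_gt_Sym

/-- The block diagonal integer matrix with second block one. -/
def blockMat {s : ℕ} (m : ℕ) (D : Matrix (Fin s) (Fin s) ℤ) :
    Matrix (Fin (s + m)) (Fin (s + m)) ℤ :=
  (Matrix.fromBlocks D 0 0 1).submatrix finSumFinEquiv.symm finSumFinEquiv.symm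

lemma blockMat_injective {s m : ℕ} : Function.Injective (blockMat (s := s) m) := by
  intro D D' h
  ext i j
  have h1 := congrFun (congrFun h (finSumFinEquiv (Sum.inl i))) (finSumFinEquiv (Sum.inl j))
  simpa only [blockMat, Matrix.submatrix_apply, Equiv.symm_apply_apply,
    Matrix.fromBlocks_apply₁₁] using h1

lemma blockMat_isometry {s m : ℕ} (B : Matrix (Fin m) (Fin m) ℝ) (D : Matrix (Fin s) (Fin s) ℤ)
    (hD : D.transpose * D = 1) :
    IsIsometry (direct (1 : Matrix (Fin s) (Fin s) ℝ) B) (blockMat m D) := by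
  unfold IsIsometry
  have hU : (blockMat m D).map (Int.cast : ℤ → ℝ) =
      (Matrix.fromBlocks (D.map (Int.cast : ℤ → ℝ)) 0 0 1).submatrix
        finSumFinEquiv.symm finSumFinEquiv.symm := by
    unfold blockMat
    rw [← Matrix.submatrix_map, Matrix.fromBlocks_map]
    congr 1
    congr 1
    · ext i j; simp
    · ext i j; simp
    · ext i j
      by_cases h : i = j <;> simp [Matrix.one_apply, h]
  have hD' : (D.map (Int.cast : ℤ → ℝ)).transpose * D.map (Int.cast : ℤ → ℝ) = 1 := by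
    rw [← Matrix.transpose_map, ← map_mul_real, hD, Matrix.map_one _ Int.cast_zero Int.cast_one]
  rw [hU]
  unfold direct
  rw [Matrix.submatrix_mul_equiv, Matrix.transpose_submatrix, Matrix.transpose_submatrix,
    Matrix.submatrix_mul_equiv, Matrix.submatrix_mul_equiv]
  congr 1
  rw [Matrix.fromBlocks_multiply, Matrix.fromBlocks_transpose, Matrix.fromBlocks_transpose,
    Matrix.fromBlocks_multiply, Matrix.fromBlocks_multiply]
  congr 1
  · simp only [Matrix.one_mul, Matrix.mul_zero, Matrix.zero_mul, add_zero,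
      Matrix.transpose_zero, Matrix.transpose_one]
    exact hD'
  · simp
  · simp
  · simp

/-- At least `s!` isometries. -/
lemma isoCount_direct {s m : ℕ} (B : Matrix (Fin m) (Fin m) ℝ)
    (hA : (direct (1 : Matrix (Fin s) (Fin s) ℝ) B).det ≠ 0) :
    s.factorial ≤ isoCount (direct (1 : Matrix (Fin s) (Fin s) ℝ) B) := by
  classical
  have hfin : Finite {U : Matrix (Fin (s + m)) (Fin (s + m)) ℤ //
      IsIsometry (direct (1 : Matrix (Fin s) (Fin s) ℝ) B) U} := (finite_iso hA).to_subtype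
  have h1 : Nat.card (Equiv.Perm (Fin s)) = s.factorial := by
    rw [Nat.card_eq_fintype_card, Fintype.card_perm, Fintype.card_fin]
  unfold isoCount
  rw [← h1]
  refine Nat.card_le_card_of_injective
    (fun σ => ⟨blockMat m ((1 : Matrix (Fin s) (Fin s) ℤ).submatrix σ id),
      blockMat_isometry B _ ?_⟩) ?_
  · rw [Matrix.transpose_submatrix, Matrix.submatrix_mul_equiv, Matrix.transpose_one,
      Matrix.one_mul]
    exact Matrix.submatrix_id_id _
  · intro σ τ h
    have h2 := blockMat_injective (congrArg Subtype.val h)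
    ext i
    have h3 := congrFun (congrFun h2 i) (τ i)
    simp only [Matrix.submatrix_apply, id_eq, Matrix.one_apply] at h3
    by_contra hne
    rw [if_neg (fun h => hne (by rw [h]))] at h3
    exact zero_ne_one h3

/-- Commuting involutions. -/
lemma involutions_direct {s m : ℕ} (B : Matrix (Fin m) (Fin m) ℝ) :
    HasInvolutions s (direct (1 : Matrix (Fin s) (Fin s) ℝ) B) := by
  classical
  refine ⟨Finset.univ.image (signMat s m), ?_, ?_, ?_⟩
  · rw [Finset.card_image_of_injective _ signMat_injective, Finset.card_univ]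
    simp
  · intro U hU
    obtain ⟨ε, -, rfl⟩ := Finset.mem_image.1 hU
    refine ⟨signMat_isometry B ε, ?_⟩
    rw [signMat_mul]
    have : ε * ε = 1 := by
      ext i
      simp
    rw [this, signMat_one]
  · intro U hU V hV
    obtain ⟨ε, -, rfl⟩ := Finset.mem_image.1 hU
    obtain ⟨δ, -, rfl⟩ := Finset.mem_image.1 hV
    rw [signMat_mul, signMat_mul, mul_comm]

/-- The invariant of the sum of a cubic lattice and a rescaled lattice. -/
lemma inv_direct {s m : ℕ} (hm : 0 < m) (B : Matrix (Fin m) (Fin m) ℝ) (hB : B.det ≠ 0) :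
    ∃ t : ℝ, (direct (1 : Matrix (Fin s) (Fin s) ℝ) (t • B)).det ≠ 0 ∧
      inv B ^ ((m : ℝ) / ((s + m : ℕ) : ℝ)) ≤
        inv (direct (1 : Matrix (Fin s) (Fin s) ℝ) (t • B)) := by
  have hm0 : (0 : ℝ) < m := by exact_mod_cast hm
  set N : ℝ := ((s + m : ℕ) : ℝ) with hN
  have hN0 : 0 < N := by rw [hN]; exact_mod_cast (by omega : 0 < s + m)
  set a := minSq B with ha
  have ha0 : 0 < a := minSq_pos hm hB
  set t : ℝ := 1 / Real.sqrt a with ht
  have ht0 : 0 < t := by rw [ht]; positivity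
  have hta : t ^ 2 * a = 1 := by
    rw [ht, div_pow, Real.sq_sqrt ha0.le]; field_simp
  have hd0 : 0 < |B.det| := abs_pos.2 hB
  have hdet : (direct (1 : Matrix (Fin s) (Fin s) ℝ) (t • B)).det = t ^ m * B.det := by
    rw [direct_det, Matrix.det_one, one_mul, Matrix.det_smul, Fintype.card_fin]
  have htm : 0 < t ^ m := pow_pos ht0 m
  have hdet0 : (direct (1 : Matrix (Fin s) (Fin s) ℝ) (t • B)).det ≠ 0 := by
    rw [hdet]; positivity
  refine ⟨t, hdet0, ?_⟩
  have h1 : 1 ≤ minSq (direct (1 : Matrix (Fin s) (Fin s) ℝ) (t • B)) := by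
    refine minSq_direct_one (by omega) _ fun w hw => ?_
    have h2 := minSq_smul hm B t
    rw [← ha, hta] at h2
    exact h2.trans (minSq_le _ w hw)
  have hinvA : inv (direct (1 : Matrix (Fin s) (Fin s) ℝ) (t • B)) =
      minSq (direct (1 : Matrix (Fin s) (Fin s) ℝ) (t • B)) /
        |(direct (1 : Matrix (Fin s) (Fin s) ℝ) (t • B)).det| ^ ((2 : ℝ) / N) := rfl
  have hinvB : inv B = a / |B.det| ^ ((2 : ℝ) / m) := rfl
  rw [hinvA, hdet, abs_mul, abs_of_pos htm, hinvB]
  have hE : 0 < (t ^ m * |B.det|) ^ ((2 : ℝ) / N) := Real.rpow_pos_of_pos (by positivity) _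
  refine le_trans (le_of_eq ?_) (div_le_div_of_nonneg_right h1 hE.le)
  rw [eq_div_iff hE.ne']
  have hlt : Real.log t = -(Real.log a / 2) := by
    rw [ht, one_div, Real.log_inv, Real.log_sqrt ha0.le]
  apply Real.log_injOn_pos (Set.mem_Ioi.2 (by positivity)) (Set.mem_Ioi.2 one_pos)
  rw [Real.log_mul (by positivity) (by positivity), Real.log_rpow (by positivity),
    Real.log_rpow (by positivity), Real.log_div ha0.ne' (by positivity), Real.log_rpow hd0,
    Real.log_mul (by positivity) (by positivity), Real.log_pow, hlt, Real.log_one]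
  field_simp
  ring

/-- From all lattices of dimension `m` to the supremum over a class in dimension `s + m`. -/
lemma gamma_rpow_le {s m : ℕ} (hm : 0 < m) {g : ℝ} (hg : 0 ≤ g)
    (h : ∀ B : Matrix (Fin m) (Fin m) ℝ, B.det ≠ 0 →
      inv B ^ ((m : ℝ) / ((s + m : ℕ) : ℝ)) ≤ g) :
    gamma m ^ ((m : ℝ) / ((s + m : ℕ) : ℝ)) ≤ g := by
  have hm0 : (0 : ℝ) < m := by exact_mod_cast hm
  set N : ℝ := ((s + m : ℕ) : ℝ) with hN
  have hN0 : 0 < N := by rw [hN]; exact_mod_cast (by omega : 0 < s + m)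
  have hp : 0 < (m : ℝ) / N := by positivity
  have hnn : ∀ A : Matrix (Fin m) (Fin m) ℝ, 0 ≤ inv A := fun A => inv_nonneg A
  have : Nonempty {A : Matrix (Fin m) (Fin m) ℝ // A.det ≠ 0} := ⟨⟨1, by simp⟩⟩
  have h1 : gamma m ≤ g ^ (((m : ℝ) / N)⁻¹) := by
    refine ciSup_le fun B => ?_
    have h2 := h B.1 B.2
    have h3 := Real.rpow_le_rpow (Real.rpow_nonneg (hnn B.1) _) h2 (inv_nonneg.2 hp.le)
    rwa [← Real.rpow_mul (hnn B.1), mul_inv_cancel₀ hp.ne', Real.rpow_one] at h3
  have h4 := Real.rpow_le_rpow (gamma_nonneg m) h1 hp.le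
  rwa [← Real.rpow_mul hg, inv_mul_cancel₀ hp.ne', Real.rpow_one] at h4

theorem gammaSym_ge {s m N : ℕ} (hm : 0 < m) (hN : N ≤ s.factorial) :
    gamma m ^ ((m : ℝ) / ((s + m : ℕ) : ℝ)) ≤ gammaSym N (s + m) := by
  have hbdd : BddAbove (Set.range fun A : {A : Matrix (Fin (s + m)) (Fin (s + m)) ℝ //
      A.det ≠ 0 ∧ N ≤ isoCount A} => inv A.1) := by
    refine ⟨gamma (s + m), ?_⟩
    rintro _ ⟨A, rfl⟩
    exact inv_le_gamma (by omega) A.1 A.2.1
  refine gamma_rpow_le hm (Real.iSup_nonneg fun A => inv_nonneg A.1) fun B hB => ?_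
  obtain ⟨t, h1, h2⟩ := inv_direct (s := s) hm B hB
  exact h2.trans (le_ciSup hbdd ⟨_, h1, hN.trans (isoCount_direct _ h1)⟩)

theorem gammaInv_ge {s m : ℕ} (hm : 0 < m) :
    gamma m ^ ((m : ℝ) / ((s + m : ℕ) : ℝ)) ≤ gammaInv s (s + m) := by
  have hbdd : BddAbove (Set.range fun A : {A : Matrix (Fin (s + m)) (Fin (s + m)) ℝ //
      A.det ≠ 0 ∧ HasInvolutions s A} => inv A.1) := by
    refine ⟨gamma (s + m), ?_⟩
    rintro _ ⟨A, rfl⟩
    exact inv_le_gamma (by omega) A.1 A.2.1
  refine gamma_rpow_le hm (Real.iSup_nonneg fun A => inv_nonneg A.1) fun B hB => ?_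
  obtain ⟨t, h1, h2⟩ := inv_direct (s := s) hm B hB
  exact h2.trans (le_ciSup hbdd ⟨_, h1, involutions_direct _⟩)

end Pool.Agent.Lib.MP_ef2672_gt_Chain
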