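import Pool.Agent.Lib.MP_ef2672_gt_Chain.Def
import Pool.Agent.Lib.MP_ef2672_gt_Chain.Comm
import Pool.Agent.Lib.MP_ef2672_gt_Chain.Lower
import Pool.Agent.Lib.MP_ef2672_gt_Chain.Gap
import Pool.Agent.Lib.MP_ef2672_gt_Chain.EigenAsym

/-!
The final statements.
-/

namespace Pool.Agent.Lib.MP_ef2672_gt_Chain

open Pool.Agent.Lib.MP_ef2672_gt_Tauber Pool.Agent.Lib.MP_ef2672_gt_Sym Filter Topology

lemma hasIsos_iff {n N : ℕ} {A : Matrix (Fin n) (Fin n) ℝ} (hA : A.det ≠ 0) :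
    MP_ef2672_gt_ChainDef.HasIsos N A ↔ N ≤ isoCount A := by
  classical
  have hfin := finite_iso hA
  have hcard : isoCount A = hfin.toFinset.card := by
    rw [← Set.ncard_eq_toFinset_card _ hfin]
    exact Nat.card_coe_set_eq _
  constructor
  · rintro ⟨S, hS1, hS2⟩
    rw [hcard]
    refine hS1.trans (Finset.card_le_card fun U hU => ?_)
    rw [Set.Finite.mem_toFinset]
    exact hS2 U hU
  · intro h
    refine ⟨hfin.toFinset, by rw [← hcard]; exact h, fun U hU => ?_⟩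
    rw [Set.Finite.mem_toFinset] at hU
    exact hU

lemma gammaSym_eq (N n : ℕ) : MP_ef2672_gt_ChainDef.gammaSym N n = gammaSym N n := by
  unfold MP_ef2672_gt_ChainDef.gammaSym gammaSym
  refine Equiv.iSup_congr (Equiv.subtypeEquivRight fun A => ?_) fun A => rfl
  constructor
  · rintro ⟨hA, h⟩
    exact ⟨hA, (hasIsos_iff hA).1 h⟩
  · rintro ⟨hA, h⟩
    exact ⟨hA, (hasIsos_iff hA).2 h⟩

lemma gammaComm_eq (N n : ℕ) : MP_ef2672_gt_ChainDef.gammaComm N n = gammaComm N n := rfl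

lemma gammaInv_eq (r n : ℕ) : MP_ef2672_gt_ChainDef.gammaInv r n = gammaInv r n := rfl

lemma fixRank_eq' {n : ℕ} (S : Set (Matrix (Fin n) (Fin n) ℤ)) :
    MP_ef2672_gt_ChainDef.fixRank S = fixRank S := rfl

theorem lowerSym : LowerSym := fun _ _ _ hm hN => gammaSym_ge hm hN

theorem lowerInv : LowerInv := fun _ _ hm => gammaInv_ge hm

/-- The number of isometries, and of commuting isometries. -/
theorem final_order : ∃ C : ℝ, 0 < C ∧ ∀ (n N : ℕ) (A : Matrix (Fin n) (Fin n) ℝ), 3 ≤ n →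
    A.det ≠ 0 →
    (MP_ef2672_gt_ChainDef.HasIsos N A →
      (N : ℝ) ≤ (4 * n / inv A) ^ (C * n * Real.log (Real.log n))) ∧
    (MP_ef2672_gt_ChainDef.HasCommuting N A →
      (N : ℝ) ≤ (4 * n / inv A) ^ (C * n / Real.log n)) := by
  obtain ⟨C₁, hC₁, h₁⟩ := order_main
  obtain ⟨C₂, hC₂, h₂⟩ := abelian_bound
  refine ⟨max C₁ C₂, lt_max_of_lt_left hC₁, fun n N A hn3 hA => ?_⟩
  have hn : 0 < n := by omega
  have hn0 : (0 : ℝ) < n := by exact_mod_cast hn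
  have hn3' : (3 : ℝ) ≤ n := by exact_mod_cast hn3
  have hlogn : 1 < Real.log n := by
    rw [Real.lt_log_iff_exp_lt hn0]
    have := Real.exp_one_lt_d9
    linarith
  have hll : 0 < Real.log (Real.log n) := Real.log_pos hlogn
  have hi := inv_pos hn hA
  have hK0 : 0 < 4 * n / inv A := by positivity
  have hL1 : 1 ≤ Real.log (4 * n / inv A) := one_le_logs hn hA
  set L := Real.log (4 * n / inv A) with hL
  constructor
  · intro hN
    have h3 : (N : ℝ) ≤ isoCount A := by exact_mod_cast (hasIsos_iff hA).1 hN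
    refine h3.trans ((h₁ n A hn3 hA).trans ?_)
    rw [Real.rpow_def_of_pos (by linarith), Real.rpow_def_of_pos hK0]
    refine Real.exp_le_exp.2 ?_
    have h4 : C₁ ≤ max C₁ C₂ := le_max_left _ _
    have h5 : 0 ≤ (n : ℝ) * L * Real.log (Real.log n) := by positivity
    nlinarith [mul_le_mul_of_nonneg_right h4 h5]
  · rintro ⟨S, hS1, hS2, hS3⟩
    have h3 : (N : ℝ) ≤ S.card := by exact_mod_cast hS1
    refine h3.trans ((h₂ n A S (by omega) hA hS2 hS3).trans ?_)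
    rw [Real.rpow_def_of_pos hK0]
    refine Real.exp_le_exp.2 ?_
    have h4 : C₂ ≤ max C₁ C₂ := le_max_right _ _
    rw [← mul_div_assoc]
    refine div_le_div_of_nonneg_right ?_ (by linarith)
    have h5 : 0 ≤ (n : ℝ) * L := by positivity
    nlinarith [mul_le_mul_of_nonneg_right h4 h5]

theorem final_sym (N : ℕ → ℕ) :
    (Tendsto (fun n : ℕ => Real.log (N n) / n) atTop (𝓝 0) →
      Tendsto (fun n => MP_ef2672_gt_ChainDef.gammaSym (N n) n / gamma n) atTop (𝓝 1)) ∧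
    (Tendsto (fun n : ℕ => Real.log (N n) / (n * Real.log (Real.log n))) atTop atTop →
      Tendsto (fun n : ℕ => MP_ef2672_gt_ChainDef.gammaSym (N n) n / n) atTop (𝓝 0)) := by
  refine ⟨fun h => ?_, fun h => ?_⟩
  · simp only [gammaSym_eq]
    exact sym_limit lowerSym N h
  · simp only [gammaSym_eq]
    exact sym_zero N h

theorem final_comm (N : ℕ → ℕ) :
    (Tendsto (fun n : ℕ => Real.log (N n) * Real.log n / n) atTop (𝓝 0) →
      Tendsto (fun n => MP_ef2672_gt_ChainDef.gammaComm (N n) n / gamma n) atTop (𝓝 1)) ∧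
    (Tendsto (fun n : ℕ => Real.log (N n) * Real.log n / n) atTop atTop →
      Tendsto (fun n : ℕ => MP_ef2672_gt_ChainDef.gammaComm (N n) n / n) atTop (𝓝 0)) := by
  refine ⟨fun h => ?_, fun h => ?_⟩
  · simp only [gammaComm_eq]
    exact comm_limit lowerInv N h
  · simp only [gammaComm_eq]
    exact comm_zero N h

theorem final_inv : ∃ c : ℝ, 0 < c ∧ ∀ n r : ℕ, 0 < n → r ≤ n →
    c * (n : ℝ) ^ (1 - (r : ℝ) / n) ≤ MP_ef2672_gt_ChainDef.gammaInv r n ∧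
      MP_ef2672_gt_ChainDef.gammaInv r n ≤ 4 * (n : ℝ) ^ (1 - ((r : ℝ) - 1) / n) :=
  inv_bounds

theorem final_concentration (n D : ℕ) (A : Matrix (Fin n) (Fin n) ℝ) (hD : 0 < D) (hDn : D < n)
    (hA : A.det ≠ 0) :
    ((n : ℝ) - MP_ef2672_gt_ChainDef.fixRank {U : Matrix (Fin n) (Fin n) ℤ |
      MP_ef2672_gt_ChainDef.IsIso A U ∧ (U - 1).rank ≤ D}) *
      Real.log (n / D) ≤ n * Real.log (4 * n / inv A) :=
  concentration hD hDn hA

theorem final_gap (ε : ℝ) (hε : 0 < ε) : ∃ δ : ℝ, 0 < δ ∧ ∀ᶠ n : ℕ in atTop,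
    ∀ (A : Matrix (Fin n) (Fin n) ℝ), A.det ≠ 0 → (limsup c atTop - δ) * n ≤ inv A →
      (1 - ε) * n ≤ MP_ef2672_gt_ChainDef.fixRank {U : Matrix (Fin n) (Fin n) ℤ |
        MP_ef2672_gt_ChainDef.IsIso A U ∧ ((U - 1).rank : ℝ) ≤ (1 / 2 - ε) * n} :=
  small_common ε hε

theorem final_eigen (n : ℕ) (A : Matrix (Fin n) (Fin n) ℝ) (U : Matrix (Fin n) (Fin n) ℤ)
    (hn : 0 < n) (hA : A.det ≠ 0) (hU : MP_ef2672_gt_ChainDef.IsIso A U) :
    inv A ^ n ≤ (MP_ef2672_gt_ChainDef.pdet U : ℝ) ^ 2 *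
      (gamma (U - 1).rank ^ (U - 1).rank * gamma (n - (U - 1).rank) ^ (n - (U - 1).rank)) := by
  have h := (eigen_le hn hA hU).2.1
  rw [mul_comm (gamma (U - 1).rank ^ (U - 1).rank)]
  exact h

theorem final_eigen_asym (ε : ℝ) (hε : 0 < ε) : ∃ δ : ℝ, 0 < δ ∧ ∀ᶠ n : ℕ in atTop,
    ∀ (A : Matrix (Fin n) (Fin n) ℝ) (U : Matrix (Fin n) (Fin n) ℤ), A.det ≠ 0 →
      (limsup c atTop - δ) * n ≤ inv A → MP_ef2672_gt_ChainDef.IsIso A U →
      Real.binEntropy ((U - 1).rank / n) ≤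
        2 / n * Real.log (MP_ef2672_gt_ChainDef.pdet U) + ε ∧
      (((U - 1).rank : ℝ) ≤ ε * n ∨ ((U.trace : ℤ) : ℝ) ≤ (1 / 2 + ε) * n) := by
  obtain ⟨δ₁, hδ₁, h₁⟩ := eigen_entropy ε hε
  obtain ⟨δ₂, hδ₂, h₂⟩ := trace_gap ε hε
  refine ⟨min δ₁ δ₂, lt_min hδ₁ hδ₂, ?_⟩
  filter_upwards [h₁, h₂, eventually_gt_atTop 0] with n h₁ h₂ hn A U hA hinv hU
  have hn0 : (0 : ℝ) < n := by exact_mod_cast hn
  have h3 : (limsup c atTop - δ₁) * n ≤ inv A := by
    refine le_trans (mul_le_mul_of_nonneg_right ?_ hn0.le) hinv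
    linarith [min_le_left δ₁ δ₂]
  have h4 : (limsup c atTop - δ₂) * n ≤ inv A := by
    refine le_trans (mul_le_mul_of_nonneg_right ?_ hn0.le) hinv
    linarith [min_le_right δ₁ δ₂]
  refine ⟨?_, h₂ A U hA h4 hU⟩
  have h5 := h₁ A U hA h3 hU
  have h6 : MP_ef2672_gt_ChainDef.pdet U = pdet U := rfl
  rw [h6]
  have h7 : 2 / (n : ℝ) * Real.log (pdet U) = 2 * Real.log (pdet U) / n := by ring
  rw [h7, ← sub_le_iff_le_add, le_div_iff₀ hn0]
  linarith

end Pool.Agent.Lib.MP_ef2672_gt_Chain
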