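import Pool.Agent.Lib.MP_ef2672_gt_Chain.Drop2

/-!
Subgroups of small index with a larger lattice of fixed vectors.
-/

namespace Pool.Agent.Lib.MP_ef2672_gt_Chain

/-- The degree of a root of unity which is an eigenvalue of an integer matrix. -/
lemma totient_le_of_eigenvalue {n m : ℕ} (hm : 0 < m) (M : Matrix (Fin n) (Fin n) ℤ) {ζ : ℂ}
    (hζ : IsPrimitiveRoot ζ m) {w : Fin n → ℂ} (hw : w ≠ 0)
    (h : (M.map (Int.castRingHom ℂ)).mulVec w = ζ • w) : m.totient ≤ n := by
  have h1 : (M.map (Int.castRingHom ℂ)).charpoly.IsRoot ζ := by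
    rw [← Matrix.mem_spectrum_iff_isRoot_charpoly, spectrum.mem_iff]
    intro hu
    have h2 : (algebraMap ℂ (Matrix (Fin n) (Fin n) ℂ) ζ - M.map (Int.castRingHom ℂ)).mulVec w
        = 0 := by
      rw [Matrix.sub_mulVec, h, Algebra.algebraMap_eq_smul_one, Matrix.smul_mulVec, Matrix.one_mulVec,
        sub_self]
    rw [Matrix.isUnit_iff_isUnit_det] at hu
    exact hw (Matrix.eq_zero_of_mulVec_eq_zero hu.ne_zero h2)
  have h2 : Polynomial.aeval ζ M.charpoly = 0 := by
    rw [Matrix.charpoly_map] at h1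
    rw [Polynomial.aeval_def, ← Polynomial.eval_map]
    exact h1
  have h3 : minpoly ℤ ζ ∣ M.charpoly :=
    minpoly.isIntegrallyClosed_dvd (hζ.isIntegral hm) h2
  have h4 := Polynomial.natDegree_le_of_dvd h3 M.charpoly_monic.ne_zero
  rw [Matrix.charpoly_natDegree_eq_dim, Fintype.card_fin] at h4
  exact (hζ.totient_le_degree_minpoly).trans h4

lemma prime_pow_le {p k : ℕ} (hp : p.Prime) : p ^ k ≤ 2 * (p ^ k).totient := by
  rcases Nat.eq_zero_or_pos k with rfl | hk
  · simp
  · rw [Nat.totient_prime_pow hp hk]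
    obtain ⟨j, rfl⟩ := Nat.exists_eq_succ_of_ne_zero hk.ne'
    have h2 := hp.two_le
    simp only [Nat.succ_eq_add_one, Nat.add_sub_cancel, pow_succ]
    have h3 : p ≤ 2 * (p - 1) := by omega
    calc p ^ j * p ≤ p ^ j * (2 * (p - 1)) := Nat.mul_le_mul_left _ h3
      _ = _ := by ring

section

variable {G : Type*} [Group G] {n : ℕ} (ρ : G →* Matrix (Fin n) (Fin n) ℤ)

/-- The action of a group of integer matrices on complex vectors. -/
noncomputable def cplx : G →* ((Fin n → ℂ) →ₗ[ℂ] (Fin n → ℂ)) where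
  toFun g := Matrix.toLin' ((ρ g).map (Int.castRingHom ℂ))
  map_one' := by
    rw [map_one, Matrix.map_one _ (map_zero _) (map_one _), Matrix.toLin'_one]
    rfl
  map_mul' a b := by
    rw [map_mul, Matrix.map_mul, Matrix.toLin'_mul]
    rfl

lemma cplx_apply (g : G) (x : Fin n → ℂ) :
    cplx ρ g x = ((ρ g).map (Int.castRingHom ℂ)).mulVec x := rfl

/-- A line on which a `p`-group acts by scalars is fixed by a subgroup of small index. -/
lemma index_scalar {p : ℕ} [hp : Fact p.Prime] [Finite G] (hG : IsPGroup p G)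
    (K₁ : Subgroup G) {w : Fin n → ℂ} (hw : w ≠ 0)
    (hK₁ : ∀ h ∈ K₁, ∃ c : ℂ, cplx ρ h w = c • w) :
    ∃ K : Subgroup G, K ≤ K₁ ∧ K.relIndex K₁ ≤ 2 * n ∧ ∀ h ∈ K, cplx ρ h w = w := by
  classical
  choose! c hc using hK₁
  have huniq : ∀ a b : ℂ, a • w = b • w → a = b := by
    intro a b hab
    have h1 : (a - b) • w = 0 := by rw [sub_smul, hab, sub_self]
    exact sub_eq_zero.1 ((smul_eq_zero.1 h1).resolve_right hw)
  let chi : K₁ →* ℂ :=
    { toFun := fun h => c h
      map_one' := by
        apply huniq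
        have h1 := hc 1 K₁.one_mem
        rw [map_one, Module.End.one_apply] at h1
        rw [one_smul]
        exact h1.symm
      map_mul' := fun a b => by
        apply huniq
        have h1 := hc (a * b : G) (K₁.mul_mem a.2 b.2)
        rw [map_mul, Module.End.mul_apply, hc b b.2, map_smul, hc a a.2, smul_smul] at h1
        show c ((a : G) * b) • w = (c a * c b) • w
        rw [← h1, mul_comm (c b)] }
  let lam : K₁ →* ℂˣ := chi.toHomUnits
  have hlam : ∀ h : K₁, ((lam h : ℂˣ) : ℂ) = c h := fun h => rfl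
  have hfin : Finite lam.range := by
    have : Finite K₁ := inferInstance
    exact Set.finite_range lam
  obtain ⟨g, hg⟩ := IsCyclic.exists_generator (α := lam.range)
  have hord : orderOf g = Nat.card lam.range := orderOf_eq_card_of_forall_mem_zpowers hg
  obtain ⟨h, hh⟩ := g.2
  have hp1 : IsPGroup p lam.range := by
    have h1 : IsPGroup p K₁ := hG.to_subgroup K₁
    exact h1.of_surjective lam.rangeRestrict lam.rangeRestrict_surjective
  obtain ⟨k, hk⟩ := IsPGroup.iff_card.1 hp1
  have hm0 : 0 < Nat.card lam.range := Nat.card_pos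
  have hprim : IsPrimitiveRoot ((g : ℂˣ) : ℂ) (Nat.card lam.range) := by
    rw [← hord]
    have h1 : IsPrimitiveRoot g (orderOf g) := IsPrimitiveRoot.orderOf g
    have h2 : IsPrimitiveRoot (g : ℂˣ) (orderOf g) := by
      rw [IsPrimitiveRoot.iff_orderOf, Subgroup.orderOf_coe]
    exact IsPrimitiveRoot.coe_units_iff.2 h2
  have hφ : (Nat.card lam.range).totient ≤ n := by
    refine totient_le_of_eigenvalue hm0 (ρ h) hprim hw ?_
    have h1 := hc h h.2
    rw [cplx_apply] at h1
    rw [h1]
    congr 1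
    rw [← hh]
    exact (hlam h).symm
  have hm : Nat.card lam.range ≤ 2 * n := by
    rw [hk] at hφ ⊢
    exact (prime_pow_le hp.out).trans (Nat.mul_le_mul_left 2 hφ)
  refine ⟨lam.ker.map K₁.subtype, Subgroup.map_subtype_le _, ?_, ?_⟩
  · have h1 : (lam.ker.map K₁.subtype).subgroupOf K₁ = lam.ker := by
      ext x
      rw [Subgroup.mem_subgroupOf]
      constructor
      · rintro ⟨y, hy, hyx⟩
        have : y = x := Subtype.ext hyx
        rwa [← this]
      · intro hx
        exact ⟨x, hx, rfl⟩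
    rw [Subgroup.relIndex, h1, Subgroup.index_ker]
    exact hm
  · rintro _ ⟨x, hx, rfl⟩
    have h1 := hc x x.2
    have h2 : c x = 1 := by
      have : lam x = 1 := hx
      rw [← hlam, this, Units.val_one]
    rw [h2, one_smul] at h1
    exact h1

end

end Pool.Agent.Lib.MP_ef2672_gt_Chain
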