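import Pool.Agent.Lib.MP_ef2672_gt_Chain.Step

/-!
The inequality between the volumes of two lattices of fixed vectors.
-/

namespace Pool.Agent.Lib.MP_ef2672_gt_Chain

open Pool.Agent.Lib.MP_ef2672_gt_Tauber Pool.Agent.Lib.MP_ef2672_gt_Sym

lemma isometry_norm {n : ℕ} {A : Matrix (Fin n) (Fin n) ℝ} {U : Matrix (Fin n) (Fin n) ℤ}
    (hU : IsIsometry A U) (z : Fin n → ℝ) :
    ∑ i, (A.mulVec ((U.map (Int.cast : ℤ → ℝ)).mulVec z)) i ^ 2 = ∑ i, (A.mulVec z) i ^ 2 := by
  have h : ∀ B : Matrix (Fin n) (Fin n) ℝ,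
      ∑ i, (B.mulVec z) i ^ 2 = dotProduct z ((B.transpose * B).mulVec z) := by
    intro B
    rw [← Matrix.mulVec_mulVec, Matrix.dotProduct_mulVec, Matrix.vecMul_transpose]
    simp only [dotProduct]
    exact Finset.sum_congr rfl fun i _ => sq _
  rw [Matrix.mulVec_mulVec, h, h]
  unfold IsIsometry at hU
  rw [hU]

lemma quad_lower {n : ℕ} {A : Matrix (Fin n) (Fin n) ℝ} {S : Set (Matrix (Fin n) (Fin n) ℤ)}
    (hS : ∀ U ∈ S, IsIsometry A U) {y : Fin n → ℝ}
    (hy : ∀ U ∈ S, (U.map (Int.cast : ℤ → ℝ)).mulVec y = y) {u : Fin n → ℤ}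
    (hu : u ∉ fixedLattice S) :
    minSq A / 4 ≤ ∑ i, (A.mulVec (y + fun j => (u j : ℝ))) i ^ 2 := by
  rw [mem_fixedLattice] at hu
  push Not at hu
  obtain ⟨U, hU, hne⟩ := hu
  set z : Fin n → ℝ := y + fun j => (u j : ℝ) with hz
  have hw : u - U.mulVec u ≠ 0 := fun h => hne (sub_eq_zero.1 h).symm
  have h1 := minSq_le A _ hw
  have h2 : (fun j => ((u - U.mulVec u) j : ℝ)) = z - (U.map (Int.cast : ℤ → ℝ)).mulVec z := by
    have h3 : (fun j => ((u - U.mulVec u) j : ℝ)) =
        (fun j => (u j : ℝ)) - fun j => ((U.mulVec u) j : ℝ) := by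
      ext j; simp
    rw [h3, cast_mulVec, hz, Matrix.mulVec_add, hy U hU]
    abel
  rw [h2, Matrix.mulVec_sub] at h1
  have h4 := isometry_norm (hS U hU) z
  have h5 : ∑ i, (A.mulVec z - A.mulVec ((U.map (Int.cast : ℤ → ℝ)).mulVec z)) i ^ 2 ≤
      ∑ i, (2 * (A.mulVec z) i ^ 2 +
        2 * (A.mulVec ((U.map (Int.cast : ℤ → ℝ)).mulVec z)) i ^ 2) := by
    refine Finset.sum_le_sum fun i _ => ?_
    rw [Pi.sub_apply]
    nlinarith [sq_nonneg ((A.mulVec z) i + (A.mulVec ((U.map (Int.cast : ℤ → ℝ)).mulVec z)) i)]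
  rw [Finset.sum_add_distrib, ← Finset.mul_sum, ← Finset.mul_sum, h4] at h5
  linarith

/-- The quotient of a lattice by the sublattice of fixed vectors is free. -/
lemma quot_free {n : ℕ} (M : Submodule ℤ (Fin n → ℤ)) (S : Set (Matrix (Fin n) (Fin n) ℤ)) :
    Module.Free ℤ (M ⧸ (fixedLattice S).comap M.subtype) := by
  let φ : M →ₗ[ℤ] (S → Fin n → ℤ) := LinearMap.pi fun U : S =>
    (Matrix.toLin' U.1 - LinearMap.id) ∘ₗ M.subtype
  have hker : LinearMap.ker φ = (fixedLattice S).comap M.subtype := by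
    ext x
    rw [LinearMap.mem_ker, Submodule.mem_comap, mem_fixedLattice]
    constructor
    · intro h U hU
      have h1 := congrFun h ⟨U, hU⟩
      have h2 : U.mulVec (x : Fin n → ℤ) - x = 0 := h1
      exact sub_eq_zero.1 h2
    · intro h
      ext1 U
      have h1 := h U.1 U.2
      show U.1.mulVec (x : Fin n → ℤ) - x = 0
      rw [sub_eq_zero]
      exact h1
  rw [← hker]
  have : Module.Finite ℤ (LinearMap.range φ) := Module.Finite.range φ
  have : Module.Free ℤ (LinearMap.range φ) := inferInstance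
  exact Module.Free.of_equiv φ.quotKerEquivRange.symm

/-- The inequality between the volumes of a lattice and of its sublattice of fixed vectors. -/
theorem vol2_step {n : ℕ} {A : Matrix (Fin n) (Fin n) ℝ} (hA : A.det ≠ 0)
    (M : Submodule ℤ (Fin n → ℤ)) {S : Set (Matrix (Fin n) (Fin n) ℤ)}
    (hS : ∀ U ∈ S, IsIsometry A U) {M' : Submodule ℤ (Fin n → ℤ)}
    (hM' : M' = M ⊓ fixedLattice S) {d : ℕ}
    (hd : Module.finrank ℤ M = Module.finrank ℤ M' + d) :
    (minSq A / 4) ^ d * vol2 A M' ≤ gamma d ^ d * vol2 A M := by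
  classical
  have hle : M' ≤ M := by rw [hM']; exact inf_le_left
  set W : Submodule ℤ M := (fixedLattice S).comap M.subtype with hW
  have hWM : W = M'.comap M.subtype := by
    ext x
    rw [hW, Submodule.mem_comap, Submodule.mem_comap, hM', Submodule.mem_inf]
    exact ⟨fun h => ⟨x.2, h⟩, fun h => h.2⟩
  have hfree : Module.Free ℤ (M ⧸ W) := quot_free M S
  let eW : W ≃ₗ[ℤ] M' := (LinearEquiv.ofEq _ _ hWM).trans (Submodule.comapSubtypeEquivOfLe hle)
  let bW : Module.Basis (Fin (Module.finrank ℤ W)) ℤ W := Module.finBasis ℤ W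
  have hrk : Module.finrank ℤ (M ⧸ W) = d := by
    have h1 := Submodule.finrank_quotient_add_finrank W
    have h2 : Module.finrank ℤ W = Module.finrank ℤ M' := eW.finrank_eq
    omega
  let bQ : Module.Basis (Fin d) ℤ (M ⧸ W) := (Module.finBasis ℤ (M ⧸ W)).reindex (finCongr hrk)
  let b := Module.Basis.sumQuot bW bQ
  let bv : Fin (Module.finrank ℤ W) ⊕ Fin d → (Fin n → ℤ) := fun i => (b i : Fin n → ℤ)
  have hbli : LinearIndependent ℤ bv :=
    b.linearIndependent.map' M.subtype (Submodule.ker_subtype M)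
  have hvM : vol2 A M = (gram A bv).det := vol2_eq A b
  have hvM' : vol2 A M' = (gram A fun i => bv (Sum.inl i)).det := by
    rw [vol2_eq A (bW.map eW)]
    congr 2
    ext i
    show ((eW (bW i) : M') : Fin n → ℤ) _ = ((b (Sum.inl i) : M) : Fin n → ℤ) _
    rw [Module.Basis.sumQuot_inl]
    rfl
  set G := gram A bv with hG
  have hGpd : G.PosDef := gram_posDef hA hbli
  set E := G.toBlocks₁₁ with hE
  set F := G.toBlocks₁₂ with hF
  set H := G.toBlocks₂₂ with hH
  have hGsym : G.transpose = G := by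
    have := hGpd.1
    rwa [Matrix.IsHermitian, Matrix.conjTranspose_eq_transpose_of_trivial] at this
  have h21 : G.toBlocks₂₁ = F.conjTranspose := by
    rw [Matrix.conjTranspose_eq_transpose_of_trivial]
    ext i j
    have := congrFun (congrFun hGsym (Sum.inr i)) (Sum.inl j)
    rw [Matrix.transpose_apply] at this
    simp only [Matrix.toBlocks₂₁, hF, Matrix.toBlocks₁₂, Matrix.transpose_apply, Matrix.of_apply]
    exact this.symm
  have hGb : G = Matrix.fromBlocks E F F.conjTranspose H := by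
    rw [← h21, hE, hF, hH, Matrix.fromBlocks_toBlocks]
  have hEgram : E = gram A fun i => bv (Sum.inl i) := by
    ext i j
    rfl
  have hEpd : E.PosDef := by
    rw [hEgram]
    refine gram_posDef hA ?_
    exact hbli.comp Sum.inl Sum.inl_injective
  have hEdet : E.det ≠ 0 := hEpd.det_pos.ne'
  letI : Invertible E := Matrix.invertibleOfIsUnitDet E (isUnit_iff_ne_zero.2 hEdet)
  set Sc := H - F.conjTranspose * E⁻¹ * F with hSc
  have hdetG : G.det = E.det * Sc.det := by
    rw [hGb, Matrix.det_fromBlocks₁₁, Matrix.invOf_eq_nonsing_inv]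
  have hScpsd : Sc.PosSemidef := by
    rw [hSc, ← Matrix.PosDef.fromBlocks₁₁ F H hEpd, ← hGb]
    exact hGpd.posSemidef
  have hScdet : Sc.det ≠ 0 := by
    intro h0
    have := hGpd.det_pos
    rw [hdetG, h0, mul_zero] at this
    exact lt_irrefl _ this
  have hmain : (minSq A / 4) ^ d ≤ gamma d ^ d * Sc.det := by
    refine gram_le_fin Sc hScpsd hScdet (by have := minSq_nonneg A; positivity) ?_
    intro w hw
    set wr : Fin d → ℝ := fun j => (w j : ℝ) with hwr
    set x : Fin (Module.finrank ℤ W) → ℝ := -((E⁻¹ * F).mulVec wr) with hx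
    have h1 := Matrix.schur_complement_eq₁₁ F H x wr hEpd.1
    rw [← hGb, ← Matrix.dotProduct_mulVec, ← Matrix.dotProduct_mulVec,
      ← Matrix.dotProduct_mulVec] at h1
    simp only [star_trivial] at h1
    rw [hx, neg_add_cancel, zero_dotProduct, zero_add, ← hx, ← hSc, hG, gram_quad] at h1
    rw [← h1]
    -- the vector
    let u : Fin n → ℤ := ∑ j, w j • bv (Sum.inr j)
    let y : Fin n → ℝ := fun i => ∑ j, x j * (bv (Sum.inl j) i : ℝ)
    have hvec : (cols bv).mulVec (Sum.elim x wr) = y + fun i => (u i : ℝ) := by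
      ext i
      simp only [Matrix.mulVec, dotProduct, cols, Matrix.of_apply, Fintype.sum_sum_type,
        Sum.elim_inl, Sum.elim_inr, Pi.add_apply, y, u, Finset.sum_apply, Pi.smul_apply,
        smul_eq_mul, hwr]
      push_cast
      congr 1 <;> exact Finset.sum_congr rfl fun j _ => mul_comm _ _
    rw [hvec]
    refine quad_lower hS ?_ ?_
    · intro U hU
      have hfix : ∀ j, U.mulVec (bv (Sum.inl j)) = bv (Sum.inl j) := by
        intro j
        have h2 : bv (Sum.inl j) = ((bW j : M) : Fin n → ℤ) := by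
          show ((b (Sum.inl j) : M) : Fin n → ℤ) = _
          rw [Module.Basis.sumQuot_inl]
        rw [h2]
        exact (bW j).2 U hU
      have hyc : y = (cols fun j => bv (Sum.inl j)).mulVec x := by
        ext i
        simp only [y, cols, Matrix.mulVec, dotProduct, Matrix.of_apply]
        exact Finset.sum_congr rfl fun j _ => mul_comm _ _
      rw [hyc, Matrix.mulVec_mulVec]
      congr 1
      ext i j
      have h3 := congrFun (cast_mulVec U (bv (Sum.inl j))) i
      rw [hfix j] at h3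
      rw [Matrix.mul_apply]
      exact h3.symm
    · intro hu
      apply hw
      have h2 : ∀ j, b.repr (∑ j, w j • b (Sum.inr j)) (Sum.inr j) = w j := by
        intro j
        rw [map_sum, Finsupp.finsetSum_apply]
        rw [Finset.sum_eq_single j]
        · simp
        · intro j' _ hj'
          simp [hj']
        · simp
      have h3 : (∑ j, w j • b (Sum.inr j)) ∈ W := by
        show M.subtype (∑ j, w j • b (Sum.inr j)) ∈ fixedLattice S
        have : M.subtype (∑ j, w j • b (Sum.inr j)) = u := by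
          rw [map_sum]
          rfl
        rw [this]
        exact hu
      ext j
      rw [← h2 j, Module.Basis.sumQuot_repr_inr_of_mem bW bQ _ h3]
      rfl
  rw [hvM, hvM', ← hEgram, hdetG]
  have hE0 : 0 < E.det := hEpd.det_pos
  nlinarith [mul_le_mul_of_nonneg_right hmain hE0.le]

end Pool.Agent.Lib.MP_ef2672_gt_Chain
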