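import Pool.Agent.Lib.MP_ef2672_gt_Chain.Order

/-!
Commuting involutive isometries.
-/

namespace Pool.Agent.Lib.MP_ef2672_gt_Chain

open Pool.Agent.Lib.MP_ef2672_gt_Tauber Pool.Agent.Lib.MP_ef2672_gt_Sym

section

variable {G : Type*} [Group G] {n : ℕ} (ρ : G →* Matrix (Fin n) (Fin n) ℤ)

lemma exists_simultaneous (H : Subgroup G) [Fintype H] (hc : ∀ a ∈ H, ∀ b ∈ H, a * b = b * a)
    (h2 : ∀ a ∈ H, a * a = 1) (hH : ∃ h ∈ H, ρ h ≠ 1) (T : Finset G) :
    (∀ h ∈ T, h ∈ H) → ∃ w : Fin n → ℤ, w ≠ 0 ∧ (∑ k : H, ρ (k : G)).mulVec w = 0 ∧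
      ∀ h ∈ T, (ρ h).mulVec w = w ∨ (ρ h).mulVec w = -w := by
  classical
  induction T using Finset.induction_on with
  | empty =>
    intro _
    obtain ⟨h₀, hh₀, hne⟩ := hH
    have hex : ∃ x : Fin n → ℤ, (ρ h₀).mulVec x ≠ x := by
      by_contra hcon
      push Not at hcon
      apply hne
      refine Matrix.ext_of_mulVec_single fun i => ?_
      rw [hcon, Matrix.one_mulVec]
    obtain ⟨x, hx⟩ := hex
    refine ⟨x - (ρ h₀).mulVec x, fun h => hx (sub_eq_zero.1 h).symm, ?_, by simp⟩
    rw [Matrix.mulVec_sub, Matrix.mulVec_mulVec, sum_mul_right ρ H hh₀, sub_self]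
  | insert a T ha ih =>
    intro hT
    obtain ⟨w, hw0, hws, hwT⟩ := ih fun h hh => hT h (Finset.mem_insert_of_mem hh)
    have haH := hT a (Finset.mem_insert_self a T)
    by_cases hneg : (ρ a).mulVec w = -w
    · refine ⟨w, hw0, hws, fun h hh => ?_⟩
      rcases Finset.mem_insert.1 hh with h1 | h1
      · rw [h1]; exact Or.inr hneg
      · exact hwT h h1
    · refine ⟨w + (ρ a).mulVec w, ?_, ?_, ?_⟩
      · intro h0
        exact hneg (eq_neg_of_add_eq_zero_right h0)
      · rw [Matrix.mulVec_add, Matrix.mulVec_mulVec, sum_mul_right ρ H haH, hws, add_zero]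
      · intro h hh
        rcases Finset.mem_insert.1 hh with h1 | h1
        · left
          rw [h1, Matrix.mulVec_add, Matrix.mulVec_mulVec, ← map_mul, h2 a haH, map_one,
            Matrix.one_mulVec, add_comm]
        · have hhH := hT h (Finset.mem_insert_of_mem h1)
          have h3 : (ρ h).mulVec ((ρ a).mulVec w) = (ρ a).mulVec ((ρ h).mulVec w) := by
            rw [Matrix.mulVec_mulVec, Matrix.mulVec_mulVec, ← map_mul, ← map_mul,
              hc h hhH a haH]
          rcases hwT h h1 with h4 | h4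
          · left
            rw [Matrix.mulVec_add, h3, h4]
          · right
            rw [Matrix.mulVec_add, h3, h4, Matrix.mulVec_neg, neg_add]

lemma invol_index [Finite G] (H : Subgroup G) (hc : ∀ a ∈ H, ∀ b ∈ H, a * b = b * a)
    (h2 : ∀ a ∈ H, a * a = 1) (hH : ∃ h ∈ H, ρ h ≠ 1) :
    ∃ K : Subgroup G, K ≤ H ∧ K.relIndex H ≤ 2 ∧
      fixRank (ρ '' (H : Set G)) < fixRank (ρ '' (K : Set G)) := by
  classical
  have hGf : Fintype G := Fintype.ofFinite G
  obtain ⟨w, hw0, hws, hwT⟩ := exists_simultaneous ρ H hc h2 hH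
    (Finset.univ.filter fun g => g ∈ H) (by simp)
  have hw : ∀ h ∈ H, (ρ h).mulVec w = w ∨ (ρ h).mulVec w = -w := by
    intro h hh
    exact hwT h (by simp [hh])
  have hwne : w ≠ -w := by
    intro h
    apply hw0
    ext i
    have := congrFun h i
    rw [Pi.neg_apply] at this
    rw [Pi.zero_apply]
    omega
  let chi : H →* ℤˣ :=
    { toFun := fun h => if (ρ h).mulVec w = w then 1 else -1
      map_one' := by simp
      map_mul' := fun a b => by
        have e : (ρ ((a * b : H) : G)).mulVec w = (ρ (a : G)).mulVec ((ρ (b : G)).mulVec w) := by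
          rw [Matrix.mulVec_mulVec, ← map_mul]
          rfl
        show (if (ρ ((a * b : H) : G)).mulVec w = w then (1 : ℤˣ) else -1) =
          (if (ρ (a : G)).mulVec w = w then 1 else -1) *
          (if (ρ (b : G)).mulVec w = w then 1 else -1)
        rw [e]
        rcases hw b b.2 with hb | hb
        · rw [hb, if_pos rfl, mul_one]
        · rcases hw a a.2 with ha | ha
          · rw [hb, Matrix.mulVec_neg, ha, if_neg hwne.symm, if_pos rfl, one_mul]
          · rw [hb, Matrix.mulVec_neg, ha, neg_neg, if_pos rfl, if_neg hwne.symm]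
            simp }
  refine ⟨chi.ker.map H.subtype, Subgroup.map_subtype_le _, ?_, ?_⟩
  · have h1 : (chi.ker.map H.subtype).subgroupOf H = chi.ker := by
      ext x
      rw [Subgroup.mem_subgroupOf]
      constructor
      · rintro ⟨y, hy, hyx⟩
        have : y = x := Subtype.ext hyx
        rwa [← this]
      · intro hx
        exact ⟨x, hx, rfl⟩
    rw [Subgroup.relIndex, h1, Subgroup.index_ker]
    have h3 : Nat.card chi.range ≤ Nat.card ℤˣ := Subgroup.card_le_card_group _
    have h4 : Nat.card ℤˣ = 2 := by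
      rw [Nat.card_eq_fintype_card]; rfl
    omega
  · refine fixRank_lt (x := w) (image_mono ρ (Subgroup.map_subtype_le _)) ?_ ?_
    · rw [mem_fix]
      rintro _ ⟨x, hx, rfl⟩
      have h3 : (if (ρ x).mulVec w = w then (1 : ℤˣ) else -1) = 1 := hx
      by_contra h4
      have h4' : ¬ (ρ x).mulVec w = w := h4
      rw [if_neg h4'] at h3
      exact absurd h3 (by decide)
    · intro hx
      rw [mem_fix] at hx
      rw [Matrix.sum_mulVec, Finset.sum_congr rfl fun (k : H) _ => hx k k.2, Finset.sum_const,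
        Finset.card_univ] at hws
      have h3 : Fintype.card H ≠ 0 := Fintype.card_ne_zero
      exact hw0 ((smul_eq_zero.1 hws).resolve_left h3)

theorem invol_reach [Finite G] (hinj : Function.Injective ρ)
    {A : Matrix (Fin n) (Fin n) ℝ} (hA : A.det ≠ 0) (hiso : ∀ g, IsIsometry A (ρ g)) (m : ℕ) :
    ∀ H : Subgroup G, (∀ a ∈ H, ∀ b ∈ H, a * b = b * a) → (∀ a ∈ H, a * a = 1) →
      Nat.card H ≤ m → ∃ D : List ℕ, (∀ d ∈ D, 1 ≤ d) ∧
      Reach A (ρ '' (H : Set G)) D ∧ Nat.card H ≤ 2 ^ D.length := by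
  induction m with
  | zero =>
    intro H _ _ hH
    have : 0 < Nat.card H := Nat.card_pos
    omega
  | succ m ih =>
    intro H hc h2 hH
    by_cases htriv : ∀ h ∈ H, ρ h = 1
    · refine ⟨[], by simp, reach_base A ?_, ?_⟩
      · rintro _ ⟨g, hg, rfl⟩
        exact htriv g hg
      · have h1 : H = ⊥ := by
          rw [eq_bot_iff]
          intro h hh
          rw [Subgroup.mem_bot]
          exact hinj (by rw [htriv h hh, map_one])
        rw [h1]
        simp
    · push Not at htriv
      obtain ⟨K, hKH, hidx, hrank⟩ := invol_index ρ H hc h2 htriv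
      have hcard : Nat.card K * K.relIndex H = Nat.card H := by
        have := Subgroup.relIndex_mul_relIndex ⊥ K H bot_le hKH
        rwa [Subgroup.relIndex_bot_left, Subgroup.relIndex_bot_left] at this
      have hlt : Nat.card K < Nat.card H := by
        by_contra hcon
        have h1 : K = H := Subgroup.eq_of_le_of_card_ge hKH (not_lt.1 hcon)
        rw [h1] at hrank
        exact lt_irrefl _ hrank
      obtain ⟨D, hD, hreach, hDc⟩ := ih K (fun a ha b hb => hc a (hKH ha) b (hKH hb))
        (fun a ha => h2 a (hKH ha)) (by omega)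
      refine ⟨(fixRank (ρ '' (K : Set G)) - fixRank (ρ '' (H : Set G))) :: D, ?_, ?_, ?_⟩
      · intro d hd
        rcases List.mem_cons.1 hd with h1 | h1
        · omega
        · exact hD d h1
      · refine reach_cons hA hreach (image_mono ρ hKH) ?_
        rintro _ ⟨g, _, rfl⟩
        exact hiso g
      · rw [List.length_cons, pow_succ, ← hcard]
        exact Nat.mul_le_mul hDc hidx

end

/-- A lattice with `2^r` commuting involutive isometries. -/
theorem invol_bound {n r : ℕ} (hn : 0 < n) {A : Matrix (Fin n) (Fin n) ℝ} (hA : A.det ≠ 0)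
    (S : Finset (Matrix (Fin n) (Fin n) ℤ)) (hr : 2 ^ r ≤ S.card)
    (hS : ∀ U ∈ S, IsIsometry A U ∧ U * U = 1) (hSc : ∀ U ∈ S, ∀ V ∈ S, U * V = V * U) :
    inv A ≤ 4 * (n : ℝ) ^ (1 - ((r : ℝ) - 1) / n) := by
  classical
  have hfin := finite_isoGroup hA
  let s : Set (isoGroup A) := {g | isoHom A g ∈ S}
  have hscomm : ∀ x ∈ s, ∀ y ∈ s, x * y = y * x := by
    intro x hx y hy
    apply isoHom_injective A
    rw [map_mul, map_mul]
    exact hSc _ hx _ hy
  let H : Subgroup (isoGroup A) := Subgroup.closure s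
  have hcomm : IsMulCommutative H := Subgroup.isMulCommutative_closure hscomm
  have hc : ∀ a ∈ H, ∀ b ∈ H, a * b = b * a := by
    intro a ha b hb
    have := hcomm.is_comm.comm (⟨a, ha⟩ : H) ⟨b, hb⟩
    exact congrArg Subtype.val this
  have h2 : ∀ a ∈ H, a * a = 1 := by
    intro a ha
    induction ha using Subgroup.closure_induction with
    | mem x hx =>
      apply isoHom_injective A
      rw [map_mul, map_one]
      exact (hS _ hx).2
    | one => exact one_mul 1
    | mul x y hx hy ihx ihy =>
      have h3 := hc x hx y hy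
      calc x * y * (x * y) = x * (y * x) * y := by group
        _ = x * (x * y) * y := by rw [h3]
        _ = (x * x) * (y * y) := by group
        _ = 1 := by rw [ihx, ihy, one_mul]
    | inv x hx ihx =>
      have : x⁻¹ = x := inv_eq_of_mul_eq_one_left ihx
      rw [this]
      exact ihx
  obtain ⟨D, hD, hreach, hcard⟩ := invol_reach (isoHom A) (isoHom_injective A) hA
    (isoHom_isometry A) (Nat.card H) H hc h2 le_rfl
  have hSH : S.card ≤ Nat.card H := by
    have h3 : ∀ U ∈ S, ∃ g : H, isoHom A g = U := by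
      intro U hU
      obtain ⟨u, hu⟩ := isometry_isUnit hA (hS U hU).1
      have hu' : IsIsometry A (u : Matrix (Fin n) (Fin n) ℤ) := by rw [hu]; exact (hS U hU).1
      refine ⟨⟨⟨u, hu'⟩, Subgroup.subset_closure ?_⟩, hu⟩
      show isoHom A ⟨u, hu'⟩ ∈ S
      have h4 : isoHom A ⟨u, hu'⟩ = U := hu
      rw [h4]
      exact hU
    choose! f hf using h3
    have h4 : Nat.card S ≤ Nat.card H := by
      refine Nat.card_le_card_of_injective (fun U : S => f U) ?_
      intro U V hUV
      apply Subtype.ext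
      rw [← hf U U.2, ← hf V V.2]
      exact congrArg (fun g : H => isoHom A g) hUV
    rwa [Nat.card_eq_fintype_card, Fintype.card_coe] at h4
  have hrl : r ≤ D.length := by
    have h3 : 2 ^ r ≤ 2 ^ D.length := hr.trans (hSH.trans hcard)
    exact (Nat.pow_le_pow_iff_right (by norm_num)).1 h3
  have h3 := length_bound hn Nat.one_pos (by omega : 1 ≤ n) hA hreach hD
  have hn0 : (0 : ℝ) < n := by exact_mod_cast hn
  have hn1 : (1 : ℝ) ≤ n := by exact_mod_cast hn
  have hlogn : 0 ≤ Real.log n := Real.log_nonneg hn1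
  rw [Nat.cast_one, one_mul, div_one] at h3
  have h4 : ((r : ℝ) - 1) * Real.log n ≤ n * Real.log (4 * n / inv A) := by
    refine le_trans (mul_le_mul_of_nonneg_right ?_ hlogn) h3
    have : (r : ℝ) ≤ D.length := by exact_mod_cast hrl
    linarith
  have hi := inv_pos hn hA
  rw [Real.log_div (by positivity) hi.ne', Real.log_mul (by norm_num) hn0.ne'] at h4
  rw [← Real.log_le_log_iff hi (by positivity), Real.log_mul (by norm_num) (by positivity),
    Real.log_rpow hn0]
  have h5 : Real.log (inv A) * n ≤ (Real.log 4 + (1 - ((r : ℝ) - 1) / n) * Real.log n) * n := by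
    have h6 : (Real.log 4 + (1 - ((r : ℝ) - 1) / n) * Real.log n) * n =
        n * Real.log 4 + n * Real.log n - ((r : ℝ) - 1) * Real.log n := by
      field_simp
      ring
    rw [h6]
    linarith
  exact le_of_mul_le_mul_right h5 hn0

end Pool.Agent.Lib.MP_ef2672_gt_Chain
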