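import Pool.Agent.Lib.MP_ef2672_gt_Chain.Length

/-!
The group of isometries of a lattice.
-/

namespace Pool.Agent.Lib.MP_ef2672_gt_Chain

open Pool.Agent.Lib.MP_ef2672_gt_Tauber Pool.Agent.Lib.MP_ef2672_gt_Sym

lemma isometry_iff {n : ℕ} {A : Matrix (Fin n) (Fin n) ℝ} {U : Matrix (Fin n) (Fin n) ℤ} :
    IsIsometry A U ↔ (U.map (Int.cast : ℤ → ℝ)).transpose * (A.transpose * A) *
      U.map (Int.cast : ℤ → ℝ) = A.transpose * A := by
  unfold IsIsometry
  rw [Matrix.transpose_mul]
  simp only [Matrix.mul_assoc]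

lemma isometry_one {n : ℕ} (A : Matrix (Fin n) (Fin n) ℝ) : IsIsometry A 1 := by
  rw [isometry_iff, Matrix.map_one _ Int.cast_zero Int.cast_one, Matrix.transpose_one,
    Matrix.one_mul, Matrix.mul_one]

lemma map_mul_real {n : ℕ} (U V : Matrix (Fin n) (Fin n) ℤ) :
    (U * V).map (Int.cast : ℤ → ℝ) = U.map (Int.cast : ℤ → ℝ) * V.map (Int.cast : ℤ → ℝ) :=
  Matrix.map_mul (f := Int.castRingHom ℝ)

lemma isometry_mul {n : ℕ} {A : Matrix (Fin n) (Fin n) ℝ} {U V : Matrix (Fin n) (Fin n) ℤ}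
    (hU : IsIsometry A U) (hV : IsIsometry A V) : IsIsometry A (U * V) := by
  rw [isometry_iff] at hU hV ⊢
  rw [map_mul_real, Matrix.transpose_mul]
  calc (V.map (Int.cast : ℤ → ℝ)).transpose * (U.map (Int.cast : ℤ → ℝ)).transpose *
        (A.transpose * A) * (U.map (Int.cast : ℤ → ℝ) * V.map (Int.cast : ℤ → ℝ))
      = (V.map (Int.cast : ℤ → ℝ)).transpose * ((U.map (Int.cast : ℤ → ℝ)).transpose *
        (A.transpose * A) * U.map (Int.cast : ℤ → ℝ)) * V.map (Int.cast : ℤ → ℝ) := by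
        simp only [Matrix.mul_assoc]
    _ = _ := by rw [hU, hV]

lemma isometry_left_inv {n : ℕ} {A : Matrix (Fin n) (Fin n) ℝ} {U V : Matrix (Fin n) (Fin n) ℤ}
    (hU : IsIsometry A U) (hUV : U * V = 1) : IsIsometry A V := by
  rw [isometry_iff] at hU ⊢
  have h1 : U.map (Int.cast : ℤ → ℝ) * V.map (Int.cast : ℤ → ℝ) = 1 := by
    rw [← map_mul_real, hUV, Matrix.map_one _ Int.cast_zero Int.cast_one]
  have h2 : (V.map (Int.cast : ℤ → ℝ)).transpose * (U.map (Int.cast : ℤ → ℝ)).transpose = 1 := by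
    rw [← Matrix.transpose_mul, h1, Matrix.transpose_one]
  calc (V.map (Int.cast : ℤ → ℝ)).transpose * (A.transpose * A) * V.map (Int.cast : ℤ → ℝ)
      = (V.map (Int.cast : ℤ → ℝ)).transpose * ((U.map (Int.cast : ℤ → ℝ)).transpose *
        (A.transpose * A) * U.map (Int.cast : ℤ → ℝ)) * V.map (Int.cast : ℤ → ℝ) := by rw [hU]
    _ = ((V.map (Int.cast : ℤ → ℝ)).transpose * (U.map (Int.cast : ℤ → ℝ)).transpose) *
        (A.transpose * A) * (U.map (Int.cast : ℤ → ℝ) * V.map (Int.cast : ℤ → ℝ)) := by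
        simp only [Matrix.mul_assoc]
    _ = _ := by rw [h1, h2, Matrix.one_mul, Matrix.mul_one]

lemma isometry_isUnit {n : ℕ} {A : Matrix (Fin n) (Fin n) ℝ} (hA : A.det ≠ 0)
    {U : Matrix (Fin n) (Fin n) ℤ} (hU : IsIsometry A U) : IsUnit U := by
  rw [isometry_iff] at hU
  have h1 := congrArg Matrix.det hU
  have h2 : (U.map (Int.cast : ℤ → ℝ)).det = (U.det : ℝ) := (Int.cast_det U).symm
  simp only [Matrix.det_mul, Matrix.det_transpose, h2] at h1
  have h3 : (U.det : ℝ) * U.det = 1 := by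
    have h4 : A.det * A.det ≠ 0 := mul_ne_zero hA hA
    apply mul_left_cancel₀ h4
    linarith
  have h5 : U.det * U.det = 1 := by exact_mod_cast h3
  rw [Matrix.isUnit_iff_isUnit_det]
  exact IsUnit.of_mul_eq_one _ h5

/-- The isometries of the lattice `A ℤⁿ` as a group of units. -/
def isoGroup {n : ℕ} (A : Matrix (Fin n) (Fin n) ℝ) : Subgroup (Matrix (Fin n) (Fin n) ℤ)ˣ where
  carrier := {U | IsIsometry A (U : Matrix (Fin n) (Fin n) ℤ)}
  mul_mem' := fun {a b} ha hb => by
    show IsIsometry A ((a * b : (Matrix (Fin n) (Fin n) ℤ)ˣ) : Matrix (Fin n) (Fin n) ℤ)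
    rw [Units.val_mul]
    exact isometry_mul ha hb
  one_mem' := isometry_one A
  inv_mem' := fun {a} ha => isometry_left_inv ha (Units.mul_inv a)

/-- The inclusion of the group of isometries in the integer matrices. -/
def isoHom {n : ℕ} (A : Matrix (Fin n) (Fin n) ℝ) : isoGroup A →* Matrix (Fin n) (Fin n) ℤ :=
  (Units.coeHom _).comp (isoGroup A).subtype

lemma isoHom_injective {n : ℕ} (A : Matrix (Fin n) (Fin n) ℝ) :
    Function.Injective (isoHom A) := fun _ _ h => Subtype.ext (Units.ext h)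

lemma isoHom_isometry {n : ℕ} (A : Matrix (Fin n) (Fin n) ℝ) (g : isoGroup A) :
    IsIsometry A (isoHom A g) := g.2

lemma card_isoGroup {n : ℕ} {A : Matrix (Fin n) (Fin n) ℝ} (hA : A.det ≠ 0) :
    Nat.card (isoGroup A) = Nat.card {U : Matrix (Fin n) (Fin n) ℤ // IsIsometry A U} := by
  refine Nat.card_congr (Equiv.ofBijective (fun g => ⟨isoHom A g, isoHom_isometry A g⟩) ⟨?_, ?_⟩)
  · intro g h hgh
    exact isoHom_injective A (congrArg Subtype.val hgh)
  · rintro ⟨U, hU⟩
    obtain ⟨u, hu⟩ := isometry_isUnit hA hU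
    have hu' : IsIsometry A (u : Matrix (Fin n) (Fin n) ℤ) := by rw [hu]; exact hU
    exact ⟨⟨u, hu'⟩, Subtype.ext hu⟩

/-- There are finitely many isometries. -/
lemma finite_iso {n : ℕ} {A : Matrix (Fin n) (Fin n) ℝ} (hA : A.det ≠ 0) :
    {U : Matrix (Fin n) (Fin n) ℤ | IsIsometry A U}.Finite := by
  classical
  set r : ℝ := ∑ j : Fin n, normSq A (Pi.single j 1) + 1 with hr
  have hfin := finite_short A hA r
  have hpi : (Set.pi Set.univ fun _ : Fin n => {w : Fin n → ℤ | w ≠ 0 ∧ normSq A w < r}).Finite :=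
    Set.Finite.pi fun _ => hfin
  refine Set.Finite.of_injOn (f := fun U => fun j : Fin n => U.mulVec (Pi.single j 1)) ?_ ?_ hpi
  · intro U hU j _
    have h1 : normSq A (U.mulVec (Pi.single j 1)) = normSq A (Pi.single j 1) := by
      unfold normSq
      rw [cast_mulVec]
      exact isometry_norm hU _
    have h2 : (Pi.single j 1 : Fin n → ℤ) ≠ 0 := by
      intro h
      have := congrFun h j
      simp at this
    refine ⟨?_, ?_⟩
    · intro h0
      have h0' : U.mulVec (Pi.single j 1) = 0 := h0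
      have h3 := normSq_pos hA h2
      rw [← h1, h0'] at h3
      have h4 : normSq A 0 = 0 := by
        unfold normSq
        have : (fun j => (((0 : Fin n → ℤ) j : ℤ) : ℝ)) = 0 := by ext; simp
        rw [this, Matrix.mulVec_zero]
        simp
      rw [h4] at h3
      exact lt_irrefl _ h3
    · rw [h1, hr]
      have := Finset.single_le_sum (f := fun j : Fin n => normSq A (Pi.single j 1))
        (fun j _ => normSq_nonneg A _) (Finset.mem_univ j)
      linarith
  · intro U _ V _ hUV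
    refine Matrix.ext_of_mulVec_single fun j => ?_
    exact congrFun hUV j

lemma finite_isoGroup {n : ℕ} {A : Matrix (Fin n) (Fin n) ℝ} (hA : A.det ≠ 0) :
    Finite (isoGroup A) := by
  have := (finite_iso hA).to_subtype
  exact Finite.of_injective
    (fun g => (⟨isoHom A g, isoHom_isometry A g⟩ :
      {U : Matrix (Fin n) (Fin n) ℤ | IsIsometry A U}))
    fun g h hgh => isoHom_injective A (congrArg Subtype.val hgh)

end Pool.Agent.Lib.MP_ef2672_gt_Chain
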