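import Pool.Agent.Lib.MP_ef2672_gt_Chain.Index

/-!
A subgroup of small index with a larger lattice of fixed vectors.
-/

namespace Pool.Agent.Lib.MP_ef2672_gt_Chain

section

variable {G : Type*} [Group G] {n : ℕ} (ρ : G →* Matrix (Fin n) (Fin n) ℤ)

lemma sum_mul_right (K : Subgroup G) [Fintype K] {h : G} (hh : h ∈ K) :
    (∑ k : K, ρ (k : G)) * ρ h = ∑ k : K, ρ (k : G) := by
  rw [Finset.sum_mul]
  refine Fintype.sum_equiv (Equiv.mulRight (⟨h, hh⟩ : K)) _ _ fun k => ?_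
  rw [← map_mul]
  rfl

lemma sum_mul_left (K : Subgroup G) [Fintype K] {h : G} (hh : h ∈ K) :
    ρ h * (∑ k : K, ρ (k : G)) = ∑ k : K, ρ (k : G) := by
  rw [Finset.mul_sum]
  refine Fintype.sum_equiv (Equiv.mulLeft (⟨h, hh⟩ : K)) _ _ fun k => ?_
  rw [← map_mul]
  rfl

/-- The sum over a subgroup, acting on complex vectors. -/
lemma sum_cplx (K : Subgroup G) [Fintype K] (x : Fin n → ℂ) :
    ∑ k : K, cplx ρ (k : G) x =
      ((∑ k : K, ρ (k : G)).map (Int.castRingHom ℂ)).mulVec x := by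
  have h1 : (∑ k : K, ρ (k : G)).map (Int.castRingHom ℂ) =
      ∑ k : K, (ρ (k : G)).map (Int.castRingHom ℂ) := by
    have := map_sum (RingHom.mapMatrix (m := Fin n) (Int.castRingHom ℂ)) (fun k : K => ρ (k : G))
      Finset.univ
    exact this
  rw [h1, Matrix.sum_mulVec]
  rfl

theorem exists_small_index {p : ℕ} [hp : Fact p.Prime] [Finite G] (hG : IsPGroup p G)
    (hline : ∀ (H : Subgroup G) (W : Submodule ℂ (Fin n → ℂ)), W ≠ ⊥ →
      (∀ h ∈ H, ∀ x ∈ W, cplx ρ h x ∈ W) → ∃ w ∈ W, w ≠ 0 ∧ ∃ K : Subgroup G, K ≤ H ∧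
        K.relIndex H ≤ Module.finrank ℂ W ∧ ∀ h ∈ K, ∃ c : ℂ, cplx ρ h w = c • w)
    (H : Subgroup G) (hH : ∃ h ∈ H, ρ h ≠ 1) :
    ∃ K : Subgroup G, K ≤ H ∧ K.relIndex H ≤ 2 * n ^ 2 ∧
      fixRank (ρ '' (H : Set G)) < fixRank (ρ '' (K : Set G)) := by
  classical
  have hGf : Fintype G := Fintype.ofFinite G
  obtain ⟨h₀, hh₀, hne⟩ := hH
  let E : (Fin n → ℂ) →ₗ[ℂ] (Fin n → ℂ) := ∑ k : H, cplx ρ (k : G)
  have hE : ∀ x, E x = ((∑ k : H, ρ (k : G)).map (Int.castRingHom ℂ)).mulVec x := by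
    intro x
    show (∑ k : H, cplx ρ (k : G)) x = _
    rw [LinearMap.sum_apply]
    exact sum_cplx ρ H x
  have hEh : ∀ h ∈ H, ∀ x, E (cplx ρ h x) = E x := by
    intro h hh x
    rw [hE, hE, cplx_apply, Matrix.mulVec_mulVec, ← Matrix.map_mul, sum_mul_right ρ H hh]
  set W : Submodule ℂ (Fin n → ℂ) := LinearMap.ker E with hW
  have hWstab : ∀ h ∈ H, ∀ x ∈ W, cplx ρ h x ∈ W := by
    intro h hh x hx
    rw [hW, LinearMap.mem_ker] at hx ⊢
    rw [hEh h hh, hx]
  have hWne : W ≠ ⊥ := by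
    intro h0
    apply hne
    have h1 : ∀ x : Fin n → ℂ, cplx ρ h₀ x = x := by
      intro x
      have h2 : x - cplx ρ h₀ x ∈ W := by
        rw [hW, LinearMap.mem_ker, map_sub, hEh h₀ hh₀, sub_self]
      rw [h0, Submodule.mem_bot, sub_eq_zero] at h2
      exact h2.symm
    have h3 : (ρ h₀).map (Int.castRingHom ℂ) = 1 := by
      have h4 : Matrix.toLin' ((ρ h₀).map (Int.castRingHom ℂ)) = Matrix.toLin' 1 := by
        rw [Matrix.toLin'_one]
        exact LinearMap.ext fun x => h1 x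
      exact Matrix.toLin'.injective h4
    ext i j
    have h5 := congrFun (congrFun h3 i) j
    rw [Matrix.map_apply] at h5
    by_cases hij : i = j
    · subst hij
      rw [Matrix.one_apply_eq] at h5 ⊢
      have : ((ρ h₀ i i : ℤ) : ℂ) = ((1 : ℤ) : ℂ) := by simpa using h5
      exact_mod_cast this
    · rw [Matrix.one_apply_ne hij] at h5 ⊢
      have : ((ρ h₀ i j : ℤ) : ℂ) = ((0 : ℤ) : ℂ) := by simpa using h5
      exact_mod_cast this
  obtain ⟨w, hwW, hw0, K₁, hK₁H, hidx1, hK₁⟩ := hline H W hWne hWstab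
  obtain ⟨K, hKK₁, hidx2, hK⟩ := index_scalar ρ hG K₁ hw0 hK₁
  have hKH : K ≤ H := hKK₁.trans hK₁H
  refine ⟨K, hKH, ?_, ?_⟩
  · rw [← Subgroup.relIndex_mul_relIndex K K₁ H hKK₁ hK₁H]
    have h1 : Module.finrank ℂ W ≤ n := by
      have := Submodule.finrank_le W
      rwa [Module.finrank_fin_fun] at this
    calc K.relIndex K₁ * K₁.relIndex H ≤ (2 * n) * n :=
          Nat.mul_le_mul hidx2 (hidx1.trans h1)
      _ = 2 * n ^ 2 := by ring
  · by_contra hcon
    have hsub : ∀ x ∈ fixedLattice (ρ '' (K : Set G)), x ∈ fixedLattice (ρ '' (H : Set G)) := by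
      intro x hx
      by_contra hx'
      exact hcon (fixRank_lt (image_mono ρ hKH) hx hx')
    have hmat : ∀ h ∈ H, ρ h * (∑ k : K, ρ (k : G)) = ∑ k : K, ρ (k : G) := by
      intro h hh
      refine Matrix.ext_of_mulVec_single fun i => ?_
      rw [← Matrix.mulVec_mulVec]
      refine (mem_fix ρ).1 (hsub _ ?_) h hh
      rw [mem_fix]
      intro k hk
      rw [Matrix.mulVec_mulVec, sum_mul_left ρ K hk]
    have hEK : ((∑ k : K, ρ (k : G)).map (Int.castRingHom ℂ)).mulVec w =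
        (Fintype.card K : ℂ) • w := by
      rw [← sum_cplx, Finset.sum_congr rfl fun (k : K) _ => hK k k.2, Finset.sum_const,
        Finset.card_univ, Nat.cast_smul_eq_nsmul]
    have hfix : ∀ h ∈ H, cplx ρ h w = w := by
      intro h hh
      have h1 : cplx ρ h ((Fintype.card K : ℂ) • w) = (Fintype.card K : ℂ) • w := by
        rw [← hEK, cplx_apply, Matrix.mulVec_mulVec, ← Matrix.map_mul, hmat h hh]
      rw [map_smul] at h1
      have h2 : (Fintype.card K : ℂ) ≠ 0 := by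
        exact_mod_cast Fintype.card_ne_zero
      exact smul_right_injective _ h2 h1
    have h3 : E w = (Fintype.card H : ℂ) • w := by
      show (∑ k : H, cplx ρ (k : G)) w = _
      rw [LinearMap.sum_apply, Finset.sum_congr rfl fun (k : H) _ => hfix k k.2, Finset.sum_const,
        Finset.card_univ, Nat.cast_smul_eq_nsmul]
    rw [hW, LinearMap.mem_ker] at hwW
    rw [hwW] at h3
    have h4 : (Fintype.card H : ℂ) ≠ 0 := by
      exact_mod_cast Fintype.card_ne_zero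
    exact hw0 ((smul_eq_zero.1 h3.symm).resolve_left h4)

end

end Pool.Agent.Lib.MP_ef2672_gt_Chain
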