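import Pool.Agent.Lib.MP_ef2672_gt_Chain.Entropy
import Pool.Agent.Lib.MP_ef2672_gt_Chain.Small

/-!
The length of a chain of lattices of fixed vectors, and the order of a `p`-group of isometries.
-/

namespace Pool.Agent.Lib.MP_ef2672_gt_Chain

open Pool.Agent.Lib.MP_ef2672_gt_Tauber Pool.Agent.Lib.MP_ef2672_gt_Sym

lemma negMulLog_bound {x y : ℝ} (hy0 : 0 < y) (hyx : y ≤ x) (hx1 : x ≤ 1) :
    (1 - x) * Real.negMulLog y ≤ Real.negMulLog x := by
  rcases (hyx.trans hx1).eq_or_lt with hy1 | hy1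
  · have : x = 1 := le_antisymm hx1 (hy1 ▸ hyx)
    rw [this]
    simp
  · have h1y : 0 < 1 - y := by linarith
    set t := (1 - x) / (1 - y) with ht
    have ht0 : 0 ≤ t := div_nonneg (by linarith) h1y.le
    have ht1 : t ≤ 1 := by rw [ht, div_le_one h1y]; linarith
    have h1 := Real.concaveOn_negMulLog.2 (show y ∈ Set.Ici (0 : ℝ) from hy0.le)
      (show (1 : ℝ) ∈ Set.Ici (0 : ℝ) from Set.mem_Ici.2 zero_le_one) ht0 (sub_nonneg.2 ht1) (by ring)
    have h2 : t • y + (1 - t) • (1 : ℝ) = x := by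
      simp only [smul_eq_mul]
      rw [ht]
      field_simp
      ring
    rw [h2, smul_eq_mul, smul_eq_mul] at h1
    have h3 : Real.negMulLog 1 = 0 := by simp [Real.negMulLog]
    rw [h3, mul_zero, add_zero] at h1
    refine le_trans ?_ h1
    refine mul_le_mul_of_nonneg_right ?_ (Real.negMulLog_nonneg hy0.le hy1.le)
    rw [ht, le_div_iff₀ h1y]
    nlinarith

lemma term_bound {n q d : ℕ} (hq : 0 < q) (hqd : q ≤ d) (hdn : d ≤ n) :
    (1 - (d : ℝ) / n) * ((q : ℝ) * Real.log (n / q)) ≤ (d : ℝ) * Real.log (n / d) := by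
  have hn : (0 : ℝ) < n := by exact_mod_cast (by omega : 0 < n)
  have hq0 : (0 : ℝ) < q := by exact_mod_cast hq
  have hd0 : (0 : ℝ) < d := by exact_mod_cast (by omega : 0 < d)
  have hqd' : (q : ℝ) ≤ d := by exact_mod_cast hqd
  have hdn' : (d : ℝ) ≤ n := by exact_mod_cast hdn
  have h := negMulLog_bound (x := d / n) (y := q / n) (by positivity)
    (div_le_div_of_nonneg_right hqd' hn.le) ((div_le_one hn).2 hdn')
  have e : ∀ a : ℝ, 0 < a → Real.negMulLog (a / n) = (a / n) * Real.log (n / a) := by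
    intro a ha
    rw [Real.negMulLog, show (n : ℝ) / a = (a / n)⁻¹ by rw [inv_div], Real.log_inv]
    ring
  rw [e d hd0, e q hq0] at h
  have h2 := mul_le_mul_of_nonneg_left h hn.le
  have e1 : (n : ℝ) * ((1 - d / n) * (q / n * Real.log (n / q))) =
      (1 - (d : ℝ) / n) * ((q : ℝ) * Real.log (n / q)) := by field_simp
  have e2 : (n : ℝ) * (d / n * Real.log (n / d)) = (d : ℝ) * Real.log (n / d) := by field_simp
  rw [e1, e2] at h2
  exact h2

lemma length_aux {n q : ℕ} (hq : 0 < q) (D : List ℕ) (hD : ∀ d ∈ D, q ≤ d) (hs : D.sum ≤ n) :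
    ((D.length : ℝ) - D.sum / n) * ((q : ℝ) * Real.log (n / q)) ≤
      (D.map fun d : ℕ => (d : ℝ) * Real.log (n / d)).sum := by
  induction D with
  | nil => simp
  | cons d D ih =>
    simp only [List.map_cons, List.sum_cons, List.length_cons] at hs ⊢
    have h1 := ih (fun x hx => hD x (List.mem_cons_of_mem _ hx)) (by omega)
    have h2 := term_bound hq (hD d List.mem_cons_self) (by omega : d ≤ n)
    rw [Nat.cast_add, Nat.cast_add, Nat.cast_one]
    have e : ((D.length : ℝ) + 1 - ((d : ℝ) + D.sum) / n) * ((q : ℝ) * Real.log (n / q)) =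
        (1 - (d : ℝ) / n) * ((q : ℝ) * Real.log (n / q)) +
        ((D.length : ℝ) - D.sum / n) * ((q : ℝ) * Real.log (n / q)) := by ring
    rw [e]
    linarith

/-- The length of a chain all of whose drops are at least `q`. -/
lemma length_bound {n q : ℕ} (hn : 0 < n) (hq : 0 < q) (hqn : q ≤ n) {A : Matrix (Fin n) (Fin n) ℝ}
    (hA : A.det ≠ 0) {T : Set (Matrix (Fin n) (Fin n) ℤ)} {D : List ℕ} (h : Reach A T D)
    (hD : ∀ d ∈ D, q ≤ d) :
    ((D.length : ℝ) - 1) * ((q : ℝ) * Real.log (n / q)) ≤ n * Real.log (4 * n / inv A) := by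
  have hs : D.sum ≤ n := by have := h.1; omega
  refine le_trans ?_ ((length_aux hq D hD hs).trans (reach_entropy hn hA h))
  have hn0 : (0 : ℝ) < n := by exact_mod_cast hn
  have hq0 : (0 : ℝ) < q := by exact_mod_cast hq
  have h1 : (D.sum : ℝ) / n ≤ 1 := by
    rw [div_le_one hn0]; exact_mod_cast hs
  have h2 : 0 ≤ (q : ℝ) * Real.log (n / q) := by
    refine mul_nonneg hq0.le (Real.log_nonneg ?_)
    rw [one_le_div hq0]
    exact_mod_cast hqn
  exact mul_le_mul_of_nonneg_right (by linarith) h2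

section

variable {G : Type*} [Group G] {n : ℕ} (ρ : G →* Matrix (Fin n) (Fin n) ℤ)

/-- A `p`-group of isometries of order at most `(2 n²)^l` has a chain of `l` drops, all of them at
least `p - 1`. -/
theorem pgroup_reach {p : ℕ} [hp : Fact p.Prime] [Finite G] (hG : IsPGroup p G)
    (hinj : Function.Injective ρ)
    (hline : ∀ (H : Subgroup G) (W : Submodule ℂ (Fin n → ℂ)), W ≠ ⊥ →
      (∀ h ∈ H, ∀ x ∈ W, cplx ρ h x ∈ W) → ∃ w ∈ W, w ≠ 0 ∧ ∃ K : Subgroup G, K ≤ H ∧
        K.relIndex H ≤ Module.finrank ℂ W ∧ ∀ h ∈ K, ∃ c : ℂ, cplx ρ h w = c • w)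
    {A : Matrix (Fin n) (Fin n) ℝ} (hA : A.det ≠ 0) (hiso : ∀ g, IsIsometry A (ρ g)) (m : ℕ) :
    ∀ H : Subgroup G, Nat.card H ≤ m → ∃ D : List ℕ, (∀ d ∈ D, p - 1 ≤ d) ∧
      Reach A (ρ '' (H : Set G)) D ∧ Nat.card H ≤ (2 * n ^ 2) ^ D.length := by
  induction m with
  | zero =>
    intro H hH
    have : 0 < Nat.card H := Nat.card_pos
    omega
  | succ m ih =>
    intro H hH
    by_cases htriv : ∀ h ∈ H, ρ h = 1
    · refine ⟨[], by simp, reach_base A ?_, ?_⟩
      · rintro _ ⟨g, hg, rfl⟩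
        exact htriv g hg
      · have h1 : H = ⊥ := by
          rw [eq_bot_iff]
          intro h hh
          rw [Subgroup.mem_bot]
          exact hinj (by rw [htriv h hh, map_one])
        rw [h1]
        simp
    · push Not at htriv
      obtain ⟨K, hKH, hidx, hrank⟩ := exists_small_index ρ hG hline H htriv
      have hcard : Nat.card K * K.relIndex H = Nat.card H := by
        have := Subgroup.relIndex_mul_relIndex ⊥ K H bot_le hKH
        rwa [Subgroup.relIndex_bot_left, Subgroup.relIndex_bot_left] at this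
      have hlt : Nat.card K < Nat.card H := by
        by_contra hcon
        have h1 : K = H := Subgroup.eq_of_le_of_card_ge hKH (not_lt.1 hcon)
        rw [h1] at hrank
        exact lt_irrefl _ hrank
      obtain ⟨D, hD, hreach, hDc⟩ := ih K (by omega)
      refine ⟨(fixRank (ρ '' (K : Set G)) - fixRank (ρ '' (H : Set G))) :: D, ?_, ?_, ?_⟩
      · intro d hd
        rcases List.mem_cons.1 hd with h1 | h1
        · rw [h1]
          have h2 := dvd_rank hG ρ H (Nat.card H) K hKH (by omega)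
          exact Nat.le_of_dvd (by omega) h2
        · exact hD d h1
      · refine reach_cons hA hreach (image_mono ρ hKH) ?_
        rintro _ ⟨g, _, rfl⟩
        exact hiso g
      · rw [List.length_cons, pow_succ, ← hcard]
        exact Nat.mul_le_mul hDc hidx

end

end Pool.Agent.Lib.MP_ef2672_gt_Chain
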