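import Mathlib

/-! # A weighted sum over primes (dyadic blocks and the primorial bound) -/

namespace Pool.Agent.Lib.MP_ef2672_gt_Chain

open Finset

lemma ps_card_block (j : ℕ) (s : Finset ℕ) (hs : ∀ p ∈ s, p.Prime ∧ Nat.log 2 p = j) :
    j * s.card ≤ 2 ^ (j + 2) := by
  have h1 : (2 ^ j) ^ s.card ≤ ∏ p ∈ s, p := by
    rw [← Finset.prod_const]
    refine Finset.prod_le_prod' fun p hp => ?_
    obtain ⟨hp1, hp2⟩ := hs p hp
    rw [← hp2]
    exact Nat.pow_log_le_self 2 hp1.ne_zero
  have h2 : ∏ p ∈ s, p ≤ primorial (2 ^ (j + 1)) := by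
    unfold primorial
    refine Finset.prod_le_prod_of_subset_of_one_le' ?_ ?_
    · intro p hp
      obtain ⟨hp1, hp2⟩ := hs p hp
      rw [Finset.mem_filter, Finset.mem_range]
      refine ⟨?_, hp1⟩
      have : p < 2 ^ (Nat.log 2 p + 1) := Nat.lt_pow_succ_log_self (by norm_num) p
      rw [hp2] at this
      omega
    · intro p hp _
      exact (Finset.mem_filter.1 hp).2.one_lt.le
  have h3 : (2 ^ j) ^ s.card ≤ 2 ^ (2 ^ (j + 2)) := by
    calc (2 ^ j) ^ s.card ≤ primorial (2 ^ (j + 1)) := h1.trans h2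
      _ ≤ 4 ^ (2 ^ (j + 1)) := primorial_le_four_pow _
      _ = 2 ^ (2 ^ (j + 2)) := by
        rw [show (4 : ℕ) = 2 ^ 2 by norm_num, ← pow_mul]
        congr 1
        rw [pow_succ 2 (j + 1)]
        ring
  rw [← pow_mul] at h3
  exact (Nat.pow_le_pow_iff_right (by norm_num)).1 h3

lemma ps_harm (m : ℕ) : ∑ j ∈ range (m + 1), (1 : ℝ) / (j : ℝ) = (harmonic m : ℝ) := by
  rw [Finset.sum_range_succ']
  simp [harmonic]

lemma ps_harm_le (m : ℕ) : ∑ j ∈ range (m + 1), (1 : ℝ) / (j : ℝ) ≤ 1 + Real.log m := by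
  rw [ps_harm]
  exact harmonic_le_one_add_log m

/-- bound for one prime -/
lemma ps_one {n : ℕ} {L : ℝ} {J j p l : ℕ} (hL : 1 ≤ L) (hJ : 2 ^ J ≤ n) (hj : 1 ≤ j)
    (hjJ : j + 2 ≤ J) (hp1 : 2 ^ j ≤ p) (hp2 : p < 2 ^ (j + 1))
    (h : ((l : ℝ) - 2) * (((p : ℝ) - 1) * Real.log (n / ((p : ℝ) - 1))) ≤ n * L) :
    (l : ℝ) ≤ 8 * n * L / (2 ^ j * ((J - j : ℕ) : ℝ)) := by
  have ht : 2 ≤ J - j := by omega
  obtain ⟨t, hJt⟩ : ∃ t, J = j + t := ⟨J - j, by omega⟩
  have hJj : J - j = t := by omega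
  rw [hJj] at ht ⊢
  have htR : (2 : ℝ) ≤ t := by exact_mod_cast ht
  have hpos : (0 : ℝ) < 2 ^ j * (t : ℝ) := by positivity
  have hnR : (2 : ℝ) ^ J ≤ n := by exact_mod_cast hJ
  have hn0 : (0 : ℝ) < n := lt_of_lt_of_le (by positivity) hnR
  have h2t : (t : ℝ) ≤ 2 ^ t / 2 := by
    have : t * 2 ≤ 2 ^ t := by
      clear hJt hJj htR hpos
      induction t with
      | zero => simp
      | succ t ih =>
        rcases Nat.lt_or_ge t 2 with h3 | h3
        · interval_cases t
          · omega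
          · norm_num
        · have := ih h3
          rw [pow_succ]
          omega
    have h4 : (t : ℝ) * 2 ≤ 2 ^ t := by exact_mod_cast this
    linarith
  -- `2 ≤ n L / (2^j t)`
  have hA : 2 * (2 ^ j * (t : ℝ)) ≤ n * L := by
    have h5 : 2 * (2 ^ j * (t : ℝ)) ≤ 2 ^ J := by
      rw [hJt, pow_add]
      have : (0 : ℝ) < 2 ^ j := by positivity
      nlinarith
    nlinarith
  rw [le_div_iff₀ hpos]
  rcases le_or_gt (l : ℝ) 2 with hl | hl
  · have : (l : ℝ) * (2 ^ j * (t : ℝ)) ≤ 2 * (2 ^ j * (t : ℝ)) :=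
      mul_le_mul_of_nonneg_right hl hpos.le
    nlinarith [mul_pos hn0 (lt_of_lt_of_le one_pos hL)]
  · -- lower bounds for `p - 1` and the logarithm
    have hp1R : (2 : ℝ) ^ j ≤ p := by exact_mod_cast hp1
    have hp2R : (p : ℝ) < 2 ^ (j + 1) := by exact_mod_cast hp2
    have h2j : (2 : ℝ) ≤ 2 ^ j := by
      calc (2 : ℝ) = 2 ^ 1 := by norm_num
        _ ≤ 2 ^ j := pow_le_pow_right₀ (by norm_num) hj
    have hq1 : (2 : ℝ) ^ j / 2 ≤ (p : ℝ) - 1 := by linarith
    have hq0 : (0 : ℝ) < (p : ℝ) - 1 := by linarith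
    have hq2 : (p : ℝ) - 1 ≤ 2 ^ (j + 1) := by linarith
    have hlog2 : (0.69 : ℝ) ≤ Real.log 2 := by
      have := Real.log_two_gt_d9
      linarith
    have hlog : ((t : ℝ) / 2) * Real.log 2 ≤ Real.log (n / ((p : ℝ) - 1)) := by
      have h6 : (2 : ℝ) ^ (t - 1) ≤ n / ((p : ℝ) - 1) := by
        rw [le_div_iff₀ hq0]
        calc (2 : ℝ) ^ (t - 1) * ((p : ℝ) - 1) ≤ 2 ^ (t - 1) * 2 ^ (j + 1) :=
              mul_le_mul_of_nonneg_left hq2 (by positivity)
          _ = 2 ^ J := by
            rw [← pow_add, hJt]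
            congr 1
            omega
          _ ≤ n := hnR
      have h7 := Real.log_le_log (by positivity) h6
      rw [Real.log_pow] at h7
      have h8 : ((t - 1 : ℕ) : ℝ) = (t : ℝ) - 1 := by
        rw [Nat.cast_sub (by omega)]
        simp
      rw [h8] at h7
      have h9 : (t : ℝ) / 2 ≤ (t : ℝ) - 1 := by linarith
      exact (mul_le_mul_of_nonneg_right h9 (by linarith)).trans h7
    -- combine
    have h10 : (2 : ℝ) ^ j / 2 * (((t : ℝ) / 2) * Real.log 2) ≤
        ((p : ℝ) - 1) * Real.log (n / ((p : ℝ) - 1)) :=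
      mul_le_mul hq1 hlog (by positivity) hq0.le
    have h11 : ((l : ℝ) - 2) * ((2 : ℝ) ^ j / 2 * (((t : ℝ) / 2) * Real.log 2)) ≤ n * L :=
      (mul_le_mul_of_nonneg_left h10 (by linarith)).trans h
    have h12 : ((l : ℝ) - 2) * ((2 : ℝ) ^ j * (t : ℝ)) * (0.69 / 4) ≤ n * L := by
      refine le_trans ?_ h11
      have h13 : (0 : ℝ) ≤ ((l : ℝ) - 2) * ((2 : ℝ) ^ j * (t : ℝ)) :=
        mul_nonneg (by linarith) hpos.le
      have h14 : ((l : ℝ) - 2) * ((2 : ℝ) ^ j / 2 * (((t : ℝ) / 2) * Real.log 2)) =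
          ((l : ℝ) - 2) * ((2 : ℝ) ^ j * (t : ℝ)) * (Real.log 2 / 4) := by ring
      rw [h14]
      exact mul_le_mul_of_nonneg_left (by linarith) h13
    have h15 : ((l : ℝ) - 2) * ((2 : ℝ) ^ j * (t : ℝ)) =
        (l : ℝ) * (2 ^ j * (t : ℝ)) - 2 * (2 ^ j * (t : ℝ)) := by ring
    rw [h15] at h12
    have hnL : 0 < n * L := mul_pos hn0 (by linarith)
    nlinarith

theorem prime_sum : ∃ C : ℝ, 0 < C ∧ ∀ (n : ℕ) (L : ℝ) (l : ℕ → ℕ), 3 ≤ n → 1 ≤ L →
    (∀ p : ℕ, p.Prime → l p * (p - 1) ≤ n) →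
    (∀ p : ℕ, p.Prime → p ≤ n + 1 →
      ((l p : ℝ) - 2) * (((p : ℝ) - 1) * Real.log (n / ((p : ℝ) - 1))) ≤ n * L) →
    ∑ p ∈ (Finset.range (n + 2)).filter Nat.Prime, (l p : ℝ) * Real.log (2 * (n : ℝ) ^ 2) ≤
      C * n * L * Real.log (Real.log n) := by
  refine ⟨20000, by norm_num, ?_⟩
  intro n L l hn hL hl1 hl2
  set J := Nat.log 2 n with hJdef
  have hJ1 : 2 ^ J ≤ n := Nat.pow_log_le_self 2 (by omega)
  have hJ2 : n < 2 ^ (J + 1) := Nat.lt_pow_succ_log_self (by norm_num) n
  have hJpos : 1 ≤ J := by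
    by_contra h
    have : J = 0 := by omega
    rw [this] at hJ2
    omega
  have hJR : (1 : ℝ) ≤ J := by exact_mod_cast hJpos
  have hnR : (3 : ℝ) ≤ n := by exact_mod_cast hn
  have hn0 : (0 : ℝ) < n := by linarith
  have hlog2 : Real.log 2 ≤ 0.7 := by
    have := Real.log_two_lt_d9
    linarith
  have hlog2' : 0 < Real.log 2 := Real.log_pos (by norm_num)
  -- the factor log(2 n^2)
  have hfac : Real.log (2 * (n : ℝ) ^ 2) ≤ 4 * J := by
    have h1 : 2 * (n : ℝ) ^ 2 ≤ 2 ^ (2 * J + 3) := by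
      have h2 : (n : ℝ) ≤ 2 ^ (J + 1) := by
        have : n ≤ 2 ^ (J + 1) := hJ2.le
        exact_mod_cast this
      calc 2 * (n : ℝ) ^ 2 ≤ 2 * (2 ^ (J + 1)) ^ 2 := by gcongr
        _ = 2 ^ (2 * J + 3) := by ring
    have h3 := Real.log_le_log (by positivity) h1
    rw [Real.log_pow] at h3
    push_cast at h3
    nlinarith
  have hfac0 : 0 ≤ Real.log (2 * (n : ℝ) ^ 2) := Real.log_nonneg (by nlinarith)
  -- blocks
  set b : ℕ → ℝ := fun j => 128 * ((1 : ℝ) / (j : ℝ) + 1 / ((J - j : ℕ) : ℝ)) +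
    (if J ≤ j + 1 then 64 else 0) with hb
  have hblock : ∀ j ∈ range (J + 2),
      ∑ p ∈ ((range (n + 2)).filter Nat.Prime).filter (fun p => Nat.log 2 p = j),
        (l p : ℝ) * Real.log (2 * (n : ℝ) ^ 2) ≤ n * L * b j := by
    intro j _
    set s := ((range (n + 2)).filter Nat.Prime).filter (fun p => Nat.log 2 p = j) with hs
    have hsp : ∀ p ∈ s, p.Prime ∧ Nat.log 2 p = j := by
      intro p hp
      rw [hs, Finset.mem_filter, Finset.mem_filter] at hp
      exact ⟨hp.1.2, hp.2⟩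
    have hsn : ∀ p ∈ s, p ≤ n + 1 := by
      intro p hp
      rw [hs, Finset.mem_filter, Finset.mem_filter, Finset.mem_range] at hp
      omega
    have hb0 : 0 ≤ b j := by
      rw [hb]
      have : (0 : ℝ) ≤ if J ≤ j + 1 then 64 else 0 := by split_ifs <;> norm_num
      positivity
    rcases Nat.eq_zero_or_pos j with hj0 | hj0
    · have : s = ∅ := by
        rw [Finset.eq_empty_iff_forall_notMem]
        intro p hp
        obtain ⟨h1, h2⟩ := hsp p hp
        rw [hj0, Nat.log_eq_zero_iff] at h2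
        have := h1.two_le
        omega
      rw [this, Finset.sum_empty]
      positivity
    · have hcard : (s.card : ℝ) ≤ 4 * 2 ^ j / j := by
        have h1 := ps_card_block j s hsp
        rw [le_div_iff₀ (by exact_mod_cast hj0)]
        have h2 : ((j * s.card : ℕ) : ℝ) ≤ ((2 ^ (j + 2) : ℕ) : ℝ) := by exact_mod_cast h1
        push_cast at h2
        rw [pow_add] at h2
        linarith
      have hjR : (1 : ℝ) ≤ j := by exact_mod_cast hj0
      -- a common bound for l p
      have hlow : ∀ p ∈ s, 2 ^ j ≤ p ∧ p < 2 ^ (j + 1) := by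
        intro p hp
        obtain ⟨h1, h2⟩ := hsp p hp
        constructor
        · rw [← h2]; exact Nat.pow_log_le_self 2 h1.ne_zero
        · rw [← h2]; exact Nat.lt_pow_succ_log_self (by norm_num) p
      by_cases hc : j + 2 ≤ J
      · have hbd : ∀ p ∈ s, (l p : ℝ) * Real.log (2 * (n : ℝ) ^ 2) ≤
            8 * n * L / (2 ^ j * ((J - j : ℕ) : ℝ)) * (4 * J) := by
          intro p hp
          refine mul_le_mul ?_ hfac hfac0 (by positivity)
          exact ps_one hL hJ1 hj0 hc (hlow p hp).1 (hlow p hp).2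
            (hl2 p (hsp p hp).1 (hsn p hp))
        have h1 := Finset.sum_le_card_nsmul s _ _ hbd
        rw [nsmul_eq_mul] at h1
        refine h1.trans ?_
        have ht : (0 : ℝ) < ((J - j : ℕ) : ℝ) := by
          have : 0 < J - j := by omega
          exact_mod_cast this
        have h2 : (s.card : ℝ) * (8 * n * L / (2 ^ j * ((J - j : ℕ) : ℝ)) * (4 * J)) ≤
            (4 * 2 ^ j / j) * (8 * n * L / (2 ^ j * ((J - j : ℕ) : ℝ)) * (4 * J)) :=
          mul_le_mul_of_nonneg_right hcard (by positivity)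
        refine h2.trans (le_of_eq ?_)
        have hne : ¬ (J ≤ j + 1) := by omega
        have hJJ : (J : ℝ) = (j : ℝ) + ((J - j : ℕ) : ℝ) := by
          rw [Nat.cast_sub (by omega)]; ring
        simp only [hb, if_neg hne, add_zero]
        have hj' : (j : ℝ) ≠ 0 := by linarith
        rw [hJJ]
        field_simp
        ring
      · have hbd : ∀ p ∈ s, (l p : ℝ) * Real.log (2 * (n : ℝ) ^ 2) ≤
            (n / (2 ^ j / 2)) * (4 * J) := by
          intro p hp
          refine mul_le_mul ?_ hfac hfac0 (by positivity)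
          have h3 := hl1 p (hsp p hp).1
          have h4 := (hlow p hp).1
          rw [le_div_iff₀ (by positivity)]
          have h5 : ((l p * (p - 1) : ℕ) : ℝ) ≤ n := by exact_mod_cast h3
          have hp1 : 1 ≤ p := (hsp p hp).1.one_lt.le
          rw [Nat.cast_mul, Nat.cast_sub hp1] at h5
          push_cast at h5
          have h6 : (2 : ℝ) ^ j ≤ p := by exact_mod_cast h4
          have h2j : (2 : ℝ) ≤ 2 ^ j := by
            calc (2 : ℝ) = 2 ^ 1 := by norm_num
              _ ≤ 2 ^ j := pow_le_pow_right₀ (by norm_num) hj0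
          have h7 : (2 : ℝ) ^ j / 2 ≤ (p : ℝ) - 1 := by linarith
          exact (mul_le_mul_of_nonneg_left h7 (by positivity)).trans h5
        have h1 := Finset.sum_le_card_nsmul s _ _ hbd
        rw [nsmul_eq_mul] at h1
        refine h1.trans ?_
        have h2 : (s.card : ℝ) * ((n / (2 ^ j / 2)) * (4 * J)) ≤
            (4 * 2 ^ j / j) * ((n / (2 ^ j / 2)) * (4 * J)) :=
          mul_le_mul_of_nonneg_right hcard (by positivity)
        refine h2.trans ?_
        have hj' : (j : ℝ) ≠ 0 := by linarith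
        have h3 : (4 * (2 : ℝ) ^ j / j) * ((n / (2 ^ j / 2)) * (4 * J)) = 32 * n * (J / j) := by
          field_simp
          ring
        rw [h3]
        have h4 : (J : ℝ) / j ≤ 2 := by
          rw [div_le_iff₀ (by linarith)]
          have : J ≤ 2 * j := by omega
          exact_mod_cast this
        have h5 : (64 : ℝ) ≤ b j := by
          simp only [hb]
          rw [if_pos (by omega)]
          have : (0 : ℝ) ≤ 128 * ((1 : ℝ) / (j : ℝ) + 1 / ((J - j : ℕ) : ℝ)) := by positivity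
          linarith
        calc 32 * (n : ℝ) * (J / j) ≤ 32 * n * 2 := by gcongr
          _ = n * 1 * 64 := by ring
          _ ≤ n * L * b j := by gcongr
  -- sum of the blocks
  have hsum : ∑ p ∈ (range (n + 2)).filter Nat.Prime, (l p : ℝ) * Real.log (2 * (n : ℝ) ^ 2) =
      ∑ j ∈ range (J + 2), ∑ p ∈ ((range (n + 2)).filter Nat.Prime).filter
        (fun p => Nat.log 2 p = j), (l p : ℝ) * Real.log (2 * (n : ℝ) ^ 2) := by
    refine (Finset.sum_fiberwise_of_maps_to ?_ _).symm
    intro p hp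
    rw [Finset.mem_filter, Finset.mem_range] at hp
    rw [Finset.mem_range]
    have h1 : Nat.log 2 p ≤ Nat.log 2 (2 ^ (J + 1)) := Nat.log_mono_right (by omega)
    rw [Nat.log_pow (by norm_num)] at h1
    omega
  rw [hsum]
  refine (Finset.sum_le_sum hblock).trans ?_
  rw [← Finset.mul_sum]
  -- the sum of b
  have hbsum : ∑ j ∈ range (J + 2), b j ≤ 128 * ((1 + Real.log (J + 1)) + (1 + Real.log J)) + 192 := by
    simp only [hb]
    rw [Finset.sum_add_distrib, ← Finset.mul_sum, Finset.sum_add_distrib]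
    have h1 : ∑ j ∈ range (J + 2), (1 : ℝ) / (j : ℝ) ≤ 1 + Real.log (J + 1) := by
      have := ps_harm_le (J + 1)
      push_cast at this
      exact this
    have h2 : ∑ j ∈ range (J + 2), (1 : ℝ) / ((J - j : ℕ) : ℝ) ≤ 1 + Real.log J := by
      rw [Finset.sum_range_succ]
      have h3 : J - (J + 1) = 0 := by omega
      rw [h3]
      have h4 : ∑ j ∈ range (J + 1), (1 : ℝ) / ((J - j : ℕ) : ℝ) =
          ∑ j ∈ range (J + 1), (1 : ℝ) / (j : ℝ) := by
        have := Finset.sum_range_reflect (fun j => (1 : ℝ) / (j : ℝ)) (J + 1)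
        simpa using this
      rw [h4]
      have := ps_harm_le J
      simpa using this
    have h5 : ∑ j ∈ range (J + 2), (if J ≤ j + 1 then (64 : ℝ) else 0) ≤ 192 := by
      rw [← Finset.sum_filter, Finset.sum_const, nsmul_eq_mul]
      have h6 : ((range (J + 2)).filter (fun j => J ≤ j + 1)).card ≤ 3 := by
        calc ((range (J + 2)).filter (fun j => J ≤ j + 1)).card
            ≤ (Finset.Icc (J - 1) (J + 1)).card := by
              refine Finset.card_le_card ?_
              intro j hj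
              rw [Finset.mem_filter, Finset.mem_range] at hj
              rw [Finset.mem_Icc]
              omega
          _ = 3 := by
              rw [Nat.card_Icc]
              omega
      have h7 : (((range (J + 2)).filter (fun j => J ≤ j + 1)).card : ℝ) ≤ 3 := by
        exact_mod_cast h6
      linarith
    nlinarith
  -- log J against log log n
  have hlogn : (1.09 : ℝ) ≤ Real.log n := by
    have h1 : Real.log 3 ≤ Real.log n := Real.log_le_log (by norm_num) hnR
    have h2 : (1.09 : ℝ) ≤ Real.log 3 := by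
      have he := Real.exp_one_lt_d9
      have he0 : 0 < Real.exp 1 := Real.exp_pos 1
      have h3 : 1 - (3 / Real.exp 1)⁻¹ ≤ Real.log (3 / Real.exp 1) :=
        Real.one_sub_inv_le_log_of_pos (by positivity)
      rw [Real.log_div (by norm_num) he0.ne', Real.log_exp, inv_div] at h3
      have h4 : Real.exp 1 / 3 ≤ 0.91 := by
        rw [div_le_iff₀ (by norm_num)]
        linarith
      linarith
    linarith
  have hlogn0 : 0 < Real.log n := by linarith
  have hll : (0.08 : ℝ) ≤ Real.log (Real.log n) := by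
    have h1 := Real.one_sub_inv_le_log_of_pos hlogn0
    have h2 : (Real.log n)⁻¹ ≤ 0.92 := by
      rw [inv_le_comm₀ hlogn0 (by norm_num)]
      norm_num
      linarith
    linarith
  have hJlog : (J : ℝ) * Real.log 2 ≤ Real.log n := by
    have h1 : (2 : ℝ) ^ J ≤ n := by exact_mod_cast hJ1
    have h2 := Real.log_le_log (by positivity) h1
    rwa [Real.log_pow] at h2
  have hlogJ1 : Real.log (J + 1) ≤ 2 + Real.log (Real.log n) := by
    have h1 : (J : ℝ) + 1 ≤ Real.exp 2 * Real.log n := by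
      have h2 : (0.69 : ℝ) ≤ Real.log 2 := by
        have := Real.log_two_gt_d9
        linarith
      have h3 : (J : ℝ) ≤ 1.5 * Real.log n := by nlinarith
      have h4 : (1 : ℝ) ≤ Real.log n := by linarith
      have h5 : (3 : ℝ) ≤ Real.exp 2 := by
        have := Real.add_one_le_exp (2 : ℝ)
        linarith
      nlinarith
    have h6 := Real.log_le_log (by positivity) h1
    rw [Real.log_mul (Real.exp_pos 2).ne' hlogn0.ne', Real.log_exp] at h6
    exact h6
  have hlogJ : Real.log J ≤ Real.log (J + 1) := Real.log_le_log (by linarith) (by linarith)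
  have hfin : ∑ j ∈ range (J + 2), b j ≤ 20000 * Real.log (Real.log n) := by
    refine hbsum.trans ?_
    nlinarith
  calc (n : ℝ) * L * ∑ j ∈ range (J + 2), b j ≤ n * L * (20000 * Real.log (Real.log n)) :=
        mul_le_mul_of_nonneg_left hfin (by positivity)
    _ = 20000 * n * L * Real.log (Real.log n) := by ring

end Pool.Agent.Lib.MP_ef2672_gt_Chain
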