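import Pool.Agent.Lib.MP_ef2672_gt_Chain.LineUse
import Pool.Agent.Lib.MP_ef2672_gt_Chain.Primes

/-!
The order of the group of isometries of a lattice.
-/

namespace Pool.Agent.Lib.MP_ef2672_gt_Chain

open Pool.Agent.Lib.MP_ef2672_gt_Tauber Pool.Agent.Lib.MP_ef2672_gt_Sym

theorem sumStatement : SumStatement := prime_sum

theorem order_main :
    ∃ C : ℝ, 0 < C ∧ ∀ (n : ℕ) (A : Matrix (Fin n) (Fin n) ℝ), 3 ≤ n → A.det ≠ 0 →
      (Nat.card {U : Matrix (Fin n) (Fin n) ℤ // IsIsometry A U} : ℝ) ≤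
        Real.log n ^ (C * n * Real.log (4 * n / inv A)) :=
  order_bound lineStatement sumStatement

end Pool.Agent.Lib.MP_ef2672_gt_Chain
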