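import Pool.Agent.Lib.MP_ef2672_gt_Chain.Asym
import Pool.Agent.Lib.MP_ef2672_gt_Chain.Main
import Pool.Agent.Lib.MP_ef2672_gt_Chain.Example

/-!
Limits of Hermite's constant restricted to lattices with many isometries.
-/

namespace Pool.Agent.Lib.MP_ef2672_gt_Chain

open Pool.Agent.Lib.MP_ef2672_gt_Tauber Pool.Agent.Lib.MP_ef2672_gt_Sym Filter Topology

/-- The lower bounds for the restricted constants. -/
def LowerSym : Prop := ∀ s m N : ℕ, 0 < m → N ≤ s.factorial →
  gamma m ^ ((m : ℝ) / ((s + m : ℕ) : ℝ)) ≤ gammaSym N (s + m)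

/-- The lower bounds for the restricted constants. -/
def LowerInv : Prop := ∀ s m : ℕ, 0 < m →
  gamma m ^ ((m : ℝ) / ((s + m : ℕ) : ℝ)) ≤ gammaInv s (s + m)

theorem inv_limit (hlow : LowerInv) (r : ℕ → ℕ)
    (h : Tendsto (fun n : ℕ => (r n : ℝ) * Real.log n / n) atTop (𝓝 0)) :
    Tendsto (fun n => gammaInv (r n) n / gamma n) atTop (𝓝 1) := by
  refine ratio_limit (fun n => gammaInv (r n) n) r ?_ h ?_ ?_
  · have h1 : ∀ᶠ n : ℕ in atTop, (r n : ℝ) * Real.log n / n < 1 :=
      h.eventually_lt_const one_pos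
    have h2 : ∀ᶠ n : ℕ in atTop, 2 ≤ Real.log n :=
      (Real.tendsto_log_atTop.comp tendsto_natCast_atTop_atTop).eventually_ge_atTop 2
    filter_upwards [h1, h2, eventually_gt_atTop 0] with n h1 h2 hn
    have hn0 : (0 : ℝ) < n := by exact_mod_cast hn
    rw [div_lt_one hn0] at h1
    have h3 : (r n : ℝ) * 2 ≤ r n * Real.log n :=
      mul_le_mul_of_nonneg_left h2 (Nat.cast_nonneg _)
    have h4 : (r n : ℝ) ≤ n := by
      have := Nat.cast_nonneg (α := ℝ) (r n)
      linarith
    exact_mod_cast h4
  · filter_upwards [eventually_gt_atTop 0] with n hn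
    exact gammaInv_le hn (gamma_nonneg n) fun A hA _ => inv_le_gamma hn A hA
  · refine Eventually.of_forall fun n hlt => ?_
    have h1 := hlow (r n) (n - r n) (by omega)
    have e : r n + (n - r n) = n := by omega
    rw [e] at h1
    exact h1

/-- The least `s` whose factorial is at least `N`. -/
noncomputable def invFact (N : ℕ) : ℕ := by
  classical
  exact Nat.find (⟨N, Nat.self_le_factorial N⟩ : ∃ s : ℕ, N ≤ s.factorial)

lemma le_invFact (N : ℕ) : N ≤ (invFact N).factorial := by
  classical
  unfold invFact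
  exact Nat.find_spec (⟨N, Nat.self_le_factorial N⟩ : ∃ s : ℕ, N ≤ s.factorial)

lemma invFact_lt {N k : ℕ} (hk : k < invFact N) : k.factorial < N := by
  classical
  unfold invFact at hk
  have := Nat.find_min (⟨N, Nat.self_le_factorial N⟩ : ∃ s : ℕ, N ≤ s.factorial) hk
  omega

lemma log_factorial_ge {k : ℕ} (hk : 0 < k) :
    (k : ℝ) * Real.log k - k ≤ Real.log (k.factorial : ℝ) := by
  have hk0 : (0 : ℝ) < k := by exact_mod_cast hk
  have hf : (0 : ℝ) < (k.factorial : ℝ) := by exact_mod_cast Nat.factorial_pos k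
  have h1 := Real.pow_div_factorial_le_exp (k : ℝ) hk0.le k
  have h2 := Real.log_le_log (by positivity) h1
  rw [Real.log_exp, Real.log_div (by positivity) hf.ne', Real.log_pow] at h2
  linarith

lemma invFact_small (N : ℕ → ℕ)
    (h : Tendsto (fun n : ℕ => Real.log (N n) / n) atTop (𝓝 0)) :
    Tendsto (fun n : ℕ => (invFact (N n) : ℝ) * Real.log n / n) atTop (𝓝 0) := by
  rw [Metric.tendsto_atTop']
  intro ε hε
  have h1 : ∀ᶠ n : ℕ in atTop, Real.log (N n) / n < ε / 16 :=
    h.eventually_lt_const (by positivity)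
  have h2 : ∀ᶠ n : ℕ in atTop, 4 ≤ Real.log n :=
    (Real.tendsto_log_atTop.comp tendsto_natCast_atTop_atTop).eventually_ge_atTop 4
  have h3 : Tendsto (fun n : ℕ => Real.log n / Real.sqrt n) atTop (𝓝 0) := by
    have h4 := (isLittleO_log_rpow_atTop (r := 1 / 2) (by norm_num)).tendsto_div_nhds_zero
    have h5 := h4.comp tendsto_natCast_atTop_atTop
    refine h5.congr fun n => ?_
    show Real.log n / (n : ℝ) ^ ((1 : ℝ) / 2) = _
    rw [Real.sqrt_eq_rpow]
  have h4 : ∀ᶠ n : ℕ in atTop, Real.log n / Real.sqrt n < ε / 4 :=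
    h3.eventually_lt_const (by positivity)
  have h5 : ∀ᶠ n : ℕ in atTop, dist ((invFact (N n) : ℝ) * Real.log n / n) 0 < ε := by
    filter_upwards [h1, h2, h4, eventually_ge_atTop 1] with n h1 h2 h4 hn
    have hn1 : (1 : ℝ) ≤ n := by exact_mod_cast hn
    have hn0 : (0 : ℝ) < n := by linarith
    have hs0 : 0 < Real.sqrt n := Real.sqrt_pos.2 hn0
    have hs1 : 1 ≤ Real.sqrt n := by
      rw [show (1 : ℝ) = Real.sqrt 1 by simp]
      exact Real.sqrt_le_sqrt hn1
    have hss : Real.sqrt n * Real.sqrt n = n := Real.mul_self_sqrt hn0.le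
    rw [div_lt_iff₀ hn0] at h1
    rw [div_lt_iff₀ hs0] at h4
    have hlog0 : 0 ≤ Real.log n := by linarith
    have hlogn : Real.log n ≤ ε / 4 * n := by nlinarith
    have hnn : 0 ≤ (invFact (N n) : ℝ) * Real.log n / n :=
      div_nonneg (mul_nonneg (Nat.cast_nonneg _) hlog0) hn0.le
    rw [Real.dist_0_eq_abs, abs_of_nonneg hnn, div_lt_iff₀ hn0]
    rcases Nat.eq_zero_or_pos (invFact (N n)) with h0 | hpos
    · rw [h0, Nat.cast_zero, zero_mul]
      positivity
    · obtain ⟨k, hk⟩ := Nat.exists_eq_succ_of_ne_zero hpos.ne'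
      rw [hk]
      push_cast
      have hkN : k.factorial < N n := invFact_lt (by omega)
      by_cases hsmall : (k : ℝ) ≤ Real.sqrt n
      · have h6 : ((k : ℝ) + 1) * Real.log n ≤ (Real.sqrt n + Real.sqrt n) * Real.log n :=
          mul_le_mul_of_nonneg_right (by linarith) hlog0
        have h7 : Real.sqrt n * Real.log n < Real.sqrt n * (ε / 4 * Real.sqrt n) :=
          mul_lt_mul_of_pos_left h4 hs0
        have h8 : Real.sqrt n * (ε / 4 * Real.sqrt n) = ε / 4 * n := by
          rw [← hss]; ring_nf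
          rw [Real.sq_sqrt hn0.le]
          nlinarith
        nlinarith
      · push Not at hsmall
        have hk0 : (0 : ℝ) < k := lt_trans hs0 hsmall
        have hk0' : 0 < k := by exact_mod_cast hk0
        have h6 := log_factorial_ge hk0'
        have h7 : Real.log (k.factorial : ℝ) ≤ Real.log (N n) := by
          refine Real.log_le_log (by exact_mod_cast Nat.factorial_pos k) ?_
          exact_mod_cast hkN.le
        have h8 : Real.log n / 2 ≤ Real.log k := by
          have h9 := Real.log_le_log hs0 hsmall.le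
          rwa [Real.log_sqrt hn0.le] at h9
        have h9 : (k : ℝ) * (Real.log n / 4) ≤ k * Real.log k - k := by
          have : Real.log n / 4 ≤ Real.log k - 1 := by linarith
          have := mul_le_mul_of_nonneg_left this hk0.le
          linarith
        nlinarith
  obtain ⟨M, hM⟩ := eventually_atTop.1 h5
  exact ⟨M, fun n hn => hM n hn.le⟩

theorem sym_limit (hlow : LowerSym) (N : ℕ → ℕ)
    (h : Tendsto (fun n : ℕ => Real.log (N n) / n) atTop (𝓝 0)) :
    Tendsto (fun n => gammaSym (N n) n / gamma n) atTop (𝓝 1) := by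
  have hlim := invFact_small N h
  refine ratio_limit (fun n => gammaSym (N n) n) (fun n => invFact (N n)) ?_ hlim ?_ ?_
  · have h1 : ∀ᶠ n : ℕ in atTop, (invFact (N n) : ℝ) * Real.log n / n < 1 :=
      hlim.eventually_lt_const one_pos
    have h2 : ∀ᶠ n : ℕ in atTop, 2 ≤ Real.log n :=
      (Real.tendsto_log_atTop.comp tendsto_natCast_atTop_atTop).eventually_ge_atTop 2
    filter_upwards [h1, h2, eventually_gt_atTop 0] with n h1 h2 hn
    have hn0 : (0 : ℝ) < n := by exact_mod_cast hn
    rw [div_lt_one hn0] at h1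
    have h3 : (invFact (N n) : ℝ) * 2 ≤ invFact (N n) * Real.log n :=
      mul_le_mul_of_nonneg_left h2 (Nat.cast_nonneg _)
    have h4 : (invFact (N n) : ℝ) ≤ n := by
      have := Nat.cast_nonneg (α := ℝ) (invFact (N n))
      linarith
    exact_mod_cast h4
  · filter_upwards [eventually_gt_atTop 0] with n hn
    exact gammaSym_le hn (gamma_nonneg n) fun A hA _ => inv_le_gamma hn A hA
  · refine Eventually.of_forall fun n hlt => ?_
    have h1 := hlow (invFact (N n)) (n - invFact (N n)) (N n) (by omega) (le_invFact _)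
    have e : invFact (N n) + (n - invFact (N n)) = n := by omega
    rw [e] at h1
    exact h1

/-- Lattices with more than `exp(n log log n)` isometries have small Hermite invariant. -/
theorem sym_zero (N : ℕ → ℕ)
    (h : Tendsto (fun n : ℕ => Real.log (N n) / (n * Real.log (Real.log n))) atTop atTop) :
    Tendsto (fun n : ℕ => gammaSym (N n) n / n) atTop (𝓝 0) := by
  obtain ⟨C, hC, hmain⟩ := order_main
  set t : ℕ → ℝ := fun n => Real.log (N n) / (n * Real.log (Real.log n)) with ht
  have hup : ∀ᶠ n : ℕ in atTop, gammaSym (N n) n / n ≤ 4 * Real.exp (-(t n / C)) := by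
    filter_upwards [h.eventually_gt_atTop 0, eventually_ge_atTop 3] with n htn hn3
    have hn : 0 < n := by omega
    have hn0 : (0 : ℝ) < n := by exact_mod_cast hn
    have hn3' : (3 : ℝ) ≤ n := by exact_mod_cast hn3
    have hlogn : 1 < Real.log n := by
      rw [Real.lt_log_iff_exp_lt hn0]
      have := Real.exp_one_lt_d9
      linarith
    have hll : 0 < Real.log (Real.log n) := Real.log_pos hlogn
    rw [div_le_iff₀ hn0]
    refine gammaSym_le hn (by positivity) fun A hA hN => ?_
    have hi := inv_pos hn hA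
    have h1 := hmain n A hn3 hA
    have hNpos : 0 < N n := by
      rcases Nat.eq_zero_or_pos (N n) with h0 | h0
      · have htn' : 0 < Real.log (N n) / (n * Real.log (Real.log n)) := htn
        rw [h0] at htn'
        simp at htn'
      · exact h0
    have h2 : Real.log (N n) ≤ C * n * Real.log (4 * n / inv A) * Real.log (Real.log n) := by
      have h3 : (N n : ℝ) ≤ Real.log n ^ (C * n * Real.log (4 * n / inv A)) := by
        refine le_trans ?_ h1
        exact_mod_cast hN
      have h4 := Real.log_le_log (by exact_mod_cast hNpos) h3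
      rwa [Real.log_rpow (by linarith)] at h4
    have h3 : t n / C ≤ Real.log (4 * n / inv A) := by
      rw [div_le_iff₀ hC]
      show Real.log (N n) / (n * Real.log (Real.log n)) ≤ _
      rw [div_le_iff₀ (by positivity)]
      linarith
    have h4 : Real.exp (t n / C) ≤ 4 * n / inv A := by
      rw [← Real.le_log_iff_exp_le (by positivity)]
      exact h3
    rw [le_div_iff₀ hi] at h4
    rw [Real.exp_neg]
    have he := Real.exp_pos (t n / C)
    rw [show 4 * (Real.exp (t n / C))⁻¹ * (n : ℝ) = 4 * n / Real.exp (t n / C) by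
      field_simp, le_div_iff₀ he]
    linarith
  have hlim : Tendsto (fun n : ℕ => 4 * Real.exp (-(t n / C))) atTop (𝓝 0) := by
    have h1 : Tendsto (fun n => t n / C) atTop atTop := h.atTop_div_const hC
    have h2 := (Real.tendsto_exp_neg_atTop_nhds_zero.comp h1).const_mul 4
    simpa using h2
  refine tendsto_of_tendsto_of_tendsto_of_le_of_le' tendsto_const_nhds hlim ?_ hup
  exact Eventually.of_forall fun n => div_nonneg (gammaSym_nonneg _ _) (Nat.cast_nonneg n)

/-- The exact order of Hermite's constant for lattices with many commuting involutions. -/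
theorem inv_bounds : ∃ c : ℝ, 0 < c ∧ ∀ n r : ℕ, 0 < n → r ≤ n →
    c * (n : ℝ) ^ (1 - (r : ℝ) / n) ≤ gammaInv r n ∧
      gammaInv r n ≤ 4 * (n : ℝ) ^ (1 - ((r : ℝ) - 1) / n) := by
  obtain ⟨c, hc, hex⟩ := example_lower
  refine ⟨c, hc, fun n r hn hr => ⟨?_, ?_⟩⟩
  · obtain ⟨A, hA, hlow, S, hS1, hS2, hS3⟩ := hex n r hn hr
    refine hlow.trans ?_
    exact le_ciSup (bdd_of hn (HasInvolutions r)) ⟨A, hA, S, hS1.ge, hS2, hS3⟩
  · refine gammaInv_le hn (by positivity) fun A hA hr => ?_
    obtain ⟨S, hS1, hS2, hS3⟩ := hr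
    exact invol_bound hn hA S hS1 hS2 hS3

end Pool.Agent.Lib.MP_ef2672_gt_Chain
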