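import Mathlib

/-!
Monomial lines: in a complex representation of a finite p-group `G`, every nonzero subspace `W`
stable under a subgroup `H` contains a nonzero vector which is an eigenvector of a subgroup of `H`
of index at most `dim W`.
-/

namespace Pool.Agent.Lib.MP_ef2672_gt_Chain

open Module

/-- The dimensions of an independent family of subspaces of `W` add up to at most `dim W`. -/
theorem sum_finrank_le {V : Type*} [AddCommGroup V] [Module ℂ V] [FiniteDimensional ℂ V]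
    (E : ℂ → Submodule ℂ V) (hE : iSupIndep E) (W : Submodule ℂ V) (hW : ∀ c, E c ≤ W)
    (s : Finset ℂ) :
    ∑ c ∈ s, finrank ℂ (E c) ≤ finrank ℂ W := by
  classical
  have key : ∀ s : Finset ℂ,
      ∑ c ∈ s, finrank ℂ (E c) = finrank ℂ (⨆ c ∈ s, E c : Submodule ℂ V) := by
    intro s
    induction s using Finset.induction_on with
    | empty =>
      have h0 : (⨆ c ∈ (∅ : Finset ℂ), E c) = ⊥ := by simp
      rw [Finset.sum_empty, h0, finrank_bot]
    | insert a s ha ih =>
      rw [Finset.sum_insert ha, ih, Finset.iSup_insert]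
      have hd : Disjoint (E a) (⨆ c ∈ s, E c) := by
        refine (hE a).mono_right ?_
        refine iSup₂_le ?_
        intro c hc
        have hca : c ≠ a := by
          rintro rfl
          exact ha hc
        exact le_iSup₂_of_le c hca le_rfl
      have h1 := Submodule.finrank_sup_add_finrank_inf_eq (E a) (⨆ c ∈ s, E c)
      rw [hd.eq_bot, finrank_bot] at h1
      omega
  rw [key]
  exact Submodule.finrank_mono (iSup₂_le fun c _ => hW c)

theorem exists_line_aux {G V : Type*} [Group G] [Finite G] {p : ℕ} [Fact p.Prime]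
    (hG : IsPGroup p G) [AddCommGroup V] [Module ℂ V] [FiniteDimensional ℂ V]
    (ρ : G →* (V →ₗ[ℂ] V)) :
    ∀ n : ℕ, ∀ (H : Subgroup G) (W : Submodule ℂ V), finrank ℂ W = n → W ≠ ⊥ →
      (∀ h ∈ H, ∀ x ∈ W, ρ h x ∈ W) →
      ∃ w ∈ W, w ≠ 0 ∧ ∃ K : Subgroup G, K ≤ H ∧ K.relIndex H ≤ finrank ℂ W ∧
        ∀ h ∈ K, ∃ c : ℂ, ρ h w = c • w := by
  intro n
  induction n using Nat.strong_induction_on with
  | _ n ih =>
  intro H W hn hW hinv
  classical
  by_cases hsc : ∀ h ∈ H, ∃ c : ℂ, ∀ x ∈ W, ρ h x = c • x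
  · obtain ⟨w, hw, hw0⟩ := (Submodule.ne_bot_iff W).1 hW
    refine ⟨w, hw, hw0, H, le_rfl, ?_, ?_⟩
    · rw [Subgroup.relIndex_self]
      have : Nontrivial W := Submodule.nontrivial_iff_ne_bot.2 hW
      exact Module.finrank_pos
    · intro h hh
      obtain ⟨c, hc⟩ := hsc h hh
      exact ⟨c, hc w hw⟩
  have hmul : ∀ (g h : G) (x : V), ρ (g * h) x = ρ g (ρ h x) := by
    intro g h x
    rw [map_mul]
    rfl
  have hinvl : ∀ (g : G) (x : V), ρ g⁻¹ (ρ g x) = x := by
    intro g x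
    rw [← hmul, inv_mul_cancel, map_one]
    rfl
  have hinvr : ∀ (g : G) (x : V), ρ g (ρ g⁻¹ x) = x := by
    intro g x
    rw [← hmul, mul_inv_cancel, map_one]
    rfl
  have hinj : ∀ (g : G), Function.Injective (ρ g) := by
    intro g x y hxy
    rw [← hinvl g x, hxy, hinvl]
  -- the subgroup of the elements acting on `W` by scalars
  let N : Subgroup H :=
    { carrier := {h | ∃ c : ℂ, ∀ x ∈ W, ρ (h : G) x = c • x}
      mul_mem' := by
        rintro g h ⟨c, hc⟩ ⟨d, hd⟩
        refine ⟨c * d, fun x hx => ?_⟩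
        rw [Subgroup.coe_mul, hmul, hd x hx, map_smul, hc x hx, smul_smul, mul_comm]
      one_mem' := ⟨1, fun x _ => by simp⟩
      inv_mem' := by
        rintro g ⟨c, hc⟩
        refine ⟨c⁻¹, fun x hx => ?_⟩
        have h1 : x = c • ρ (g : G)⁻¹ x := by
          rw [← map_smul, ← hc x hx, hinvl]
        rw [Subgroup.coe_inv]
        rcases eq_or_ne c 0 with h0 | h0
        · rw [h0, zero_smul] at h1
          rw [h1, map_zero, smul_zero]
        · conv_rhs => rw [h1]
          rw [smul_smul, inv_mul_cancel₀ h0, one_smul] }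
  have hNmem : ∀ h : H, h ∈ N ↔ ∃ c : ℂ, ∀ x ∈ W, ρ (h : G) x = c • x := fun h => Iff.rfl
  have hNn : N.Normal := by
    constructor
    intro m hm g
    obtain ⟨c, hc⟩ := (hNmem m).1 hm
    refine (hNmem _).2 ⟨c, fun x hx => ?_⟩
    rw [Subgroup.coe_mul, Subgroup.coe_mul, hmul, hmul, Subgroup.coe_inv,
      hc _ (hinv _ (H.inv_mem g.2) x hx), map_smul, hinvr]
  have hNtop : N ≠ ⊤ := by
    intro h
    apply hsc
    intro g hg
    have : (⟨g, hg⟩ : H) ∈ N := by
      rw [h]
      exact Subgroup.mem_top _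
    exact (hNmem _).1 this
  have hnt : Nontrivial (H ⧸ N) := QuotientGroup.nontrivial_iff.2 hNtop
  have hpq : IsPGroup p (H ⧸ N) := (hG.to_subgroup H).to_quotient N
  have hcn : Nontrivial (Subgroup.center (H ⧸ N)) := hpq.center_nontrivial
  obtain ⟨⟨z, hzc⟩, hz1⟩ := exists_ne (1 : Subgroup.center (H ⧸ N))
  obtain ⟨a, rfl⟩ := QuotientGroup.mk_surjective z
  have haN : a ∉ N := by
    intro h
    apply hz1
    apply Subtype.ext
    exact (QuotientGroup.eq_one_iff a).2 h
  have hcomm : ∀ h : H, a⁻¹ * h⁻¹ * (a * h) ∈ N := by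
    intro h
    have h1 := (Subgroup.mem_center_iff.1 hzc) (h : H ⧸ N)
    have h2 : ((h * a : H) : H ⧸ N) = ((a * h : H) : H ⧸ N) := h1
    have h3 := (QuotientGroup.eq).1 h2
    rwa [mul_inv_rev] at h3
  have hcomm' : ∀ h : H, ∃ c : ℂ, ∀ x ∈ W, ρ (a : G) (ρ (h : G) x) =
      c • ρ (h : G) (ρ (a : G) x) := by
    intro h
    obtain ⟨c, hc⟩ := (hNmem _).1 (hcomm h)
    refine ⟨c, fun x hx => ?_⟩
    rw [← map_smul, ← map_smul, ← hc x hx, ← hmul, ← hmul, ← hmul]
    congr 2
    push_cast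
    group
  choose z hz using hcomm'
  have : Nontrivial W := Submodule.nontrivial_iff_ne_bot.2 hW
  -- an eigenvector of `a` on `W`
  obtain ⟨μ, x0, hx0W, hx0, hx0μ⟩ : ∃ (μ : ℂ) (x : V), x ∈ W ∧ x ≠ 0 ∧ ρ (a : G) x = μ • x := by
    obtain ⟨μ, hμ⟩ := Module.End.exists_eigenvalue
      ((ρ (a : G)).restrict (fun x hx => hinv a a.2 x hx) : Module.End ℂ W)
    obtain ⟨v, hv⟩ := hμ.exists_hasEigenvector
    refine ⟨μ, v, v.2, ?_, ?_⟩
    · intro h
      exact hv.2 (Subtype.ext h)
    · have := congrArg (Subtype.val) hv.apply_eq_smul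
      simpa using this
  have hμ0 : μ ≠ 0 := by
    rintro rfl
    rw [zero_smul] at hx0μ
    apply hx0
    apply hinj (a : G)
    rw [hx0μ, map_zero]
  let E : ℂ → Submodule ℂ V := fun c => W ⊓ Module.End.eigenspace (ρ (a : G)) c
  have hEmem : ∀ c x, x ∈ E c ↔ x ∈ W ∧ ρ (a : G) x = c • x := by
    intro c x
    show x ∈ W ⊓ Module.End.eigenspace (ρ (a : G)) c ↔ _
    rw [Submodule.mem_inf, Module.End.mem_eigenspace_iff]
  have hEind : iSupIndep E := (Module.End.eigenspaces_iSupIndep (ρ (a : G))).mono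
    (fun c => inf_le_right)
  have hEmap : ∀ (h : H) (c : ℂ) (x : V), x ∈ E c → ρ (h : G) x ∈ E (z h * c) := by
    intro h c x hx
    obtain ⟨hxW, hxc⟩ := (hEmem c x).1 hx
    refine (hEmem _ _).2 ⟨hinv h h.2 x hxW, ?_⟩
    rw [hz h x hxW, hxc, map_smul, smul_smul]
  have hx0E : x0 ∈ E μ := (hEmem _ _).2 ⟨hx0W, hx0μ⟩
  have hz1 : z 1 = 1 := by
    have h1 := hz 1 x0 hx0W
    simp only [Subgroup.coe_one, map_one, Module.End.one_apply, hx0μ] at h1
    rw [smul_smul] at h1
    have h2 := smul_left_injective ℂ hx0 h1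
    have h3 : (1 : ℂ) * μ = z 1 * μ := by
      rw [one_mul]
      exact h2
    exact (mul_right_cancel₀ hμ0 h3).symm
  have hzmul : ∀ g h : H, z (g * h) = z g * z h := by
    intro g h
    have h1 := hEmap (g * h) μ x0 hx0E
    have h2 := hEmap g _ _ (hEmap h μ x0 hx0E)
    rw [Subgroup.coe_mul, hmul] at h1
    have h3 := ((hEmem _ _).1 h1).2
    have h4 := ((hEmem _ _).1 h2).2
    rw [h3] at h4
    have hne : ρ (g : G) (ρ (h : G) x0) ≠ 0 := by
      intro h0
      apply hx0
      apply hinj (h : G)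
      apply hinj (g : G)
      rw [h0, map_zero, map_zero]
    have h5 : z (g * h) * μ = z g * (z h * μ) := smul_left_injective ℂ hne h4
    rw [← mul_assoc] at h5
    exact mul_right_cancel₀ hμ0 h5
  let χ : H →* ℂ := { toFun := z, map_one' := hz1, map_mul' := hzmul }
  let χ' : H →* ℂˣ := χ.toHomUnits
  have hχ' : ∀ h : H, ((χ' h : ℂˣ) : ℂ) = z h := fun h => MonoidHom.coe_toHomUnits χ h
  let H1 : Subgroup G := (χ'.ker).map H.subtype
  have hH1 : H1 ≤ H := by
    rintro _ ⟨g, _, rfl⟩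
    exact g.2
  have hH1z : ∀ h : H, (h : G) ∈ H1 → z h = 1 := by
    rintro h ⟨g, hg, hgh⟩
    have : g = h := Subtype.ext hgh
    subst this
    have h2 : χ' g = 1 := (MonoidHom.mem_ker).1 hg
    rw [← hχ', h2, Units.val_one]
  have hidx : H1.relIndex H = Nat.card χ'.range := by
    rw [← Subgroup.index_ker]
    show (H1.subgroupOf H).index = _
    congr 1
    show ((χ'.ker).map H.subtype).comap H.subtype = _
    exact Subgroup.comap_map_eq_self_of_injective H.subtype_injective _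
  let s : Finset ℂ := (Set.toFinite (Set.range fun h : H => z h * μ)).toFinset
  have hscard : s.card = Nat.card χ'.range := by
    have h1 : (Set.range fun h : H => z h * μ) = (fun u : ℂˣ => (u : ℂ) * μ) '' (Set.range χ') := by
      rw [← Set.range_comp]
      congr 1
    have h2 : s.card = (Set.range fun h : H => z h * μ).ncard := by
      rw [Set.ncard_eq_toFinset_card _ (Set.toFinite _)]
    have h3 : Function.Injective (fun u : ℂˣ => (u : ℂ) * μ) := by
      intro u v huv
      exact Units.ext (mul_right_cancel₀ hμ0 huv)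
    rw [h2, h1, Set.ncard_image_of_injective _ h3]
    rfl
  have hEdim : ∀ c ∈ s, finrank ℂ (E μ) ≤ finrank ℂ (E c) := by
    intro c hc
    have hc' : c ∈ Set.range fun h : H => z h * μ := by
      simpa [s] using hc
    obtain ⟨h, rfl⟩ := hc'
    have h1 : Submodule.map (ρ (h : G)) (E μ) ≤ E (z h * μ) := by
      rintro _ ⟨x, hx, rfl⟩
      exact hEmap h μ x hx
    have h2 : finrank ℂ (Submodule.map (ρ (h : G)) (E μ)) = finrank ℂ (E μ) :=
      (Submodule.equivMapOfInjective (ρ (h : G)) (hinj _) (E μ)).finrank_eq.symm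
    rw [← h2]
    exact Submodule.finrank_mono h1
  have hcount : H1.relIndex H * finrank ℂ (E μ) ≤ finrank ℂ W := by
    rw [hidx, ← hscard]
    calc s.card * finrank ℂ (E μ) = ∑ c ∈ s, finrank ℂ (E μ) := by
          rw [Finset.sum_const, smul_eq_mul]
      _ ≤ ∑ c ∈ s, finrank ℂ (E c) := Finset.sum_le_sum hEdim
      _ ≤ finrank ℂ W := sum_finrank_le E hEind W (fun c => inf_le_left) s
  have hElt : finrank ℂ (E μ) < finrank ℂ W := by
    apply Submodule.finrank_lt_finrank_of_lt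
    refine lt_of_le_of_ne inf_le_left ?_
    intro h
    apply haN
    refine (hNmem a).2 ⟨μ, fun x hx => ?_⟩
    have : x ∈ E μ := by
      rw [h]
      exact hx
    exact ((hEmem _ _).1 this).2
  have hEne : E μ ≠ ⊥ := by
    intro h
    rw [h, Submodule.mem_bot] at hx0E
    exact hx0 hx0E
  obtain ⟨w, hwE, hw0, K, hKH1, hKidx, hKw⟩ := ih (finrank ℂ (E μ)) (hn ▸ hElt) H1 (E μ) rfl hEne
    (by
      intro h hh x hx
      have h1 := hEmap ⟨h, hH1 hh⟩ μ x hx
      rwa [hH1z ⟨h, hH1 hh⟩ hh, one_mul] at h1)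
  refine ⟨w, ((hEmem _ _).1 hwE).1, hw0, K, hKH1.trans hH1, ?_, hKw⟩
  rw [← Subgroup.relIndex_mul_relIndex K H1 H hKH1 hH1]
  calc K.relIndex H1 * H1.relIndex H ≤ finrank ℂ (E μ) * H1.relIndex H :=
        Nat.mul_le_mul_right _ hKidx
    _ = H1.relIndex H * finrank ℂ (E μ) := mul_comm _ _
    _ ≤ finrank ℂ W := hcount

/-- In a representation of a finite p-group `G` every nonzero subspace `W` stable under a subgroup
`H` contains a nonzero vector which is an eigenvector of a subgroup of `H` of index at most the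
dimension of `W`. -/
theorem exists_line {G V : Type*} [Group G] [Finite G] {p : ℕ} [Fact p.Prime] (hG : IsPGroup p G)
    [AddCommGroup V] [Module ℂ V] [FiniteDimensional ℂ V] (ρ : G →* (V →ₗ[ℂ] V)) (H : Subgroup G)
    (W : Submodule ℂ V) (hW : W ≠ ⊥) (hinv : ∀ h ∈ H, ∀ x ∈ W, ρ h x ∈ W) :
    ∃ w ∈ W, w ≠ 0 ∧ ∃ K : Subgroup G, K ≤ H ∧ K.relIndex H ≤ Module.finrank ℂ W ∧
      ∀ h ∈ K, ∃ c : ℂ, ρ h w = c • w :=
  exists_line_aux hG ρ (finrank ℂ W) H W rfl hW hinv

end Pool.Agent.Lib.MP_ef2672_gt_Chain
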