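import Pool.Agent.Lib.MP_ef2672_gt_Chain.Order
import Pool.Agent.Lib.MP_ef2672_gt_Chain.Line

/-!
The line statement for groups of integer matrices.
-/

namespace Pool.Agent.Lib.MP_ef2672_gt_Chain

theorem lineStatement : LineStatement := by
  intro G _ _ p _ hG n ρ H W hW hinv
  exact exists_line hG (cplx ρ) H W hW hinv

end Pool.Agent.Lib.MP_ef2672_gt_Chain
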