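import Pool.Agent.Lib.MP_ef2672_gt_Chain.Iso

/-!
The order of the group of isometries of a lattice.
-/

namespace Pool.Agent.Lib.MP_ef2672_gt_Chain

open Pool.Agent.Lib.MP_ef2672_gt_Tauber Pool.Agent.Lib.MP_ef2672_gt_Sym

lemma one_le_logs {n : ℕ} (hn : 0 < n) {A : Matrix (Fin n) (Fin n) ℝ} (hA : A.det ≠ 0) :
    1 ≤ Real.log (4 * n / inv A) := by
  have hi := inv_pos hn hA
  have hle := inv_le hn A hA
  have h1 : (4 : ℝ) ≤ 4 * n / inv A := by
    rw [le_div_iff₀ hi]
    linarith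
  have h2 : Real.exp 1 ≤ 4 := by
    have := Real.exp_one_lt_d9
    linarith
  have h3 := Real.log_le_log (Real.exp_pos 1) (h2.trans h1)
  rwa [Real.log_exp] at h3

/-- The statement about lines which are permuted by a finite `p`-group. -/
def LineStatement : Prop :=
  ∀ (G : Type) [Group G] [Finite G] (p : ℕ) [Fact p.Prime], IsPGroup p G →
    ∀ (n : ℕ) (ρ : G →* Matrix (Fin n) (Fin n) ℤ) (H : Subgroup G)
      (W : Submodule ℂ (Fin n → ℂ)), W ≠ ⊥ →
      (∀ h ∈ H, ∀ x ∈ W, cplx ρ h x ∈ W) → ∃ w ∈ W, w ≠ 0 ∧ ∃ K : Subgroup G, K ≤ H ∧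
        K.relIndex H ≤ Module.finrank ℂ W ∧ ∀ h ∈ K, ∃ c : ℂ, cplx ρ h w = c • w

/-- The statement about sums over primes. -/
def SumStatement : Prop :=
  ∃ C : ℝ, 0 < C ∧ ∀ (n : ℕ) (L : ℝ) (l : ℕ → ℕ), 3 ≤ n → 1 ≤ L →
    (∀ p : ℕ, p.Prime → l p * (p - 1) ≤ n) →
    (∀ p : ℕ, p.Prime → p ≤ n + 1 →
      ((l p : ℝ) - 2) * (((p : ℝ) - 1) * Real.log (n / ((p : ℝ) - 1))) ≤ n * L) →
    ∑ p ∈ (Finset.range (n + 2)).filter Nat.Prime, (l p : ℝ) * Real.log (2 * (n : ℝ) ^ 2) ≤
      C * n * L * Real.log (Real.log n)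

/-- The `p`-part of the order of the group of isometries. -/
lemma sylow_bound (hline : LineStatement) {n : ℕ} (hn : 0 < n) {A : Matrix (Fin n) (Fin n) ℝ}
    (hA : A.det ≠ 0) {p : ℕ} (hp : p.Prime) :
    ∃ l : ℕ, l * (p - 1) ≤ n ∧
      (p ≤ n + 1 → ((l : ℝ) - 2) * (((p : ℝ) - 1) * Real.log (n / ((p : ℝ) - 1))) ≤
        n * Real.log (4 * n / inv A)) ∧
      p ^ (Nat.card (isoGroup A)).factorization p ≤ (2 * n ^ 2) ^ l := by
  have : Fact p.Prime := ⟨hp⟩
  have hfin := finite_isoGroup hA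
  let P : Sylow p (isoGroup A) := default
  let ρ : P →* Matrix (Fin n) (Fin n) ℤ := (isoHom A).comp (P : Subgroup (isoGroup A)).subtype
  have hinj : Function.Injective ρ := (isoHom_injective A).comp Subtype.val_injective
  have hPG : IsPGroup p P := P.isPGroup'
  obtain ⟨D, hD, hreach, hcard⟩ := pgroup_reach ρ hPG hinj
    (fun H W hW hWs => hline P p hPG n ρ H W hW hWs) hA
    (fun g => isoHom_isometry A _) (Nat.card (⊤ : Subgroup P)) ⊤ le_rfl
  have hsum : D.length * (p - 1) ≤ D.sum := by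
    have := List.card_nsmul_le_sum D (p - 1) hD
    rwa [smul_eq_mul] at this
  have hDn : D.sum ≤ n := by have := hreach.1; omega
  refine ⟨D.length, hsum.trans hDn, ?_, ?_⟩
  · intro hpn
    have hq : 0 < p - 1 := by have := hp.two_le; omega
    have hqn : p - 1 ≤ n := by omega
    have h1 := length_bound hn hq hqn hA hreach hD
    have hcast : ((p - 1 : ℕ) : ℝ) = (p : ℝ) - 1 := by
      rw [Nat.cast_sub hp.one_le, Nat.cast_one]
    rw [hcast] at h1
    refine le_trans ?_ h1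
    have hq0 : (0 : ℝ) < (p : ℝ) - 1 := by rw [← hcast]; exact_mod_cast hq
    have h2 : 0 ≤ ((p : ℝ) - 1) * Real.log (n / ((p : ℝ) - 1)) := by
      refine mul_nonneg hq0.le (Real.log_nonneg ?_)
      rw [one_le_div hq0, ← hcast]
      exact_mod_cast hqn
    exact mul_le_mul_of_nonneg_right (by linarith) h2
  · have h1 : Nat.card (⊤ : Subgroup P) = Nat.card P := Subgroup.card_top
    rw [h1] at hcard
    have h2 : Nat.card P = p ^ (Nat.card (isoGroup A)).factorization p :=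
      P.card_eq_multiplicity
    rw [← h2]
    exact hcard

theorem order_bound (hline : LineStatement) (hsum : SumStatement) :
    ∃ C : ℝ, 0 < C ∧ ∀ (n : ℕ) (A : Matrix (Fin n) (Fin n) ℝ), 3 ≤ n → A.det ≠ 0 →
      (Nat.card {U : Matrix (Fin n) (Fin n) ℤ // IsIsometry A U} : ℝ) ≤
        Real.log n ^ (C * n * Real.log (4 * n / inv A)) := by
  classical
  obtain ⟨C, hC, hmain⟩ := hsum
  refine ⟨C, hC, fun n A hn3 hA => ?_⟩
  have hn : 0 < n := by omega
  have hfin := finite_isoGroup hA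
  set L := Real.log (4 * n / inv A) with hL
  have hL1 : 1 ≤ L := one_le_logs hn hA
  choose! l hl1 hl2 hl3 using fun (p : ℕ) (hp : p.Prime) => sylow_bound hline hn hA hp
  have h1 := hmain n L l hn3 hL1 hl1 hl2
  rw [← card_isoGroup hA]
  set N := Nat.card (isoGroup A) with hN
  have hN0 : N ≠ 0 := Nat.card_pos.ne'
  have hn2 : 0 < 2 * n ^ 2 := by positivity
  have hsub : N.primeFactors ⊆ (Finset.range (n + 2)).filter Nat.Prime := by
    intro p hp
    have hpp := Nat.prime_of_mem_primeFactors hp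
    rw [Finset.mem_filter, Finset.mem_range]
    refine ⟨?_, hpp⟩
    have h2 : 1 ≤ N.factorization p := by
      have := (hpp.dvd_iff_one_le_factorization hN0).1 (Nat.dvd_of_mem_primeFactors hp)
      exact this
    have h3 := hl3 p hpp
    have h4 : l p ≠ 0 := by
      intro h0
      rw [h0, pow_zero] at h3
      have h5 : 1 < p ^ N.factorization p := Nat.one_lt_pow (by omega) hpp.one_lt
      omega
    have h6 := hl1 p hpp
    have h7 : p - 1 ≤ l p * (p - 1) := Nat.le_mul_of_pos_left _ (by omega)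
    omega
  have h2 : N ≤ ∏ p ∈ (Finset.range (n + 2)).filter Nat.Prime, (2 * n ^ 2) ^ l p := by
    calc N = ∏ p ∈ N.primeFactors, p ^ N.factorization p :=
          (Nat.factorization_prod_pow_eq_self hN0).symm
      _ ≤ ∏ p ∈ N.primeFactors, (2 * n ^ 2) ^ l p :=
          Finset.prod_le_prod' fun p hp => hl3 p (Nat.prime_of_mem_primeFactors hp)
      _ ≤ _ := Finset.prod_le_prod_of_subset_of_one_le' hsub
          fun p _ _ => Nat.one_le_iff_ne_zero.2 (pow_pos hn2 _).ne'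
  have hNpos : (0 : ℝ) < N := by exact_mod_cast Nat.pos_of_ne_zero hN0
  have h3 : Real.log N ≤ ∑ p ∈ (Finset.range (n + 2)).filter Nat.Prime,
      (l p : ℝ) * Real.log (2 * (n : ℝ) ^ 2) := by
    have h4 : (N : ℝ) ≤ ∏ p ∈ (Finset.range (n + 2)).filter Nat.Prime,
        (2 * (n : ℝ) ^ 2) ^ l p := by exact_mod_cast h2
    have h5 := Real.log_le_log hNpos h4
    rw [Real.log_prod (fun p _ => by positivity)] at h5
    refine h5.trans (le_of_eq (Finset.sum_congr rfl fun p _ => ?_))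
    rw [Real.log_pow]
  have hn3' : (3 : ℝ) ≤ n := by exact_mod_cast hn3
  have hlogn : 0 < Real.log n := Real.log_pos (by linarith)
  rw [Real.rpow_def_of_pos hlogn, ← Real.exp_log hNpos]
  refine Real.exp_le_exp.2 (h3.trans (h1.trans (le_of_eq ?_)))
  ring

end Pool.Agent.Lib.MP_ef2672_gt_Chain
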