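import Pool.Agent.Lib.MP_ef2672_gt_Sym.Final

/-!
Lattices fixed by sets of isometries: the basic inequality between the volumes of two of them.
-/

namespace Pool.Agent.Lib.MP_ef2672_gt_Chain

open Pool.Agent.Lib.MP_ef2672_gt_Tauber Pool.Agent.Lib.MP_ef2672_gt_Sym

/-- The lattice of the integer vectors which are fixed by all matrices in `S`. -/
def fixedLattice {n : ℕ} (S : Set (Matrix (Fin n) (Fin n) ℤ)) : Submodule ℤ (Fin n → ℤ) where
  carrier := {w | ∀ U ∈ S, U.mulVec w = w}
  add_mem' := fun {a b} ha hb U hU => by rw [Matrix.mulVec_add, ha U hU, hb U hU]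
  zero_mem' := fun U _ => Matrix.mulVec_zero U
  smul_mem' := fun c x hx U hU => by rw [Matrix.mulVec_smul, hx U hU]

lemma mem_fixedLattice {n : ℕ} {S : Set (Matrix (Fin n) (Fin n) ℤ)} {w : Fin n → ℤ} :
    w ∈ fixedLattice S ↔ ∀ U ∈ S, U.mulVec w = w := Iff.rfl

/-- The real matrix whose columns are the integer vectors `v j`. -/
def cols {n : ℕ} {ι : Type*} (v : ι → Fin n → ℤ) : Matrix (Fin n) ι ℝ :=
  Matrix.of fun i j => (v j i : ℝ)

/-- The Gram matrix of integer vectors. -/
noncomputable def gram {n : ℕ} {ι : Type*} (A : Matrix (Fin n) (Fin n) ℝ)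
    (v : ι → Fin n → ℤ) : Matrix ι ι ℝ :=
  (A * cols v).transpose * (A * cols v)

lemma gram_posSemidef {n : ℕ} {ι : Type*} [Fintype ι] (A : Matrix (Fin n) (Fin n) ℝ)
    (v : ι → Fin n → ℤ) : (gram A v).PosSemidef := by
  have := Matrix.posSemidef_conjTranspose_mul_self (A * cols v)
  rwa [Matrix.conjTranspose_eq_transpose_of_trivial] at this

/-- The quadratic form of the Gram matrix. -/
lemma gram_quad {n : ℕ} {ι : Type*} [Fintype ι] (A : Matrix (Fin n) (Fin n) ℝ)
    (v : ι → Fin n → ℤ) (x : ι → ℝ) :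
    dotProduct x ((gram A v).mulVec x) = ∑ i, (A.mulVec ((cols v).mulVec x)) i ^ 2 := by
  unfold gram
  rw [← Matrix.mulVec_mulVec, Matrix.dotProduct_mulVec, Matrix.vecMul_transpose,
    ← Matrix.mulVec_mulVec]
  simp only [dotProduct]
  exact Finset.sum_congr rfl fun i _ => (sq _).symm

/-- Linearly independent integer vectors are linearly independent over the reals. -/
lemma cols_inj {n : ℕ} {ι : Type*} [Fintype ι] {v : ι → Fin n → ℤ}
    (hv : LinearIndependent ℤ v) {x : ι → ℝ} (hx : (cols v).mulVec x = 0) : x = 0 := by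
  classical
  let W : Matrix (Fin n) ι ℤ := Matrix.of fun i j => v j i
  have hWc : W.map (Int.cast : ℤ → ℝ) = cols v := by
    ext i j; rfl
  have hdet : (W.transpose * W).det ≠ 0 := by
    intro h0
    obtain ⟨y, hy0, hy⟩ := Matrix.exists_mulVec_eq_zero_iff.2 h0
    apply hy0
    have h1 : dotProduct (W.mulVec y) (W.mulVec y) = 0 := by
      have h2 : dotProduct y ((W.transpose * W).mulVec y) = 0 := by rw [hy, dotProduct_zero]
      rwa [← Matrix.mulVec_mulVec, Matrix.dotProduct_mulVec, Matrix.vecMul_transpose] at h2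
    have h3 : W.mulVec y = 0 := dotProduct_self_eq_zero.1 h1
    have h4 : ∑ j, y j • v j = 0 := by
      ext i
      have := congrFun h3 i
      simp only [Matrix.mulVec, dotProduct, W, Matrix.of_apply, Pi.zero_apply] at this
      rw [Finset.sum_apply, Pi.zero_apply, ← this]
      exact Finset.sum_congr rfl fun j _ => by simp [mul_comm]
    ext j
    exact Fintype.linearIndependent_iff.1 hv y h4 j
  have hdetR : ((cols v).transpose * cols v).det ≠ 0 := by
    have h1 : (cols v).transpose * cols v = (W.transpose * W).map (Int.castRingHom ℝ) := by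
      rw [Matrix.map_mul, ← hWc]
      rfl
    rw [h1, ← RingHom.mapMatrix_apply, ← RingHom.map_det]
    simpa using hdet
  refine Matrix.eq_zero_of_mulVec_eq_zero hdetR ?_
  rw [← Matrix.mulVec_mulVec, hx, Matrix.mulVec_zero]

lemma mulVec_inj {n : ℕ} {A : Matrix (Fin n) (Fin n) ℝ} (hA : A.det ≠ 0) {x : Fin n → ℝ}
    (hx : A.mulVec x = 0) : x = 0 := Matrix.eq_zero_of_mulVec_eq_zero hA hx

lemma sum_sq_eq_zero {n : ℕ} {x : Fin n → ℝ} (h : ∑ i, x i ^ 2 = 0) : x = 0 := by
  ext i
  have := (Finset.sum_eq_zero_iff_of_nonneg fun i _ => sq_nonneg (x i)).1 h i (Finset.mem_univ i)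
  simpa using this

lemma gram_posDef {n : ℕ} {ι : Type*} [Fintype ι] {A : Matrix (Fin n) (Fin n) ℝ}
    (hA : A.det ≠ 0) {v : ι → Fin n → ℤ} (hv : LinearIndependent ℤ v) : (gram A v).PosDef := by
  refine Matrix.PosDef.of_dotProduct_mulVec_pos (gram_posSemidef A v).1 fun x hx => ?_
  rw [star_trivial, gram_quad]
  refine lt_of_le_of_ne (Finset.sum_nonneg fun i _ => sq_nonneg _) fun h => hx ?_
  exact cols_inj hv (mulVec_inj hA (sum_sq_eq_zero h.symm))

/-- The squared volume of a sublattice. -/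
noncomputable def vol2 {n : ℕ} (A : Matrix (Fin n) (Fin n) ℝ) (M : Submodule ℤ (Fin n → ℤ)) : ℝ :=
  (gram A fun i => ((Module.finBasis ℤ M) i : Fin n → ℤ)).det

lemma gram_det_eq {n : ℕ} {ι : Type*} [Fintype ι] [DecidableEq ι]
    (A : Matrix (Fin n) (Fin n) ℝ) {M : Submodule ℤ (Fin n → ℤ)} (b b' : Module.Basis ι ℤ M) :
    (gram A fun i => (b' i : Fin n → ℤ)).det = (gram A fun i => (b i : Fin n → ℤ)).det := by
  set P : Matrix ι ι ℤ := b.toMatrix b' with hP
  have hcols : cols (fun i => (b' i : Fin n → ℤ)) =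
      cols (fun i => (b i : Fin n → ℤ)) * P.map (Int.cast : ℤ → ℝ) := by
    ext i j
    have h1 := b.sum_toMatrix_smul_self b' j
    have h2 := congrArg (fun x : M => (x : Fin n → ℤ) i) h1
    simp only [Submodule.coe_sum, Submodule.coe_smul, Finset.sum_apply, Pi.smul_apply,
      smul_eq_mul] at h2
    simp only [cols, Matrix.of_apply, Matrix.mul_apply, Matrix.map_apply]
    rw [← h2]
    push_cast
    exact Finset.sum_congr rfl fun k _ => mul_comm _ _
  have hdet : (P.map (Int.cast : ℤ → ℝ)).det ^ 2 = 1 := by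
    have h1 : P * b'.toMatrix b = 1 := b.toMatrix_mul_toMatrix_flip b'
    have h2 : P.det * (b'.toMatrix b).det = 1 := by
      rw [← Matrix.det_mul, h1, Matrix.det_one]
    have h3 : IsUnit P.det := IsUnit.of_mul_eq_one _ h2
    have h4 : (P.map (Int.cast : ℤ → ℝ)).det = (P.det : ℝ) := (Int.cast_det P).symm
    rw [h4]
    rcases Int.isUnit_iff.1 h3 with h | h <;> rw [h] <;> norm_num
  set C : Matrix (Fin n) ι ℝ := cols fun i => (b i : Fin n → ℤ)
  set Q : Matrix ι ι ℝ := P.map (Int.cast : ℤ → ℝ)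
  have key : (A * (C * Q)).transpose * (A * (C * Q)) =
      Q.transpose * ((A * C).transpose * (A * C)) * Q := by
    rw [← Matrix.mul_assoc A, Matrix.transpose_mul (A * C)]
    simp only [Matrix.mul_assoc]
  unfold gram
  rw [hcols, key, Matrix.det_mul, Matrix.det_mul, Matrix.det_transpose Q]
  linear_combination ((A * C).transpose * (A * C)).det * hdet

lemma gram_reindex {n : ℕ} {ι κ : Type*} [Fintype ι] [DecidableEq ι] [Fintype κ] [DecidableEq κ]
    (A : Matrix (Fin n) (Fin n) ℝ) (v : ι → Fin n → ℤ) (e : κ ≃ ι) :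
    (gram A fun i => v (e i)).det = (gram A v).det := by
  rw [← Matrix.det_submatrix_equiv_self e (gram A v)]
  rfl

lemma vol2_eq {n : ℕ} {ι : Type*} [Fintype ι] [DecidableEq ι]
    (A : Matrix (Fin n) (Fin n) ℝ) {M : Submodule ℤ (Fin n → ℤ)} (b : Module.Basis ι ℤ M) :
    vol2 A M = (gram A fun i => (b i : Fin n → ℤ)).det := by
  have hcard : Fintype.card (Fin (Module.finrank ℤ M)) = Fintype.card ι := by
    rw [Fintype.card_fin, Module.finrank_eq_card_basis b]
  let e : Fin (Module.finrank ℤ M) ≃ ι := Fintype.equivOfCardEq hcard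
  have h1 := gram_det_eq A (b.reindex e.symm) (Module.finBasis ℤ M)
  unfold vol2
  rw [h1, ← gram_reindex A (fun i => (b i : Fin n → ℤ)) e]
  congr 2
  ext i
  simp

lemma vol2_top {n : ℕ} (A : Matrix (Fin n) (Fin n) ℝ) :
    vol2 A (⊤ : Submodule ℤ (Fin n → ℤ)) = A.det ^ 2 := by
  rw [vol2_eq A ((Pi.basisFun ℤ (Fin n)).map (Submodule.topEquiv).symm)]
  have : cols (fun i => ((((Pi.basisFun ℤ (Fin n)).map (Submodule.topEquiv).symm) i :
      (⊤ : Submodule ℤ (Fin n → ℤ))) : Fin n → ℤ)) = 1 := by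
    ext i j
    simp [cols, Matrix.one_apply, Pi.single_apply]
  unfold gram
  rw [this, Matrix.mul_one, Matrix.det_mul, Matrix.det_transpose, sq]

lemma vol2_pos {n : ℕ} {A : Matrix (Fin n) (Fin n) ℝ} (hA : A.det ≠ 0)
    (M : Submodule ℤ (Fin n → ℤ)) : 0 < vol2 A M := by
  refine (gram_posDef hA ?_).det_pos
  exact (Module.finBasis ℤ M).linearIndependent.map' M.subtype (Submodule.ker_subtype M)

end Pool.Agent.Lib.MP_ef2672_gt_Chain
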